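import Mathlib
import Pool.Agent.H3.Frg.Formula

set_option autoImplicit false

/-!
# Frege proofs and the size of formulas: the definitions used in the statement
-/

namespace Pool.Agent.H3.Frg

/-- Substitution instance: the metavariable `i` of the scheme is replaced by the formula `σ i`. -/
def Fm.bind {V : Type} (σ : ℕ → Fm V) : Fm ℕ → Fm V
  | Fm.var i => σ i
  | Fm.neg A => Fm.neg (A.bind σ)
  | Fm.imp A B => Fm.imp (A.bind σ) (B.bind σ)

/-- Binary prefix encoding of formulas whose variables are indexed by natural numbers: `¬` is
`10`, `→` is `11` (prefix notation), the variable `i` is `0`, then the binary digits of `i`, each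
preceded by `1`, then `0`. The size of a formula is the length of its encoding. -/
def Fm.enc : Fm ℕ → List Bool
  | Fm.var i => false :: ((Nat.bits i).flatMap (fun b => [true, b]) ++ [false])
  | Fm.neg A => true :: false :: A.enc
  | Fm.imp A B => true :: true :: (A.enc ++ B.enc)

end Pool.Agent.H3.Frg

namespace Pool.Agent.H3.Frg2

open Pool.Agent.H3.Frg

/-- A proof in the Frege system with axiom schemes `Sch` (a set of formulas in the metavariables
`0, 1, 2, …`) and modus ponens: every line is a substitution instance of a scheme, or follows from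
two earlier lines by modus ponens. -/
def IsProof {V : Type} (Sch : Set (Fm ℕ)) {L : ℕ} (pf : Fin L → Fm V) : Prop :=
  ∀ i, (∃ ψ ∈ Sch, ∃ σ : ℕ → Fm V, pf i = ψ.bind σ) ∨
    (∃ j k, j < i ∧ k < i ∧ pf k = Fm.imp (pf j) (pf i))

end Pool.Agent.H3.Frg2
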