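import Mathlib
import Pool.Agent.H3.Frg.Core
import Pool.Agent.H3.Frg2.Stmt

set_option autoImplicit false
set_option linter.unusedSectionVars false

/-!
# Frege proofs with lines longer than the tautology: definitions

Everything here is about a constant-degree multigraph `(src, tgt : E → Wv)` (the *super graph*), its
blow-up `(bsrc, btgt : E × Fin r × Fin r → Wv × Fin r)` (every vertex `w` is replaced by the `r`
vertices `(w, α)`, every edge `e` by the complete bipartite graph between the two fibres), and
choices `c : Wv → Fin r` of a hidden centre in every fibre.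
-/

namespace Pool.Agent.H3.Frg2

open Finset Pool.Agent.H3.Frg

section Graph

variable {E Wv : Type} [Fintype E] [DecidableEq E] [Fintype Wv] [DecidableEq Wv]

/-- edges from `w` to `X` -/
def toIn (src tgt : E → Wv) (w : Wv) (X : Finset Wv) : Finset E :=
  univ.filter fun e => (src e = w ∧ tgt e ∈ X) ∨ (tgt e = w ∧ src e ∈ X)

/-- edges from `w` to the complement of `X` -/
def toOut (src tgt : E → Wv) (w : Wv) (X : Finset Wv) : Finset E :=
  univ.filter fun e => (src e = w ∧ tgt e ∉ X) ∨ (tgt e = w ∧ src e ∉ X)

/-- the hypotheses on the super graph -/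
structure SG (src tgt : E → Wv) (D c0 : ℕ) : Prop where
  /-- there are no loops -/
  loopless : ∀ e, src e ≠ tgt e
  /-- bounded degree -/
  deg : ∀ w, (bd src tgt {w}).card ≤ D
  /-- edge expansion -/
  cheeger : ∀ X : Finset Wv,
    min X.card (Fintype.card Wv - X.card) ≤ c0 * (bd src tgt X).card
  /-- a small set has a vertex most of whose edges leave the set -/
  peel : ∀ X : Finset Wv, X.Nonempty → 16 * X.card ≤ Fintype.card Wv →
    ∃ w ∈ X, (toIn src tgt w X).card < (toOut src tgt w X).card

/-- source map of the blow-up -/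
def bsrc (src : E → Wv) (r : ℕ) (v : E × Fin r × Fin r) : Wv × Fin r := (src v.1, v.2.1)

/-- target map of the blow-up -/
def btgt (tgt : E → Wv) (r : ℕ) (v : E × Fin r × Fin r) : Wv × Fin r := (tgt v.1, v.2.2)

/-- boundary in the blow-up -/
abbrev bb (src tgt : E → Wv) (r : ℕ) (X : Finset (Wv × Fin r)) : Finset (E × Fin r × Fin r) :=
  bd (bsrc src r) (btgt tgt r) X

theorem mem_bb {src tgt : E → Wv} {r : ℕ} {X : Finset (Wv × Fin r)} {v : E × Fin r × Fin r} :
    v ∈ bb src tgt r X ↔ ¬ ((src v.1, v.2.1) ∈ X ↔ (tgt v.1, v.2.2) ∈ X) := by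
  rw [bb, mem_bd]; rfl

end Graph

section Formulas

variable {V : Type}

/-- number of symbols of a formula (variables, negations, implications) -/
def _root_.Pool.Agent.H3.Frg.Fm.len : Fm V → ℕ
  | Fm.var _ => 1
  | Fm.neg A => A.len + 1
  | Fm.imp A B => A.len + B.len + 1

/-- value of a formula when the variable `i` has the truth value `F i z` -/
def hv {X : Type} (F : V → X → Bool) (A : Fm V) (z : X) : Bool := A.eval fun i => F i z

/-- real valued version of a Boolean function -/
def rl {X : Type} (p : X → Bool) (z : X) : ℝ := if p z then 1 else 0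

/-- subformulas -/
def _root_.Pool.Agent.H3.Frg.Fm.subs : Fm V → List (Fm V)
  | Fm.var i => [Fm.var i]
  | Fm.neg A => Fm.neg A :: A.subs
  | Fm.imp A B => Fm.imp A B :: (A.subs ++ B.subs)

/-- a true formula -/
def top (v : V) : Fm V := Fm.imp (Fm.var v) (Fm.var v)

/-- the formulas obtained by replacing one subformula occurrence by the true or the false
formula -/
def _root_.Pool.Agent.H3.Frg.Fm.insts (v : V) : Fm V → List (Fm V)
  | Fm.var _ => [top v, bot v]
  | Fm.neg A => top v :: bot v :: (A.insts v).map Fm.neg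
  | Fm.imp A B => top v :: bot v ::
      ((A.insts v).map (fun A' => Fm.imp A' B) ++ (B.insts v).map (fun B' => Fm.imp A B'))

/-- all subformulas and all their instances with one occurrence replaced -/
def allInst (v : V) (A : Fm V) : List (Fm V) := A.subs.flatMap fun B => B :: B.insts v

/-- An abstract pseudo-evaluation: a notion of degree and an ideal `Z` of functions that are
pseudo-equal to zero, closed under multiplication by functions of small degree. -/
structure PA (X : Type) where
  /-- degree at most -/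
  Dg : (X → ℝ) → ℕ → Prop
  /-- pseudo-equal to zero -/
  Z : (X → ℝ) → Prop
  /-- the allowed degree -/
  M : ℕ
  /-- monotonicity -/
  dg_mono : ∀ {p : X → ℝ} {a b : ℕ}, Dg p a → a ≤ b → Dg p b
  /-- constants -/
  dg_const : ∀ c : ℝ, Dg (fun _ => c) 0
  /-- sums -/
  dg_add : ∀ {p q : X → ℝ} {a : ℕ}, Dg p a → Dg q a → Dg (fun z => p z + q z) a
  /-- multiples -/
  dg_smul : ∀ {p : X → ℝ} {a : ℕ} (c : ℝ), Dg p a → Dg (fun z => c * p z) a
  /-- products -/
  dg_mul : ∀ {p q : X → ℝ} {a b : ℕ}, Dg p a → Dg q b → Dg (fun z => p z * q z) (a + b)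
  /-- zero -/
  z_zero : Z (fun _ => 0)
  /-- sums -/
  z_add : ∀ {p q : X → ℝ}, Z p → Z q → Z (fun z => p z + q z)
  /-- multiples -/
  z_smul : ∀ {p : X → ℝ} (c : ℝ), Z p → Z (fun z => c * p z)
  /-- products -/
  z_mul : ∀ {p h : X → ℝ} {a b : ℕ}, Z p → Dg p a → Dg h b → a + b ≤ M → Z (fun z => h z * p z)
  /-- one is not pseudo-equal to zero -/
  z_one : ¬ Z (fun _ => 1)

/-- Coherent evaluation: `CE P F k A p` means that the Boolean function `p` is a value for the
formula `A`: all subformulas have values of degree at most `k`, and the connectives are respected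
up to pseudo-equality. -/
def CE {X : Type} (P : PA X) (F : V → X → Bool) (k : ℕ) : Fm V → (X → Bool) → Prop
  | Fm.var i, p => P.Dg (rl p) k ∧ P.Z (fun z => rl p z - rl (F i) z)
  | Fm.neg A, p => P.Dg (rl p) k ∧ ∃ a, CE P F k A a ∧ P.Z (fun z => rl p z - (1 - rl a z))
  | Fm.imp A B, p => P.Dg (rl p) k ∧ ∃ a b, CE P F k A a ∧ CE P F k B b ∧
      P.Z (fun z => rl p z - (1 - rl a z * (1 - rl b z)))

/-- A formula whose honest value has degree at most `K`, and is pseudo-equal to a Boolean function
of degree at most `t`. -/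
def Good {X : Type} (P : PA X) (F : V → X → Bool) (K t : ℕ) (A : Fm V) : Prop :=
  P.Dg (rl (hv F A)) K ∧ ∃ g : X → Bool, P.Dg (rl g) t ∧ P.Z (fun z => rl g z - rl (hv F A) z)

end Formulas

end Pool.Agent.H3.Frg2
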