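import Mathlib
import Pool.Agent.H3.Frg2.Defs

set_option autoImplicit false
set_option linter.unusedSectionVars false

/-!
# Elementary lemmas on abstract pseudo-evaluations and coherent evaluations
-/

namespace Pool.Agent.H3.Frg2

open Finset Pool.Agent.H3.Frg

variable {V X : Type}

theorem PA.z_congr (P : PA X) {p q : X → ℝ} (h : P.Z p) (hpq : ∀ z, p z = q z) : P.Z q := by
  have : p = q := funext hpq
  rwa [← this]

theorem PA.dg_congr (P : PA X) {p q : X → ℝ} {a : ℕ} (h : P.Dg p a) (hpq : ∀ z, p z = q z) :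
    P.Dg q a := by
  have : p = q := funext hpq
  rwa [← this]

theorem PA.z_neg (P : PA X) {p : X → ℝ} (h : P.Z p) : P.Z (fun z => - p z) :=
  P.z_congr (P.z_smul (-1) h) (by intro z; ring)

theorem PA.z_sub (P : PA X) {p q : X → ℝ} (h : P.Z p) (h' : P.Z q) :
    P.Z (fun z => p z - q z) :=
  P.z_congr (P.z_add h (P.z_neg h')) (by intro z; ring)

theorem PA.dg_sub (P : PA X) {p q : X → ℝ} {a : ℕ} (h : P.Dg p a) (h' : P.Dg q a) :
    P.Dg (fun z => p z - q z) a :=
  P.dg_congr (P.dg_add h (P.dg_smul (-1) h')) (by intro z; ring)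

theorem PA.dg_const' (P : PA X) (c : ℝ) (a : ℕ) : P.Dg (fun _ => c) a :=
  P.dg_mono (P.dg_const c) (Nat.zero_le a)

theorem PA.dg_one_sub (P : PA X) {p : X → ℝ} {a : ℕ} (h : P.Dg p a) :
    P.Dg (fun z => 1 - p z) a :=
  P.dg_sub (P.dg_const' 1 a) h

/-- pseudo-equality -/
def PA.Peq (P : PA X) (p q : X → ℝ) : Prop := P.Z (fun z => p z - q z)

theorem PA.peq_refl (P : PA X) (p : X → ℝ) : P.Peq p p :=
  P.z_congr P.z_zero (by intro z; ring)

theorem PA.peq_of_eq (P : PA X) {p q : X → ℝ} (h : ∀ z, p z = q z) : P.Peq p q :=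
  P.z_congr P.z_zero (by intro z; rw [h z]; ring)

theorem PA.peq_symm (P : PA X) {p q : X → ℝ} (h : P.Peq p q) : P.Peq q p :=
  P.z_congr (P.z_neg h) (by intro z; ring)

theorem PA.peq_trans (P : PA X) {p q r : X → ℝ} (h : P.Peq p q) (h' : P.Peq q r) : P.Peq p r :=
  P.z_congr (P.z_add h h') (by intro z; ring)

theorem PA.peq_one_sub (P : PA X) {p q : X → ℝ} (h : P.Peq p q) :
    P.Peq (fun z => 1 - p z) (fun z => 1 - q z) :=
  P.z_congr (P.z_neg h) (by intro z; ring)

theorem PA.peq_add (P : PA X) {p q p' q' : X → ℝ} (h : P.Peq p p') (h' : P.Peq q q') :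
    P.Peq (fun z => p z + q z) (fun z => p' z + q' z) :=
  P.z_congr (P.z_add h h') (by intro z; ring)

theorem PA.peq_mul (P : PA X) {p q p' q' : X → ℝ} {a b : ℕ} (hp : P.Dg p a) (hp' : P.Dg p' a)
    (hq : P.Dg q b) (hq' : P.Dg q' b) (hM : a + b ≤ P.M) (h : P.Peq p p') (h' : P.Peq q q') :
    P.Peq (fun z => p z * q z) (fun z => p' z * q' z) := by
  have h1 := P.z_mul (p := fun z => p z - p' z) (h := q) h (P.dg_sub hp hp') hq hM
  have h2 := P.z_mul (p := fun z => q z - q' z) (h := p') h' (P.dg_sub hq hq') hp'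
    (by omega)
  exact P.z_congr (P.z_add h1 h2) (by intro z; ring)

theorem PA.peq_imp (P : PA X) {p q p' q' : X → ℝ} {a b : ℕ} (hp : P.Dg p a) (hp' : P.Dg p' a)
    (hq : P.Dg q b) (hq' : P.Dg q' b) (hM : a + b ≤ P.M) (h : P.Peq p p') (h' : P.Peq q q') :
    P.Peq (fun z => 1 - p z * (1 - q z)) (fun z => 1 - p' z * (1 - q' z)) :=
  P.peq_one_sub (P.peq_mul hp hp' (P.dg_one_sub hq) (P.dg_one_sub hq') hM h (P.peq_one_sub h'))

theorem rl_not (p : X → Bool) (z : X) : rl (fun z => !(p z)) z = 1 - rl p z := by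
  rcases h : p z <;> simp [rl, h]

theorem rl_imp (p q : X → Bool) (z : X) :
    rl (fun z => !(p z) || q z) z = 1 - rl p z * (1 - rl q z) := by
  rcases h : p z <;> rcases h' : q z <;> simp [rl, h, h']

theorem rl_ite (b p q : X → Bool) (z : X) :
    rl (fun z => if b z then p z else q z) z = rl b z * rl p z + (1 - rl b z) * rl q z := by
  rcases h : p z <;> rcases h' : q z <;> rcases h'' : b z <;> simp [rl, h, h', h'']

theorem rl_true (z : X) : rl (fun _ : X => true) z = 1 := by simp [rl]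

theorem rl_false (z : X) : rl (fun _ : X => false) z = 0 := by simp [rl]

theorem rl_sq (p : X → Bool) (z : X) : rl p z * rl p z = rl p z := by
  rcases h : p z <;> simp [rl, h]

theorem hv_var (F : V → X → Bool) (i : V) (z : X) : hv F (Fm.var i) z = F i z := rfl

theorem hv_neg (F : V → X → Bool) (A : Fm V) : hv F (Fm.neg A) = fun z => !(hv F A z) := rfl

theorem hv_imp (F : V → X → Bool) (A B : Fm V) :
    hv F (Fm.imp A B) = fun z => !(hv F A z) || hv F B z := rfl

variable {P : PA X} {F : V → X → Bool} {k K : ℕ}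

theorem ce_var_iff {i : V} {p : X → Bool} :
    CE P F k (Fm.var i) p ↔ P.Dg (rl p) k ∧ P.Peq (rl p) (rl (F i)) := Iff.rfl

theorem ce_neg_iff {A : Fm V} {p : X → Bool} :
    CE P F k (Fm.neg A) p ↔ P.Dg (rl p) k ∧ ∃ a, CE P F k A a ∧
      P.Peq (rl p) (fun z => 1 - rl a z) := Iff.rfl

theorem ce_imp_iff {A B : Fm V} {p : X → Bool} :
    CE P F k (Fm.imp A B) p ↔ P.Dg (rl p) k ∧ ∃ a b, CE P F k A a ∧ CE P F k B b ∧
      P.Peq (rl p) (fun z => 1 - rl a z * (1 - rl b z)) := Iff.rfl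

theorem ce_dg {A : Fm V} {p : X → Bool} (h : CE P F k A p) : P.Dg (rl p) k := by
  cases A with
  | var i => exact h.1
  | neg A => exact h.1
  | imp A B => exact h.1

end Pool.Agent.H3.Frg2
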