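import Mathlib
import Pool.Agent.H3.Frg2.Defs

set_option autoImplicit false
set_option linter.unusedSectionVars false

/-!
# Projection of an assignment to the solutions of the axioms of a few vertices
-/

namespace Pool.Agent.H3.Frg2

open Finset Pool.Agent.H3.Frg

variable {E Wv : Type} [Fintype E] [DecidableEq E] [Fintype Wv] [DecidableEq Wv]

theorem sg_decide_odd (n : ℕ) : sg (decide (Odd n)) = (-1) ^ n := by
  unfold sg
  by_cases h : Odd n
  · simp [h]
  · simp [h, Even.neg_one_pow (Nat.not_odd_iff_even.mp h)]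

theorem sg_xor' (a b : Bool) : sg (xor a b) = sg a * sg b := sg_xor a b

theorem bd_insert {src tgt : E → Wv} {a : Wv} {X : Finset Wv} (ha : a ∉ X) :
    bd src tgt (insert a X) = symmDiff (bd src tgt {a}) (bd src tgt X) := by
  rw [← bd_symmDiff]
  congr 1
  ext w
  simp only [Finset.mem_symmDiff, Finset.mem_singleton, Finset.mem_insert]
  constructor
  · rintro (h | h)
    · exact Or.inl ⟨h, fun h2 => ha (h ▸ h2)⟩
    · exact Or.inr ⟨h, fun h2 => ha (h2 ▸ h)⟩
  · rintro (⟨h, _⟩ | ⟨h, _⟩)
    · exact Or.inl h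
    · exact Or.inr h

/-- characters of boundaries -/
theorem chi_bd (src tgt : E → Wv) (X : Finset Wv) (z : E → Bool) :
    chi (bd src tgt X) z = ∏ w ∈ X, chi (bd src tgt {w}) z := by
  induction X using Finset.induction_on with
  | empty => simp [bd_empty, chi_empty]
  | insert a X ha ih => rw [Finset.prod_insert ha, ← ih, bd_insert ha, chi_mul]

/-- vertices of `X` with odd intersection -/
def OO (π : Wv → Finset E) (X : Finset Wv) (Q : Finset E) : Finset Wv :=
  X.filter fun w => Odd (Q ∩ π w).card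

theorem mem_OO {π : Wv → Finset E} {X : Finset Wv} {Q : Finset E} {w : Wv} :
    w ∈ OO π X Q ↔ w ∈ X ∧ Odd (Q ∩ π w).card := by simp [OO]

/-- parity of the intersection of a symmetric difference -/
theorem odd_symmDiff_inter (A B C : Finset E) :
    Odd (symmDiff A B ∩ C).card ↔ ¬ (Odd (A ∩ C).card ↔ Odd (B ∩ C).card) := by
  have h1 : (symmDiff A B ∩ C).card + 2 * (A ∩ B ∩ C).card = (A ∩ C).card + (B ∩ C).card := by
    have e1 : (A ∩ C).card = ((A \ B) ∩ C).card + (A ∩ B ∩ C).card := by
      rw [← Finset.card_union_of_disjoint]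
      · congr 1; ext x; simp only [mem_inter, mem_union, mem_sdiff]; tauto
      · rw [Finset.disjoint_left]; intro x; simp only [mem_inter, mem_sdiff]; tauto
    have e2 : (B ∩ C).card = ((B \ A) ∩ C).card + (A ∩ B ∩ C).card := by
      rw [← Finset.card_union_of_disjoint]
      · congr 1; ext x; simp only [mem_inter, mem_union, mem_sdiff]; tauto
      · rw [Finset.disjoint_left]; intro x; simp only [mem_inter, mem_sdiff]; tauto
    have e3 : (symmDiff A B ∩ C).card = ((A \ B) ∩ C).card + ((B \ A) ∩ C).card := by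
      rw [← Finset.card_union_of_disjoint]
      · congr 1; ext x; simp only [mem_inter, mem_union, mem_sdiff, Finset.mem_symmDiff]; tauto
      · rw [Finset.disjoint_left]; intro x; simp only [mem_inter, mem_sdiff]; tauto
    omega
  rw [Nat.odd_iff, Nat.odd_iff, Nat.odd_iff]
  omega

/-- dual families -/
def IsDual (src tgt : E → Wv) (π : Wv → Finset E) (X : Finset Wv) : Prop :=
  (∀ w ∈ X, ∀ w' ∈ X, (Odd (π w ∩ bd src tgt {w'}).card ↔ w = w')) ∧
  (∀ w ∈ X, ∀ w' ∈ X, w ≠ w' → Disjoint (π w) (π w'))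

theorem odd_bd_inter {src tgt : E → Wv} {π : Wv → Finset E} {X : Finset Wv}
    (h : IsDual src tgt π X) {w : Wv} (hw : w ∈ X) (Z : Finset Wv) (hZ : Z ⊆ X) :
    Odd (bd src tgt Z ∩ π w).card ↔ w ∈ Z := by
  induction Z using Finset.induction_on with
  | empty => simp [bd_empty]
  | insert a Z ha ih =>
    rw [bd_insert ha, odd_symmDiff_inter]
    have h1 := ih (fun x hx => hZ (Finset.mem_insert_of_mem hx))
    have h2 := h.1 w hw a (hZ (Finset.mem_insert_self a Z))
    rw [Finset.inter_comm] at h2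
    rw [h1, h2, Finset.mem_insert]
    constructor
    · intro h3
      by_cases h4 : w = a
      · exact Or.inl h4
      · right
        by_contra h5
        exact h3 ⟨fun h6 => absurd h6 h4, fun h6 => absurd h6 h5⟩
    · rintro (h3 | h3) h4
      · have := h4.mp h3
        exact ha (h3 ▸ this)
      · have := h4.mpr h3
        exact ha (this ▸ h3)

theorem OO_symmDiff_bd {src tgt : E → Wv} {π : Wv → Finset E} {X : Finset Wv}
    (h : IsDual src tgt π X) (Q : Finset E) (Z : Finset Wv) (hZ : Z ⊆ X) :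
    OO π X (symmDiff Q (bd src tgt Z)) = symmDiff (OO π X Q) Z := by
  ext w
  rw [mem_OO, odd_symmDiff_inter, Finset.mem_symmDiff, mem_OO]
  constructor
  · rintro ⟨h1, h2⟩
    rw [odd_bd_inter h h1 Z hZ] at h2
    by_cases h3 : Odd (Q ∩ π w).card
    · exact Or.inl ⟨⟨h1, h3⟩, fun h4 => h2 ⟨fun _ => h4, fun _ => h3⟩⟩
    · refine Or.inr ⟨?_, fun h4 => h3 h4.2⟩
      by_contra h4
      exact h2 ⟨fun h5 => absurd h5 h3, fun h5 => absurd h5 h4⟩
  · rintro (⟨⟨h1, h2⟩, h3⟩ | ⟨h1, h2⟩)
    · refine ⟨h1, ?_⟩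
      rw [odd_bd_inter h h1 Z hZ]
      exact fun h4 => h3 (h4.mp h2)
    · have h4 := hZ h1
      refine ⟨h4, ?_⟩
      rw [odd_bd_inter h h4 Z hZ]
      exact fun h5 => h2 ⟨h4, h5.mpr h1⟩

theorem card_OO_le {src tgt : E → Wv} {π : Wv → Finset E} {X : Finset Wv}
    (h : IsDual src tgt π X) (Q : Finset E) : (OO π X Q).card ≤ Q.card := by
  have h1 : ∑ w ∈ OO π X Q, 1 ≤ ∑ w ∈ OO π X Q, (Q ∩ π w).card := by
    refine Finset.sum_le_sum fun w hw => ?_
    rw [mem_OO] at hw
    exact hw.2.pos
  rw [← Finset.card_eq_sum_ones] at h1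
  refine h1.trans ?_
  rw [← Finset.card_biUnion]
  · refine Finset.card_le_card ?_
    intro e he
    rw [Finset.mem_biUnion] at he
    obtain ⟨w, _, h2⟩ := he
    exact (Finset.mem_inter.mp h2).1
  · intro w hw w' hw' hne
    have h3 := h.2 w (mem_OO.mp hw).1 w' (mem_OO.mp hw').1 hne
    exact Finset.disjoint_of_subset_left Finset.inter_subset_right
      (Finset.disjoint_of_subset_right Finset.inter_subset_right h3)

theorem card_bd_le {src tgt : E → Wv} {D c0 : ℕ} (h : SG src tgt D c0) (Z : Finset Wv) :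
    (bd src tgt Z).card ≤ D * Z.card := by
  induction Z using Finset.induction_on with
  | empty => simp [bd_empty]
  | insert a Z ha ih =>
    rw [bd_insert ha, Finset.card_insert_of_notMem ha]
    refine (card_symmDiff_le' _ _).trans ?_
    have := h.deg a
    rw [Nat.mul_add, Nat.mul_one]
    omega

/-- the violated axioms -/
noncomputable def viol (src tgt : E → Wv) (ε : Wv → ℝ) (X : Finset Wv) (z : E → Bool) :
    Finset Wv := by
  classical
  exact X.filter fun w => chi (bd src tgt {w}) z ≠ ε w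

theorem mem_viol {src tgt : E → Wv} {ε : Wv → ℝ} {X : Finset Wv} {z : E → Bool} {w : Wv} :
    w ∈ viol src tgt ε X z ↔ w ∈ X ∧ chi (bd src tgt {w}) z ≠ ε w := by
  simp [viol]

/-- flip the sets `π w` of all violated axioms -/
noncomputable def PiE (src tgt : E → Wv) (ε : Wv → ℝ) (π : Wv → Finset E) (X : Finset Wv)
    (z : E → Bool) : E → Bool := fun e =>
  xor (z e) (decide (Odd ((viol src tgt ε X z).filter fun w => e ∈ π w).card))

theorem sign_cases {x y : ℝ} (hx : x * x = 1) (hy : y * y = 1) :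
    (if x ≠ y then (-1:ℝ) else 1) = y * x := by
  split_ifs with h
  · have h1 : (x - y) * (x + y) = 0 := by linear_combination hx - hy
    rcases mul_eq_zero.mp h1 with h2 | h2
    · exact absurd (by linarith) h
    · have : x = -y := by linarith
      rw [this]; linear_combination hy
  · rw [not_not] at h
    rw [h]; exact hy.symm

theorem chi_PiE {src tgt : E → Wv} {ε : Wv → ℝ} (hε : ∀ w, ε w * ε w = 1)
    (π : Wv → Finset E) (X : Finset Wv) (Q : Finset E) (z : E → Bool) :
    chi Q (PiE src tgt ε π X z)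
      = epsX ε (OO π X Q) * chi (symmDiff Q (bd src tgt (OO π X Q))) z := by
  classical
  have h1 : chi Q (PiE src tgt ε π X z)
      = chi Q z * ∏ e ∈ Q, ∏ w ∈ viol src tgt ε X z, (if e ∈ π w then (-1:ℝ) else 1) := by
    unfold chi
    rw [← Finset.prod_mul_distrib]
    refine Finset.prod_congr rfl fun e _ => ?_
    unfold PiE
    rw [sg_xor', sg_decide_odd]
    congr 1
    rw [Finset.prod_ite, Finset.prod_const, Finset.prod_const_one, mul_one]
  have h2 : ∏ e ∈ Q, ∏ w ∈ viol src tgt ε X z, (if e ∈ π w then (-1:ℝ) else 1)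
      = ∏ w ∈ X, (if chi (bd src tgt {w}) z ≠ ε w then
          (if Odd (Q ∩ π w).card then (-1:ℝ) else 1) else 1) := by
    rw [Finset.prod_comm]
    unfold viol
    rw [Finset.prod_filter]
    refine Finset.prod_congr (by congr) fun w _ => ?_
    by_cases h3 : chi (bd src tgt {w}) z ≠ ε w
    · rw [if_pos h3, if_pos h3]
      rw [Finset.prod_ite, Finset.prod_const, Finset.prod_const_one, mul_one]
      have h4 : (Q.filter fun e => e ∈ π w) = Q ∩ π w := by ext e; simp
      rw [h4]
      by_cases h5 : Odd (Q ∩ π w).card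
      · rw [if_pos h5, h5.neg_one_pow]
      · rw [if_neg h5, (Nat.not_odd_iff_even.mp h5).neg_one_pow]
    · rw [if_neg h3, if_neg h3]
  have h3 : ∏ w ∈ X, (if chi (bd src tgt {w}) z ≠ ε w then
          (if Odd (Q ∩ π w).card then (-1:ℝ) else 1) else 1)
      = epsX ε (OO π X Q) * chi (bd src tgt (OO π X Q)) z := by
    rw [chi_bd]
    unfold epsX OO
    rw [← Finset.prod_mul_distrib, Finset.prod_filter]
    refine Finset.prod_congr rfl fun w _ => ?_
    have h4 := sign_cases (chi_mul_self (bd src tgt {w}) z) (hε w)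
    by_cases h5 : Odd (Q ∩ π w).card
    · simp only [if_pos h5]
      exact h4
    · simp only [if_neg h5]
      split_ifs <;> rfl
  rw [h1, h2, h3, ← chi_mul]
  ring

/-- transform of the composition with the projection -/
theorem W_PiE {src tgt : E → Wv} {ε : Wv → ℝ} (hε : ∀ w, ε w * ε w = 1)
    (π : Wv → Finset E) (X : Finset Wv) (f : (E → Bool) → ℝ) (R : Finset E) :
    W (fun z => f (PiE src tgt ε π X z)) R
      = ∑ Q : Finset E, (if symmDiff Q (bd src tgt (OO π X Q)) = R then
          epsX ε (OO π X Q) * W f Q else 0) := by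
  have hE : (2:ℝ) ^ Fintype.card E ≠ 0 := by positivity
  refine mul_left_cancel₀ hE ?_
  have h1 : (2:ℝ) ^ Fintype.card E * W (fun z => f (PiE src tgt ε π X z)) R
      = ∑ z : E → Bool, ∑ Q : Finset E, epsX ε (OO π X Q) * W f Q *
          (chi (symmDiff Q (bd src tgt (OO π X Q))) z * chi R z) := by
    unfold W
    rw [Finset.mul_sum]
    refine Finset.sum_congr rfl fun z _ => ?_
    rw [← mul_assoc, ← inversion, Finset.sum_mul]
    refine Finset.sum_congr rfl fun Q _ => ?_
    rw [chi_PiE hε]
    unfold W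
    ring
  rw [h1, Finset.sum_comm, Finset.mul_sum]
  refine Finset.sum_congr rfl fun Q _ => ?_
  rw [← Finset.mul_sum, sum_x_chi_chi]
  split_ifs <;> ring

end Pool.Agent.H3.Frg2
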