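import Mathlib
import Pool.Agent.H3.Frg2.Defs

set_option autoImplicit false
set_option linter.unusedSectionVars false

/-!
# The weighted spectral lemma
-/

namespace Pool.Agent.H3.Frg2

open Finset Pool.Agent.H3.Frg

variable {V : Type} [Fintype V] [DecidableEq V]

/-- weighted sum of squares of the transform -/
def NP (Φ : Finset V → ℝ) (f : (V → Bool) → ℝ) : ℝ := ∑ S, Φ S * W f S ^ 2

theorem NP_nonneg {Φ : Finset V → ℝ} (hΦ : ∀ S, 0 < Φ S) (f : (V → Bool) → ℝ) : 0 ≤ NP Φ f :=
  Finset.sum_nonneg fun S _ => mul_nonneg (hΦ S).le (sq_nonneg _)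

theorem W_lin (s t : ℝ) (f g : (V → Bool) → ℝ) (S : Finset V) :
    W (fun x => s * f x + t * g x) S = s * W f S + t * W g S := by
  unfold W
  rw [Finset.mul_sum, Finset.mul_sum, ← Finset.sum_add_distrib]
  exact Finset.sum_congr rfl fun x _ => by ring

theorem NP_eq_zero {Φ : Finset V → ℝ} (hΦ : ∀ S, 0 < Φ S) {f : (V → Bool) → ℝ}
    (h : NP Φ f = 0) (x : V → Bool) : f x = 0 := by
  have h1 : ∀ S, W f S = 0 := by
    intro S
    have h2 := (Finset.sum_eq_zero_iff_of_nonneg
      (fun S _ => mul_nonneg (hΦ S).le (sq_nonneg (W f S)))).mp h S (mem_univ S)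
    rcases mul_eq_zero.mp h2 with h3 | h3
    · exact absurd h3 (hΦ S).ne'
    · exact pow_eq_zero_iff two_ne_zero |>.mp h3
  have h2 := inversion f x
  simp only [h1, zero_mul, Finset.sum_const_zero] at h2
  exact (mul_eq_zero.mp h2.symm).resolve_left (by positivity)

theorem mult_compl {Φ : Finset V → ℝ} (hΦ : ∀ S, 0 < Φ S) (g : (V → Bool) → ℝ)
    (hg : ∀ x, g x * g x = g x) (C : ℝ) (hC : 1 ≤ C)
    (hb : ∀ f : (V → Bool) → ℝ, NP Φ (fun x => g x * f x) ≤ C * NP Φ f) (f : (V → Bool) → ℝ) :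
    NP Φ (fun x => (1 - g x) * f x) ≤ C * NP Φ f := by
  set u : (V → Bool) → ℝ := fun x => g x * f x with hu
  set v : (V → Bool) → ℝ := fun x => (1 - g x) * f x with hv
  have hNf := NP_nonneg hΦ f
  rcases (NP_nonneg hΦ u).lt_or_eq with hu0 | hu0
  swap
  · have h0 : ∀ x, g x * f x = 0 := fun x => NP_eq_zero hΦ hu0.symm x
    have : v = f := by
      funext x; rw [hv]; simp only
      linear_combination -(h0 x)
    rw [this]
    nlinarith
  rcases (NP_nonneg hΦ v).lt_or_eq with hv0 | hv0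
  swap
  · rw [← hv0]; positivity
  set t : ℝ := Real.sqrt (NP Φ v / NP Φ u) with ht
  have htpos : 0 < t := Real.sqrt_pos.mpr (div_pos hv0 hu0)
  have ht2 : t ^ 2 = NP Φ v / NP Φ u := Real.sq_sqrt (div_pos hv0 hu0).le
  set w : (V → Bool) → ℝ := fun x => t * u x + t⁻¹ * v x with hw
  have hgw : (fun x => g x * w x) = fun x => t * u x + 0 * v x := by
    funext x
    rw [hw, hu, hv]; simp only
    linear_combination (t * f x - t⁻¹ * f x) * hg x
  have hNw : NP Φ w = NP Φ f := by
    have e1 : NP Φ w = t ^ 2 * NP Φ u + (t⁻¹) ^ 2 * NP Φ v + 2 * ∑ S, Φ S * (W u S * W v S) := by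
      unfold NP
      rw [Finset.mul_sum, Finset.mul_sum, Finset.mul_sum, ← Finset.sum_add_distrib,
        ← Finset.sum_add_distrib]
      refine Finset.sum_congr rfl fun S _ => ?_
      rw [hw, W_lin]
      have : t * t⁻¹ = 1 := mul_inv_cancel₀ htpos.ne'
      linear_combination (2 * Φ S * W u S * W v S) * this
    have e2 : NP Φ f = NP Φ u + NP Φ v + 2 * ∑ S, Φ S * (W u S * W v S) := by
      have e3 : f = fun x => 1 * u x + 1 * v x := by
        funext x; rw [hu, hv]; simp only; ring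
      unfold NP
      rw [Finset.mul_sum, ← Finset.sum_add_distrib, ← Finset.sum_add_distrib]
      refine Finset.sum_congr rfl fun S _ => ?_
      conv_lhs => rw [e3, W_lin]
      ring
    rw [e1, e2, inv_pow, ht2]
    field_simp
    ring
  have hNPw : NP Φ (fun x => g x * w x) = NP Φ v := by
    have : NP Φ (fun x => g x * w x) = t ^ 2 * NP Φ u := by
      rw [hgw]
      unfold NP
      rw [Finset.mul_sum]
      refine Finset.sum_congr rfl fun S _ => ?_
      rw [W_lin]; ring
    rw [this, ht2]; field_simp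
  calc NP Φ v = NP Φ (fun x => g x * w x) := hNPw.symm
    _ ≤ C * NP Φ w := hb w
    _ = C * NP Φ f := by rw [hNw]

theorem var_bound {Φ : Finset V → ℝ} (hΦ : ∀ S, 0 < Φ S) {η : ℝ} (hη : 0 ≤ η)
    (hlip : ∀ S i, Φ (symmDiff S {i}) ≤ (1 + η) * Φ S) (i : V) (f : (V → Bool) → ℝ) :
    NP Φ (fun x => ind (Fm.var i) x * f x) ≤ (1 + η ^ 2 / 4) * NP Φ f := by
  have hW : ∀ S, W (fun x => ind (Fm.var i) x * f x) S
      = (1 / 2) * (W f S - W f (symmDiff S {i})) := by
    intro S
    unfold W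
    rw [← Finset.sum_sub_distrib, Finset.mul_sum]
    refine Finset.sum_congr rfl fun x _ => ?_
    have h1 : chi (symmDiff S {i}) x = chi S x * sg (x i) := by
      rw [← chi_mul]; congr 1; simp [chi]
    rw [h1]
    have h2 : ind (Fm.var i) x = (1 / 2) * (1 - sg (x i)) := by
      unfold ind Fm.eval sg
      cases x i <;> norm_num
    simp only [h2]; ring
  have hss : ∀ S : Finset V, symmDiff (symmDiff S {i}) {i} = S := by
    intro S; rw [symmDiff_assoc, symmDiff_self]; simp
  have hpt : ∀ S : Finset V,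
      Φ S * W (fun x => ind (Fm.var i) x * f x) S ^ 2 +
        Φ (symmDiff S {i}) * W (fun x => ind (Fm.var i) x * f x) (symmDiff S {i}) ^ 2
      ≤ (1 + η ^ 2 / 4) * (Φ S * W f S ^ 2 + Φ (symmDiff S {i}) * W f (symmDiff S {i}) ^ 2) := by
    intro S
    rw [hW, hW, hss]
    have hp := hΦ S
    have hq := hΦ (symmDiff S {i})
    have h1 := hlip S i
    have h2 := hlip (symmDiff S {i}) i
    rw [hss] at h2
    set p := Φ S
    set q := Φ (symmDiff S {i})
    set a := W f S
    set b := W f (symmDiff S {i})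
    have h3 : (p - q) ^ 2 ≤ η ^ 2 * (p * q) := by
      rcases le_total p q with hpq | hpq
      · have h4 : q - p ≤ η * p := by linarith
        have h5 : (q - p) * (q - p) ≤ (η * p) * (η * p) :=
          mul_le_mul h4 h4 (by linarith) (by positivity)
        nlinarith [mul_nonneg (mul_nonneg hη hη) hp.le]
      · have h4 : p - q ≤ η * q := by linarith
        have h5 : (p - q) * (p - q) ≤ (η * q) * (η * q) :=
          mul_le_mul h4 h4 (by linarith) (by positivity)
        nlinarith [mul_nonneg (mul_nonneg hη hη) hq.le]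
    have h6 : p * ((1 / 2) * (a - b)) ^ 2 + q * ((1 / 2) * (b - a)) ^ 2
        = (1 / 4) * (p + q) * (a - b) ^ 2 := by ring
    rw [h6]
    have h7 : (p * q) * (a - b) ^ 2 ≤ (p + q) * (p * a ^ 2 + q * b ^ 2) := by
      nlinarith [sq_nonneg (p * a + q * b)]
    have hpq : 0 < p * q := mul_pos hp hq
    refine le_of_mul_le_mul_left ?_ hpq
    have h8 : 0 ≤ p * a ^ 2 + q * b ^ 2 := by positivity
    calc p * q * ((1 / 4) * (p + q) * (a - b) ^ 2)
        = (1 / 4) * (p + q) * ((p * q) * (a - b) ^ 2) := by ring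
      _ ≤ (1 / 4) * (p + q) * ((p + q) * (p * a ^ 2 + q * b ^ 2)) :=
          mul_le_mul_of_nonneg_left h7 (by positivity)
      _ = (1 / 4) * ((p - q) ^ 2 + 4 * (p * q)) * (p * a ^ 2 + q * b ^ 2) := by ring
      _ ≤ (1 / 4) * (η ^ 2 * (p * q) + 4 * (p * q)) * (p * a ^ 2 + q * b ^ 2) := by
          refine mul_le_mul_of_nonneg_right ?_ h8
          linarith
      _ = _ := by ring
  have h1 := Finset.sum_le_sum (fun S (_ : S ∈ (univ : Finset (Finset V))) => hpt S)
  rw [Finset.sum_add_distrib, ← Finset.mul_sum, Finset.sum_add_distrib,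
    sum_flip i (fun S => Φ S * W (fun x => ind (Fm.var i) x * f x) S ^ 2),
    sum_flip i (fun S => Φ S * W f S ^ 2)] at h1
  unfold NP
  linarith

theorem ind_sq (A : Fm V) (x : V → Bool) : ind A x * ind A x = ind A x := by
  unfold ind; split_ifs <;> norm_num

theorem ind_neg (A : Fm V) (x : V → Bool) : ind (Fm.neg A) x = 1 - ind A x := by
  unfold ind
  simp only [Fm.eval]
  by_cases hA : A.eval x = true <;> simp [hA]

theorem ind_imp (A B : Fm V) (x : V → Bool) :
    ind (Fm.imp A B) x = 1 - ind A x * (1 - ind B x) := by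
  unfold ind
  simp only [Fm.eval]
  by_cases hA : A.eval x = true <;> by_cases hB : B.eval x = true <;> simp [hA, hB]

/-- **Weighted spectral lemma.** -/
theorem weighted_moment {Φ : Finset V → ℝ} (hΦ : ∀ S, 0 < Φ S) {η : ℝ} (hη : 0 ≤ η)
    (hlip : ∀ S i, Φ (symmDiff S {i}) ≤ (1 + η) * Φ S) (A : Fm V) :
    ∀ f : (V → Bool) → ℝ,
      NP Φ (fun x => ind A x * f x) ≤ (1 + η ^ 2 / 4) ^ A.leaves * NP Φ f := by
  have h1 : (1:ℝ) ≤ 1 + η ^ 2 / 4 := by nlinarith [sq_nonneg η]
  induction A with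
  | var i =>
    intro f
    simpa [Fm.leaves] using var_bound hΦ hη hlip i f
  | neg A ih =>
    intro f
    simp only [ind_neg]
    exact mult_compl hΦ (ind A) (ind_sq A) _ (one_le_pow₀ h1) ih f
  | imp A B ihA ihB =>
    intro f
    simp only [ind_imp]
    refine mult_compl hΦ (fun x => ind A x * (1 - ind B x)) (fun x => ?_) _ (one_le_pow₀ h1)
      (fun f => ?_) f
    · have hA := ind_sq A x
      have hB := ind_sq B x
      linear_combination (1 - ind B x) ^ 2 * hA + ind A x * hB
    · have h2 : (fun x => ind A x * (1 - ind B x) * f x)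
          = fun x => ind A x * ((1 - ind B x) * f x) := by funext x; ring
      rw [h2]
      refine (ihA _).trans ?_
      have h3 := mult_compl hΦ (ind B) (ind_sq B) _ (one_le_pow₀ h1) ihB f
      calc (1 + η ^ 2 / 4) ^ A.leaves * NP Φ (fun x => (1 - ind B x) * f x)
          ≤ (1 + η ^ 2 / 4) ^ A.leaves * ((1 + η ^ 2 / 4) ^ B.leaves * NP Φ f) :=
            mul_le_mul_of_nonneg_left h3 (by positivity)
        _ = _ := by rw [Fm.leaves, pow_add]; ring

end Pool.Agent.H3.Frg2
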