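import Mathlib
import Pool.Agent.H3.Frg2.Defs
import Pool.Agent.H3.Frg2.PALem

set_option autoImplicit false
set_option linter.unusedSectionVars false

/-!
# Module I (DECOMP): coherent evaluation of a large formula from its small instances

`A.subs`: list of subformulas (length `A.len`); `A.insts v`: formulas obtained by replacing one
subformula occurrence by `top v` or `bot v` (length `2 * A.len`); `allInst v A`: all subformulas and
all their instances, so `length ≤ 3 * A.len ^ 2`.

**Main statement** `exists_ce`: if all members of `allInst v A` of length `≤ 4 h` are `Good`, then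
`A` has a coherent evaluation with all degrees `≤ k`, provided `t (h + 2 len A) ≤ h k`.

Claim proved by strong induction on `len A` (for `A` with `allInst v A` good; subformulas inherit
this since `B ∈ A.subs → allInst v B ⊆ allInst v A`):
`∃ p D, CE P F k A p ∧ P.Dg (rl p) D ∧ (len A ≤ 4h ∧ D ≤ t ∨ h * D + t * h ≤ 2 * t * len A)`.

* Small case `len A ≤ 4 h`: all subformulas are `Good`. Lemma `ce_small`: if all `B ∈ A.subs` are
  `Good` and `g` is Boolean with `Dg (rl g) k` and `g ≈ hv A` then `CE A g` (structural induction;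
  imp: `hv(B→C) = 1 - hvB(1-hvC) ≈ 1 - g_B(1-g_C)`, degrees `≤ K + t + …`).
* Large case `len A > 4 h`. Contexts: lists of frames `negF | impL C | impR C`,
  `plug [] B = B`, `plug (negF :: κ) B = neg (plug κ B)`, `plug (impL C :: κ) B = imp (plug κ B) C`,
  `plug (impR C :: κ) B = imp C (plug κ B)`.
  *Descent*: there are `κ, B` with `A = plug κ B`, `len A ≤ len B + h`, and every child `C` of `B`
  satisfies `len C + h < len A` (start with `κ = []`, `B = A`; while some child `C` has
  `len A ≤ len C + h`, replace `B` by `C`). `B` is not a variable since `len B ≥ 3h + 1 > 1`.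
  Let `B = neg C₁` or `B = imp C₁ C₂`. By induction `C_i` has a value `c_i` of degree `D_i`. Put
  `b = !c₁` or `b = !c₁ || c₂`: a coherent value of `B` of degree `D_B ≤ D₁ + D₂`.
  For a suffix `κ'` of `κ` the formulas `plug κ' (top v)`, `plug κ' (bot v)` are members of
  `insts v (plug κ' B)`, of length `≤ (len A - len B) + 4 ≤ h + 4 ≤ 4 h`
  (uses `4 ≤ h`), so they are `Good`: let `q₁, q₀` (indexed by `κ'`) be their Boolean functions of
  degree `≤ t`. The side formulas `C` of the frames of `κ` have length `≤ h` and they are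
  subformulas of `A`, so they have small coherent values `g_C` (degree `≤ t`, `g_C ≈ hv C`).
  *Claim*: `p_{κ'} := fun z => if b z then q₁ z else q₀ z` is a coherent value of `plug κ' B`
  (`rl p = b q₁ + (1-b) q₀`, degree `≤ D_B + t`). Induction on `κ'`:
  - `κ' = []`: `q₁ ≈ hv ⊤ = 1`, `q₀ ≈ hv ⊥ = 0`, so `p ≈ b` (`b (q₁ - 1) + (1-b) q₀ ≈ 0`).
  - `negF :: κ'`: the new `q₁' ≈ hv(¬ κ'[⊤]) = 1 - hv(κ'[⊤]) ≈ 1 - q₁`, the same for `0`, so
    `p' - (1 - p) = b (q₁' - (1 - q₁)) + (1 - b)(q₀' - (1 - q₀)) ≈ 0`.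
  - `impL C`: `q₁' ≈ 1 - hv(κ'[⊤]) (1 - hv C) ≈ 1 - q₁ (1 - g_C)`, same for `0`, and
    `p' - (1 - p(1-g_C)) = b (q₁' - (1 - q₁(1-g_C))) + (1-b)(q₀' - (1 - q₀(1-g_C)))`.
  - `impR C`: `q₁' ≈ 1 - hv C (1 - hv κ'[⊤])`, similarly.
  All degrees that occur are `≤ 4 (k + K)`, `t ≤ k`.
  *Degree*: `D = D_B + t ≤ D₁ + D₂ + t`, `len C₁ + len C₂ < len A`, `len C_i + h < len A`.
  If both children are large: `h D + t h ≤ 2 t len C₁ + 2 t len C₂ ≤ 2 t len A`. If one is small
  (`D₂ ≤ t`): `h D + t h ≤ 2 t len C₁ + 2 t h ≤ 2 t len A`. If both are small: `h D + t h ≤ 4 t h ≤ 2 t len A`.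
  In all cases `h D ≤ 2 t len A ≤ h k`, so `D ≤ k` as `0 < h`.
-/

namespace Pool.Agent.H3.Frg2

open Finset Pool.Agent.H3.Frg

variable {V X : Type}

theorem Fm_len_pos (A : Fm V) : 1 ≤ A.len := by
  cases A <;> simp [Fm.len]

theorem length_insts (v : V) (A : Fm V) : (A.insts v).length = 2 * A.len := by
  induction A with
  | var i => rfl
  | neg A ih => simp only [Fm.insts, Fm.len, List.length_cons, List.length_map, ih]; ring
  | imp A B ihA ihB =>
    simp only [Fm.insts, Fm.len, List.length_cons, List.length_map, List.length_append, ihA, ihB]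
    ring

theorem allInst_neg (v : V) (A : Fm V) :
    allInst v (Fm.neg A) = (Fm.neg A :: (Fm.neg A).insts v) ++ allInst v A := by
  simp [allInst, Fm.subs]

theorem allInst_imp (v : V) (A B : Fm V) :
    allInst v (Fm.imp A B) =
      (Fm.imp A B :: (Fm.imp A B).insts v) ++ (allInst v A ++ allInst v B) := by
  simp [allInst, Fm.subs]

theorem length_allInst (v : V) (A : Fm V) : (allInst v A).length ≤ 3 * A.len ^ 2 := by
  induction A with
  | var i => simp [allInst, Fm.subs, Fm.insts, Fm.len]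
  | neg A ih =>
    rw [allInst_neg, List.length_append, List.length_cons, length_insts]
    simp only [Fm.len]
    nlinarith
  | imp A B ihA ihB =>
    rw [allInst_imp, List.length_append, List.length_append, List.length_cons, length_insts]
    simp only [Fm.len]
    nlinarith [Nat.zero_le (A.len * B.len)]

/-- one-hole contexts -/
inductive Ctx (V : Type) : Type where
  | hole : Ctx V
  | neg : Ctx V → Ctx V
  | impL : Ctx V → Fm V → Ctx V
  | impR : Fm V → Ctx V → Ctx V

/-- filling the hole -/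
def Ctx.plug : Ctx V → Fm V → Fm V
  | Ctx.hole, B => B
  | Ctx.neg κ, B => Fm.neg (κ.plug B)
  | Ctx.impL κ C, B => Fm.imp (κ.plug B) C
  | Ctx.impR C κ, B => Fm.imp C (κ.plug B)

/-- length of a context -/
def Ctx.len : Ctx V → ℕ
  | Ctx.hole => 0
  | Ctx.neg κ => κ.len + 1
  | Ctx.impL κ C => κ.len + C.len + 1
  | Ctx.impR C κ => C.len + κ.len + 1

theorem Ctx.len_plug (κ : Ctx V) (B : Fm V) : (κ.plug B).len = κ.len + B.len := by
  induction κ with
  | hole => simp [Ctx.plug, Ctx.len]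
  | neg κ ih => simp only [Ctx.plug, Ctx.len, Fm.len, ih]; ring
  | impL κ C ih => simp only [Ctx.plug, Ctx.len, Fm.len, ih]; ring
  | impR C κ ih => simp only [Ctx.plug, Ctx.len, Fm.len, ih]; ring

theorem top_mem_insts (v : V) (B : Fm V) : top v ∈ B.insts v := by
  cases B <;> simp [Fm.insts]

theorem bot_mem_insts (v : V) (B : Fm V) : bot v ∈ B.insts v := by
  cases B <;> simp [Fm.insts]

theorem Ctx.plug_mem_insts {v : V} (κ : Ctx V) (B T : Fm V) (hT : T = top v ∨ T = bot v) :
    κ.plug T ∈ (κ.plug B).insts v := by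
  induction κ with
  | hole =>
    rcases hT with rfl | rfl
    · exact top_mem_insts v B
    · exact bot_mem_insts v B
  | neg κ ih =>
    simp only [Ctx.plug, Fm.insts, List.mem_cons, List.mem_map]
    exact Or.inr (Or.inr ⟨_, ih, rfl⟩)
  | impL κ C ih =>
    simp only [Ctx.plug, Fm.insts, List.mem_cons, List.mem_append, List.mem_map]
    exact Or.inr (Or.inr (Or.inl ⟨_, ih, rfl⟩))
  | impR C κ ih =>
    simp only [Ctx.plug, Fm.insts, List.mem_cons, List.mem_append, List.mem_map]
    exact Or.inr (Or.inr (Or.inr ⟨_, ih, rfl⟩))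

theorem self_mem_allInst (v : V) (A : Fm V) : A ∈ allInst v A := by
  cases A <;> simp [allInst, Fm.subs]

theorem insts_subset_allInst (v : V) (A : Fm V) {B : Fm V} (hB : B ∈ A.insts v) :
    B ∈ allInst v A := by
  cases A with
  | var i => simp [allInst, Fm.subs, hB]
  | neg A => rw [allInst_neg]; exact List.mem_append_left _ (List.mem_cons_of_mem _ hB)
  | imp A B => rw [allInst_imp]; exact List.mem_append_left _ (List.mem_cons_of_mem _ hB)

theorem allInst_neg_sub (v : V) (A : Fm V) {B : Fm V} (hB : B ∈ allInst v A) :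
    B ∈ allInst v (Fm.neg A) := by
  rw [allInst_neg]; exact List.mem_append_right _ hB

theorem allInst_impL_sub (v : V) (A C : Fm V) {B : Fm V} (hB : B ∈ allInst v A) :
    B ∈ allInst v (Fm.imp A C) := by
  rw [allInst_imp]; exact List.mem_append_right _ (List.mem_append_left _ hB)

theorem allInst_impR_sub (v : V) (A C : Fm V) {B : Fm V} (hB : B ∈ allInst v A) :
    B ∈ allInst v (Fm.imp C A) := by
  rw [allInst_imp]; exact List.mem_append_right _ (List.mem_append_right _ hB)

theorem Ctx.allInst_plug (v : V) (κ : Ctx V) (B : Fm V) {C : Fm V} (hC : C ∈ allInst v B) :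
    C ∈ allInst v (κ.plug B) := by
  induction κ with
  | hole => exact hC
  | neg κ ih => exact allInst_neg_sub v _ ih
  | impL κ D ih => exact allInst_impL_sub v _ _ ih
  | impR D κ ih => exact allInst_impR_sub v _ _ ih

/-- descent along the heavy path -/
theorem exists_heavy (N h : ℕ) (A : Fm V) : N ≤ A.len + h →
    ∃ (κ : Ctx V) (B : Fm V), A = κ.plug B ∧ N ≤ B.len + h ∧
      ((∃ i, B = Fm.var i) ∨ (∃ C, B = Fm.neg C ∧ C.len + h < N) ∨
        (∃ C C', B = Fm.imp C C' ∧ C.len + h < N ∧ C'.len + h < N)) := by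
  induction A with
  | var i => intro hA; exact ⟨Ctx.hole, _, rfl, hA, Or.inl ⟨i, rfl⟩⟩
  | neg A ih =>
    intro hA
    by_cases h1 : N ≤ A.len + h
    · obtain ⟨κ, B, h2, h3, h4⟩ := ih h1
      exact ⟨Ctx.neg κ, B, by rw [h2]; rfl, h3, h4⟩
    · exact ⟨Ctx.hole, _, rfl, hA, Or.inr (Or.inl ⟨A, rfl, by omega⟩)⟩
  | imp A A' ih ih' =>
    intro hA
    by_cases h1 : N ≤ A.len + h
    · obtain ⟨κ, B, h2, h3, h4⟩ := ih h1
      exact ⟨Ctx.impL κ A', B, by rw [h2]; rfl, h3, h4⟩
    · by_cases h1' : N ≤ A'.len + h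
      · obtain ⟨κ, B, h2, h3, h4⟩ := ih' h1'
        exact ⟨Ctx.impR A κ, B, by rw [h2]; rfl, h3, h4⟩
      · exact ⟨Ctx.hole, _, rfl, hA, Or.inr (Or.inr ⟨A, A', rfl, by omega, by omega⟩)⟩

section Eval

variable {P : PA X} {F : V → X → Bool} {k K t : ℕ}

theorem ce_congr {A : Fm V} {p q : X → Bool} (h : CE P F k A p) (hq : P.Dg (rl q) k)
    (hpq : P.Peq (rl q) (rl p)) : CE P F k A q := by
  cases A with
  | var i => exact ⟨hq, P.peq_trans hpq h.2⟩
  | neg A =>
    obtain ⟨_, a, ha, h1⟩ := ce_neg_iff.1 h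
    exact ⟨hq, a, ha, P.peq_trans hpq h1⟩
  | imp A B =>
    obtain ⟨_, a, b, ha, hb, h1⟩ := ce_imp_iff.1 h
    exact ⟨hq, a, b, ha, hb, P.peq_trans hpq h1⟩

/-- small formulas have coherent values -/
theorem ce_small (hM : 2 * (k + K) ≤ P.M) (htk : t ≤ k) (v : V) {A : Fm V} :
    (∀ B ∈ allInst v A, B.len ≤ A.len → Good P F K t B) → ∀ {g : X → Bool},
      P.Dg (rl g) k → P.Peq (rl g) (rl (hv F A)) → CE P F k A g := by
  induction A with
  | var i => intro _ g h1 h2; exact ⟨h1, h2⟩
  | neg A ih =>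
    intro hs g h1 h2
    have hsA : ∀ B ∈ allInst v A, B.len ≤ A.len → Good P F K t B := fun B hB hl =>
      hs B (allInst_neg_sub v A hB) (by simp only [Fm.len]; omega)
    obtain ⟨_, gA, h3, h4⟩ := hsA A (self_mem_allInst v A) le_rfl
    refine ⟨h1, gA, ih hsA (P.dg_mono h3 htk) h4, ?_⟩
    refine P.peq_trans h2 (P.peq_trans (P.peq_of_eq fun z => ?_)
      (P.peq_one_sub (P.peq_symm h4)))
    rw [hv_neg, rl_not]
  | imp A B ihA ihB =>
    intro hs g h1 h2
    have hsA : ∀ C ∈ allInst v A, C.len ≤ A.len → Good P F K t C := fun C hC hl =>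
      hs C (allInst_impL_sub v A B hC) (by simp only [Fm.len]; omega)
    have hsB : ∀ C ∈ allInst v B, C.len ≤ B.len → Good P F K t C := fun C hC hl =>
      hs C (allInst_impR_sub v B A hC) (by simp only [Fm.len]; omega)
    obtain ⟨h3', gA, h3, h4⟩ := hsA A (self_mem_allInst v A) le_rfl
    obtain ⟨h5', gB, h5, h6⟩ := hsB B (self_mem_allInst v B) le_rfl
    refine ⟨h1, gA, gB, ihA hsA (P.dg_mono h3 htk) h4, ihB hsB (P.dg_mono h5 htk) h6, ?_⟩
    refine P.peq_trans h2 (P.peq_trans (P.peq_of_eq fun z => ?_)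
      (P.peq_imp (a := k + K) (b := k + K) (P.dg_mono h3' (by omega)) (P.dg_mono h3 (by omega))
        (P.dg_mono h5' (by omega)) (P.dg_mono h5 (by omega)) (by omega)
        (P.peq_symm h4) (P.peq_symm h6)))
    rw [hv_imp, rl_imp]

theorem dg_ite {b q q' : X → Bool} {D : ℕ} (hb : P.Dg (rl b) D) (hq : P.Dg (rl q) t)
    (hq' : P.Dg (rl q') t) : P.Dg (rl fun z => if b z then q z else q' z) (D + t) :=
  P.dg_congr (P.dg_add (P.dg_mul hb hq) (P.dg_mul (P.dg_one_sub hb) hq'))
    (fun z => (rl_ite b q q' z).symm)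

/-- `(if b then q else q') ≈ r` if `b q ≈ b r`, `(1-b) q' ≈ (1-b) r` -/
theorem peq_ite {b q q' : X → Bool} {D e : ℕ} {r r₁ r₀ : X → ℝ} (hb : P.Dg (rl b) D)
    (h1 : P.Peq (rl q) r₁) (h0 : P.Peq (rl q') r₀) (hq : P.Dg (rl q) e) (hq' : P.Dg (rl q') e)
    (hr1 : P.Dg r₁ e) (hr0 : P.Dg r₀ e) (hM : e + D ≤ P.M)
    (hr : ∀ z, r z = rl b z * r₁ z + (1 - rl b z) * r₀ z) :
    P.Peq (rl fun z => if b z then q z else q' z) r := by
  have h2 := P.z_mul h1 (P.dg_sub hq hr1) hb hM
  have h3 := P.z_mul h0 (P.dg_sub hq' hr0) (P.dg_one_sub hb) hM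
  refine P.z_congr (P.z_add h2 h3) ?_
  intro z
  rw [rl_ite, hr]
  ring

theorem hv_top (v : V) (z : X) : rl (hv F (top v)) z = 1 := by
  have : hv F (top v) z = true := by simp [hv, top, Fm.eval]
  simp [rl, this]

theorem hv_bot (v : V) (z : X) : rl (hv F (bot v)) z = 0 := by
  have : hv F (bot v) z = false := by simp [hv, bot, Fm.eval]
  simp [rl, this]

/-- the coherent value of `κ[B]` -/
theorem ce_plug (hM : 20 * (k + K) ≤ P.M) (htk : t ≤ k) (v : V) {h D : ℕ} (hh : 4 ≤ h)
    (hD : D + t ≤ k) {B : Fm V} {b : X → Bool} (hB : CE P F k B b) (hb : P.Dg (rl b) D)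
    (κ : Ctx V) : κ.len ≤ h →
    (∀ C ∈ allInst v (κ.plug B), C.len ≤ 4 * h → Good P F K t C) →
    ∀ {q₁ q₀ : X → Bool}, P.Dg (rl q₁) t → P.Dg (rl q₀) t →
      P.Peq (rl q₁) (rl (hv F (κ.plug (top v)))) → P.Peq (rl q₀) (rl (hv F (κ.plug (bot v)))) →
      CE P F k (κ.plug B) (fun z => if b z then q₁ z else q₀ z) := by
  induction κ with
  | hole =>
    intro _ _ q₁ q₀ hd1 hd0 h1 h0
    refine ce_congr hB (P.dg_mono (dg_ite hb hd1 hd0) hD) ?_
    refine peq_ite (e := t) (r₁ := fun _ => 1) (r₀ := fun _ => 0) hb ?_ ?_ hd1 hd0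
      (P.dg_const' _ _) (P.dg_const' _ _) (by omega) (fun z => by ring)
    · exact P.peq_trans h1 (P.peq_of_eq fun z => hv_top v z)
    · exact P.peq_trans h0 (P.peq_of_eq fun z => hv_bot v z)
  | neg κ ih =>
    intro hlen hgood q₁ q₀ hd1 hd0 h1 h0
    simp only [Ctx.len] at hlen
    have hgood' : ∀ C ∈ allInst v (κ.plug B), C.len ≤ 4 * h → Good P F K t C := fun C hC =>
      hgood C (allInst_neg_sub v _ hC)
    have hgT : ∀ T, T = top v ∨ T = bot v → Good P F K t (κ.plug T) := by
      intro T hT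
      refine hgood' _ (insts_subset_allInst v _ (κ.plug_mem_insts B T hT)) ?_
      rw [Ctx.len_plug]
      rcases hT with rfl | rfl <;> simp [top, bot, Fm.len] <;> omega
    obtain ⟨hK1, q₁', hd1', h1'⟩ := hgT _ (Or.inl rfl)
    obtain ⟨hK0, q₀', hd0', h0'⟩ := hgT _ (Or.inr rfl)
    have hce := ih (by omega) hgood' hd1' hd0' h1' h0'
    refine ⟨P.dg_mono (dg_ite hb hd1 hd0) hD, _, hce, ?_⟩
    refine peq_ite (e := t) (r₁ := fun z => 1 - rl q₁' z) (r₀ := fun z => 1 - rl q₀' z) hb
      ?_ ?_ hd1 hd0 (P.dg_one_sub hd1') (P.dg_one_sub hd0') (by omega) ?_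
    · refine P.peq_trans h1 (P.peq_trans (P.peq_of_eq fun z => ?_)
        (P.peq_one_sub (P.peq_symm h1')))
      rw [Ctx.plug, hv_neg, rl_not]
    · refine P.peq_trans h0 (P.peq_trans (P.peq_of_eq fun z => ?_)
        (P.peq_one_sub (P.peq_symm h0')))
      rw [Ctx.plug, hv_neg, rl_not]
    · intro z
      rw [rl_ite]
      ring
  | impL κ C ih =>
    intro hlen hgood q₁ q₀ hd1 hd0 h1 h0
    simp only [Ctx.len] at hlen
    have hgood' : ∀ C ∈ allInst v (κ.plug B), C.len ≤ 4 * h → Good P F K t C := fun C hC =>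
      hgood C (allInst_impL_sub v _ _ hC)
    have hgT : ∀ T, T = top v ∨ T = bot v → Good P F K t (κ.plug T) := by
      intro T hT
      refine hgood' _ (insts_subset_allInst v _ (κ.plug_mem_insts B T hT)) ?_
      rw [Ctx.len_plug]
      rcases hT with rfl | rfl <;> simp [top, bot, Fm.len] <;> omega
    have hgC : ∀ C' ∈ allInst v C, C'.len ≤ C.len → Good P F K t C' := fun C' hC' hl =>
      hgood C' (allInst_impR_sub v _ _ hC') (by omega)
    obtain ⟨hKC, g, hdg, hg⟩ := hgC C (self_mem_allInst v C) le_rfl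
    have hceC : CE P F k C g := ce_small (by omega) htk v hgC (P.dg_mono hdg htk) hg
    obtain ⟨hK1, q₁', hd1', h1'⟩ := hgT _ (Or.inl rfl)
    obtain ⟨hK0, q₀', hd0', h0'⟩ := hgT _ (Or.inr rfl)
    have hce := ih (by omega) hgood' hd1' hd0' h1' h0'
    refine ⟨P.dg_mono (dg_ite hb hd1 hd0) hD, _, g, hce, hceC, ?_⟩
    refine peq_ite (e := t + t) (r₁ := fun z => 1 - rl q₁' z * (1 - rl g z))
      (r₀ := fun z => 1 - rl q₀' z * (1 - rl g z)) hb
      ?_ ?_ (P.dg_mono hd1 (by omega)) (P.dg_mono hd0 (by omega))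
      (P.dg_one_sub (P.dg_mul hd1' (P.dg_one_sub hdg)))
      (P.dg_one_sub (P.dg_mul hd0' (P.dg_one_sub hdg))) (by omega) ?_
    · refine P.peq_trans h1 (P.peq_trans (P.peq_of_eq fun z => ?_)
        (P.peq_imp (a := k + K) (b := k + K) (P.dg_mono hK1 (by omega))
          (P.dg_mono hd1' (by omega)) (P.dg_mono hKC (by omega)) (P.dg_mono hdg (by omega))
          (by omega) (P.peq_symm h1') (P.peq_symm hg)))
      rw [Ctx.plug, hv_imp, rl_imp]
    · refine P.peq_trans h0 (P.peq_trans (P.peq_of_eq fun z => ?_)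
        (P.peq_imp (a := k + K) (b := k + K) (P.dg_mono hK0 (by omega))
          (P.dg_mono hd0' (by omega)) (P.dg_mono hKC (by omega)) (P.dg_mono hdg (by omega))
          (by omega) (P.peq_symm h0') (P.peq_symm hg)))
      rw [Ctx.plug, hv_imp, rl_imp]
    · intro z
      rw [rl_ite]
      ring
  | impR C κ ih =>
    intro hlen hgood q₁ q₀ hd1 hd0 h1 h0
    simp only [Ctx.len] at hlen
    have hgood' : ∀ C ∈ allInst v (κ.plug B), C.len ≤ 4 * h → Good P F K t C := fun C hC =>
      hgood C (allInst_impR_sub v _ _ hC)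
    have hgT : ∀ T, T = top v ∨ T = bot v → Good P F K t (κ.plug T) := by
      intro T hT
      refine hgood' _ (insts_subset_allInst v _ (κ.plug_mem_insts B T hT)) ?_
      rw [Ctx.len_plug]
      rcases hT with rfl | rfl <;> simp [top, bot, Fm.len] <;> omega
    have hgC : ∀ C' ∈ allInst v C, C'.len ≤ C.len → Good P F K t C' := fun C' hC' hl =>
      hgood C' (allInst_impL_sub v _ _ hC') (by omega)
    obtain ⟨hKC, g, hdg, hg⟩ := hgC C (self_mem_allInst v C) le_rfl
    have hceC : CE P F k C g := ce_small (by omega) htk v hgC (P.dg_mono hdg htk) hg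
    obtain ⟨hK1, q₁', hd1', h1'⟩ := hgT _ (Or.inl rfl)
    obtain ⟨hK0, q₀', hd0', h0'⟩ := hgT _ (Or.inr rfl)
    have hce := ih (by omega) hgood' hd1' hd0' h1' h0'
    refine ⟨P.dg_mono (dg_ite hb hd1 hd0) hD, g, _, hceC, hce, ?_⟩
    refine peq_ite (e := t + t) (r₁ := fun z => 1 - rl g z * (1 - rl q₁' z))
      (r₀ := fun z => 1 - rl g z * (1 - rl q₀' z)) hb
      ?_ ?_ (P.dg_mono hd1 (by omega)) (P.dg_mono hd0 (by omega))
      (P.dg_one_sub (P.dg_mul hdg (P.dg_one_sub hd1')))
      (P.dg_one_sub (P.dg_mul hdg (P.dg_one_sub hd0'))) (by omega) ?_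
    · refine P.peq_trans h1 (P.peq_trans (P.peq_of_eq fun z => ?_)
        (P.peq_imp (a := k + K) (b := k + K) (P.dg_mono hKC (by omega))
          (P.dg_mono hdg (by omega)) (P.dg_mono hK1 (by omega)) (P.dg_mono hd1' (by omega))
          (by omega) (P.peq_symm hg) (P.peq_symm h1')))
      rw [Ctx.plug, hv_imp, rl_imp]
    · refine P.peq_trans h0 (P.peq_trans (P.peq_of_eq fun z => ?_)
        (P.peq_imp (a := k + K) (b := k + K) (P.dg_mono hKC (by omega))
          (P.dg_mono hdg (by omega)) (P.dg_mono hK0 (by omega)) (P.dg_mono hd0' (by omega))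
          (by omega) (P.peq_symm hg) (P.peq_symm h0')))
      rw [Ctx.plug, hv_imp, rl_imp]
    · intro z
      rw [rl_ite]
      ring

end Eval

theorem exists_ce_aux (P : PA X) (F : V → X → Bool) (k K t h : ℕ) (hh : 4 ≤ h) (htk : t ≤ k)
    (hM : 20 * (k + K) ≤ P.M) (v : V) (N : ℕ) : ∀ A : Fm V, A.len = N →
    t * (h + 2 * A.len) ≤ h * k →
    (∀ B ∈ allInst v A, B.len ≤ 4 * h → Good P F K t B) →
    ∃ (p : X → Bool) (D : ℕ), CE P F k A p ∧ P.Dg (rl p) D ∧
      ((A.len ≤ 4 * h ∧ D ≤ t) ∨ h * D + t * h ≤ 2 * (t * A.len)) := by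
  induction N using Nat.strong_induction_on with
  | _ N IH =>
    intro A hAN hsize hgood
    by_cases hsm : A.len ≤ 4 * h
    · obtain ⟨_, g, h1, h2⟩ := hgood A (self_mem_allInst v A) hsm
      exact ⟨g, t, ce_small (by omega) htk v (fun B hB hl => hgood B hB (by omega))
        (P.dg_mono h1 htk) h2, h1, Or.inl ⟨hsm, le_rfl⟩⟩
    · push Not at hsm
      obtain ⟨κ, B, hκ, hBl, hchild⟩ := exists_heavy A.len h A (by omega)
      have hlen : A.len = κ.len + B.len := by
        conv_lhs => rw [hκ]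
        exact κ.len_plug B
      have hκh : κ.len ≤ h := by omega
      have hgoodB : ∀ C ∈ allInst v B, C.len ≤ 4 * h → Good P F K t C := fun C hC =>
        hgood C (by rw [hκ]; exact κ.allInst_plug v B hC)
      have hsz : ∀ C : Fm V, C.len ≤ A.len → t * (h + 2 * C.len) ≤ h * k := fun C hC =>
        (Nat.mul_le_mul_left t (by omega)).trans hsize
      -- a value of `B`
      have hBval : ∃ (b : X → Bool) (D : ℕ), CE P F k B b ∧ P.Dg (rl b) D ∧
          h * (D + t) + t * h ≤ 2 * (t * A.len) ∧ D + t ≤ k := by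
        have hfin : ∀ D, h * (D + t) + t * h ≤ 2 * (t * A.len) → D + t ≤ k := by
          intro D hD
          have h1 : h * (D + t) ≤ h * k := by
            refine le_trans ?_ hsize
            have : t * (h + 2 * A.len) = t * h + 2 * (t * A.len) := by ring
            rw [this]
            omega
          exact Nat.le_of_mul_le_mul_left h1 (by omega)
        have h4 : t * (4 * h) ≤ t * A.len := Nat.mul_le_mul_left t hsm.le
        rcases hchild with ⟨i, rfl⟩ | ⟨C, rfl, hC⟩ | ⟨C, C', rfl, hC, hC'⟩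
        · simp only [Fm.len] at hlen
          omega
        · simp only [Fm.len] at hlen
          obtain ⟨c, D, hce, hcd, hD⟩ := IH C.len (by omega) C rfl (hsz C (by omega))
            (fun E hE => hgoodB E (allInst_neg_sub v _ hE))
          have hb1 : ∀ z, 1 - rl c z = rl (fun z => !(c z)) z := fun z => (rl_not c z).symm
          have hineq : h * (D + t) + t * h ≤ 2 * (t * A.len) := by
            have h5 : t * (C.len + h) ≤ t * A.len := Nat.mul_le_mul_left t hC.le
            rcases hD with ⟨_, hD⟩ | hD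
            · have h6 : h * D ≤ h * t := Nat.mul_le_mul_left h hD
              nlinarith
            · nlinarith
          have hk := hfin D hineq
          refine ⟨fun z => !(c z), D, ⟨P.dg_mono (P.dg_congr (P.dg_one_sub hcd) hb1) (by omega),
            c, hce, P.peq_of_eq fun z => (hb1 z).symm⟩, P.dg_congr (P.dg_one_sub hcd) hb1,
            hineq, hk⟩
        · simp only [Fm.len] at hlen
          obtain ⟨c, D, hce, hcd, hD⟩ := IH C.len (by omega) C rfl (hsz C (by omega))
            (fun E hE => hgoodB E (allInst_impL_sub v _ _ hE))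
          obtain ⟨c', D', hce', hcd', hD'⟩ := IH C'.len (by omega) C' rfl (hsz C' (by omega))
            (fun E hE => hgoodB E (allInst_impR_sub v _ _ hE))
          have hb1 : ∀ z, 1 - rl c z * (1 - rl c' z) = rl (fun z => !(c z) || c' z) z :=
            fun z => (rl_imp c c' z).symm
          have hineq : h * (D + D' + t) + t * h ≤ 2 * (t * A.len) := by
            have h5 : t * (C.len + h) ≤ t * A.len := Nat.mul_le_mul_left t hC.le
            have h5' : t * (C'.len + h) ≤ t * A.len := Nat.mul_le_mul_left t hC'.le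
            have h7 : t * (C.len + C'.len) ≤ t * A.len := Nat.mul_le_mul_left t (by omega)
            rcases hD with ⟨_, hD⟩ | hD
            · have h6 : h * D ≤ h * t := Nat.mul_le_mul_left h hD
              rcases hD' with ⟨_, hD'⟩ | hD'
              · have h6' : h * D' ≤ h * t := Nat.mul_le_mul_left h hD'
                nlinarith
              · nlinarith
            · rcases hD' with ⟨_, hD'⟩ | hD'
              · have h6' : h * D' ≤ h * t := Nat.mul_le_mul_left h hD'
                nlinarith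
              · nlinarith
          have hk := hfin (D + D') hineq
          refine ⟨fun z => !(c z) || c' z, D + D',
            ⟨P.dg_mono (P.dg_congr (P.dg_one_sub (P.dg_mul hcd (P.dg_one_sub hcd'))) hb1)
              (by omega), c, c', hce, hce', P.peq_of_eq fun z => (hb1 z).symm⟩,
            P.dg_congr (P.dg_one_sub (P.dg_mul hcd (P.dg_one_sub hcd'))) hb1, hineq, hk⟩
      obtain ⟨b, D, hceB, hbd, hineq, hk⟩ := hBval
      have hgT : ∀ T, T = top v ∨ T = bot v → Good P F K t (κ.plug T) := by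
        intro T hT
        refine hgood _ ?_ ?_
        · rw [hκ]
          exact insts_subset_allInst v _ (κ.plug_mem_insts B T hT)
        · rw [Ctx.len_plug]
          rcases hT with rfl | rfl <;> simp [top, bot, Fm.len] <;> omega
      obtain ⟨_, q₁, hd1, h1⟩ := hgT _ (Or.inl rfl)
      obtain ⟨_, q₀, hd0, h0⟩ := hgT _ (Or.inr rfl)
      have hce := ce_plug hM htk v hh hk hceB hbd κ hκh
        (fun C hC => hgood C (by rw [hκ]; exact hC)) hd1 hd0 h1 h0
      rw [← hκ] at hce
      exact ⟨_, D + t, hce, dg_ite hbd hd1 hd0, Or.inr hineq⟩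

theorem exists_ce (P : PA X) (F : V → X → Bool) (k K t h : ℕ) (hh : 4 ≤ h) (htk : t ≤ k)
    (hM : 20 * (k + K) ≤ P.M) (v : V) (A : Fm V) (hsize : t * (h + 2 * A.len) ≤ h * k)
    (hgood : ∀ B ∈ allInst v A, B.len ≤ 4 * h → Good P F K t B) :
    ∃ p, CE P F k A p := by
  obtain ⟨p, _, h1, _⟩ := exists_ce_aux P F k K t h hh htk hM v A.len A rfl hsize hgood
  exact ⟨p, h1⟩

end Pool.Agent.H3.Frg2
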