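import Mathlib
import Pool.Agent.H3.Frg2.Defs
import Pool.Agent.H3.Frg2.PALem

set_option autoImplicit false
set_option linter.unusedSectionVars false

/-!
# Module H (EVAL): Frege soundness of coherent evaluations

Abstract setting `PA`: `Z p` means the low degree function `p` is pseudo-equal to zero, write
`p ≈ q` for `Z (fun z => p z - q z)`. `CE P F k A p` (Defs): coherent evaluation of the formula `A`.
All products below have one factor `≈ 0`; use `P.z_mul` with the degrees indicated.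

* `ce_uniq`: `CE A p → CE A p' → p ≈ p'`. Induction on `A`. imp: `a ≈ a'`, `b ≈ b'`, and
  `a(1-b) - a'(1-b') = a (b' - b) + (a - a')(1 - b')`, degrees `k + k ≤ M`.
* `ce_hv`: if every subformula `B` of `A` has `Dg (rl (hv F B)) K`, and `CE A p`, then `p ≈ hv A`.
  Induction; imp: `hv (B → C) = 1 - hv B (1 - hv C)`, and
  `b(1-c) - hvB(1-hvC) = b (hvC - c) + (b - hvB)(1 - hvC)`, degrees `≤ (k + K) + (k + K) ≤ M`.
* `ce_scheme`: if `CE (ψ.bind σ) p`, then `p ≈ q` where `q z = ψ.eval (fun i => v i z)` and `v i` is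
  a chosen value of `σ i` (`v i = if h : ∃ p, CE (σ i) p then h.choose else default`).
  Induction on `ψ`: `var`: uniqueness. imp: as in `ce_hv`; the degree of `rl q` for a scheme with
  `ℓ` leaves is at most `ℓ k` (induction; every variable of `ψ` has a `CE` value because
  `CE (ψ.bind σ) p` contains values for all subformulas). Needs `(2 + 2 ℓ) k ≤ M`.
  If `ψ` is a tautology then `q = 1`, so `p ≈ 1`.
* `ce_mp`: `CE A a`, `CE (A → B) p`, `CE B b`, `a ≈ 1`, `p ≈ 1`: inside `p` there are values `a', b'`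
  with `p ≈ 1 - a'(1-b')`, `a' ≈ a ≈ 1`, `b' ≈ b`; so `1 - b' = (1 - a')(1-b') + a'(1-b') ≈ 0`.
* `no_proof`: by strong induction on the line number every line `pf i` has all its `CE` values
  `≈ 1`. For `pf i = A₁ → (A₂ → … → ⊥)` (a `foldr`), with every `A_j` having honest value `≈ 1`
  (`hax`, by `ce_hv` its `CE` value is `≈ 1` too): induction on the list shows that a `CE` value
  of the `foldr` is `≈` the `CE` value of `⊥`, which is `≈ 0` (`bot v0 = ¬(v0 → v0)`: with `a` the value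
  of `v0`, `a(1-a) = 0` exactly because `a` is Boolean; the value of `v0 → v0` involves two values
  `a, a'` of `v0`, which are pseudo-equal). So `1 ≈ 0`, contradicting `z_one`.
  In the induction: `p ≈ 1 - a(1-b)`, `a ≈ 1`, `b ≈ 0` gives `p ≈ b ≈ 0`.
-/

namespace Pool.Agent.H3.Frg2

open Finset Pool.Agent.H3.Frg

variable {V X : Type}

section Aux

variable {P : PA X} {F : V → X → Bool} {k K : ℕ}

theorem ce_uniq (hM : 2 * k ≤ P.M) {A : Fm V} : ∀ {p p' : X → Bool},
    CE P F k A p → CE P F k A p' → P.Peq (rl p) (rl p') := by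
  induction A with
  | var i =>
    intro p p' h h'
    exact P.peq_trans (ce_var_iff.1 h).2 (P.peq_symm (ce_var_iff.1 h').2)
  | neg A ih =>
    intro p p' h h'
    obtain ⟨_, a, ha, h1⟩ := ce_neg_iff.1 h
    obtain ⟨_, a', ha', h1'⟩ := ce_neg_iff.1 h'
    exact P.peq_trans h1 (P.peq_trans (P.peq_one_sub (ih ha ha')) (P.peq_symm h1'))
  | imp A B ihA ihB =>
    intro p p' h h'
    obtain ⟨_, a, b, ha, hb, h1⟩ := ce_imp_iff.1 h
    obtain ⟨_, a', b', ha', hb', h1'⟩ := ce_imp_iff.1 h'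
    exact P.peq_trans h1 (P.peq_trans (P.peq_imp (ce_dg ha) (ce_dg ha') (ce_dg hb) (ce_dg hb')
      (by omega) (ihA ha ha') (ihB hb hb')) (P.peq_symm h1'))

theorem ce_hv (hM : 2 * (k + K) ≤ P.M) {A : Fm V} :
    (∀ B ∈ A.subs, P.Dg (rl (hv F B)) K) → ∀ {p : X → Bool}, CE P F k A p →
      P.Peq (rl p) (rl (hv F A)) := by
  induction A with
  | var i =>
    intro _ p h
    exact (ce_var_iff.1 h).2
  | neg A ih =>
    intro hs p h
    obtain ⟨_, a, ha, h1⟩ := ce_neg_iff.1 h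
    have h2 := ih (fun B hB => hs B (List.mem_cons_of_mem _ hB)) ha
    refine P.peq_trans h1 (P.peq_trans (P.peq_one_sub h2) (P.peq_of_eq fun z => ?_))
    rw [hv_neg, rl_not]
  | imp A B ihA ihB =>
    intro hs p h
    obtain ⟨_, a, b, ha, hb, h1⟩ := ce_imp_iff.1 h
    have hsA : ∀ C ∈ A.subs, P.Dg (rl (hv F C)) K := fun C hC =>
      hs C (List.mem_cons_of_mem _ (List.mem_append_left _ hC))
    have hsB : ∀ C ∈ B.subs, P.Dg (rl (hv F C)) K := fun C hC =>
      hs C (List.mem_cons_of_mem _ (List.mem_append_right _ hC))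
    have h2 := ihA hsA ha
    have h3 := ihB hsB hb
    have hA : A ∈ A.subs := by cases A <;> simp [Fm.subs]
    have hB : B ∈ B.subs := by cases B <;> simp [Fm.subs]
    refine P.peq_trans h1 (P.peq_trans (P.peq_imp (a := k + K) (b := k + K)
      (P.dg_mono (ce_dg ha) (by omega)) (P.dg_mono (hsA A hA) (by omega))
      (P.dg_mono (ce_dg hb) (by omega)) (P.dg_mono (hsB B hB) (by omega))
      (by omega) h2 h3) (P.peq_of_eq fun z => ?_))
    rw [hv_imp, rl_imp]

theorem ce_scheme (hk : 1 ≤ k) (σ : ℕ → Fm V) (v : ℕ → X → Bool)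
    (hv' : ∀ i, (∃ p, CE P F k (σ i) p) → CE P F k (σ i) (v i)) {ψ : Fm ℕ} :
    2 * (ψ.len * k) ≤ P.M → ∀ {p : X → Bool}, CE P F k (ψ.bind σ) p →
      P.Dg (rl fun z => ψ.eval fun i => v i z) (ψ.len * k) ∧
      P.Peq (rl p) (rl fun z => ψ.eval fun i => v i z) := by
  induction ψ with
  | var i =>
    intro hM p h
    have h0 : CE P F k (σ i) p := h
    have h1 := hv' i ⟨p, h0⟩
    simp only [Fm.len, one_mul] at hM ⊢
    exact ⟨ce_dg h1, ce_uniq (by omega) h0 h1⟩
  | neg A ih =>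
    intro hM p h
    obtain ⟨_, a, ha, h1⟩ := ce_neg_iff.1 (show CE P F k (Fm.neg (A.bind σ)) p from h)
    simp only [Fm.len] at hM ⊢
    have hle : A.len * k ≤ (A.len + 1) * k := Nat.mul_le_mul_right _ (by omega)
    obtain ⟨h2, h3⟩ := ih (by omega) ha
    have h4 : ∀ z, 1 - rl (fun z => A.eval fun i => v i z) z =
        rl (fun z => (Fm.neg A).eval fun i => v i z) z := by
      intro z
      rw [← rl_not]
      rfl
    exact ⟨P.dg_congr (P.dg_one_sub (P.dg_mono h2 hle)) h4,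
      P.peq_trans h1 (P.peq_trans (P.peq_one_sub h3) (P.peq_of_eq h4))⟩
  | imp A B ihA ihB =>
    intro hM p h
    obtain ⟨_, a, b, ha, hb, h1⟩ :=
      ce_imp_iff.1 (show CE P F k (Fm.imp (A.bind σ) (B.bind σ)) p from h)
    simp only [Fm.len] at hM ⊢
    have hle : (A.len + B.len + 1) * k = A.len * k + B.len * k + k := by ring
    rw [hle] at hM ⊢
    obtain ⟨h2, h3⟩ := ihA (by omega) ha
    obtain ⟨h4, h5⟩ := ihB (by omega) hb
    have h6 : ∀ z, 1 - rl (fun z => A.eval fun i => v i z) z *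
        (1 - rl (fun z => B.eval fun i => v i z) z) =
        rl (fun z => (Fm.imp A B).eval fun i => v i z) z := by
      intro z
      rw [← rl_imp]
      rfl
    refine ⟨P.dg_congr (P.dg_mono (P.dg_one_sub (P.dg_mul h2 (P.dg_one_sub h4)))
      (by omega)) h6, P.peq_trans h1 (P.peq_trans (P.peq_imp (a := A.len * k + k)
      (b := B.len * k + k)
      (P.dg_mono (ce_dg ha) (by omega)) (P.dg_mono h2 (by omega))
      (P.dg_mono (ce_dg hb) (by omega)) (P.dg_mono h4 (by omega)) ?_ h3 h5)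
      (P.peq_of_eq h6))⟩
    have h7 : 1 * k ≤ A.len * k := Nat.mul_le_mul_right _ (by cases A <;> simp [Fm.len])
    omega

theorem ce_mp (hM : 2 * k ≤ P.M) {A B : Fm V} {a p b : X → Bool} (ha : CE P F k A a)
    (hp : CE P F k (Fm.imp A B) p) (hb : CE P F k B b) (ha1 : P.Peq (rl a) (fun _ => 1))
    (hp1 : P.Peq (rl p) (fun _ => 1)) : P.Peq (rl b) (fun _ => 1) := by
  obtain ⟨_, a', b', ha', hb', h1⟩ := ce_imp_iff.1 hp
  have h2 : P.Peq (rl a') (fun _ => 1) := P.peq_trans (ce_uniq hM ha' ha) ha1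
  have h3 : P.Peq (rl b) (rl b') := ce_uniq hM hb hb'
  -- `1 - b' ≈ a' (1 - b') ≈ 1 - p ≈ 0`
  have h4 : P.Peq (fun z => rl a' z * (1 - rl b' z)) (fun z => 1 * (1 - rl b' z)) :=
    P.peq_mul (ce_dg ha') (P.dg_const' 1 k) (P.dg_one_sub (ce_dg hb'))
      (P.dg_one_sub (ce_dg hb')) (by omega) h2 (P.peq_refl _)
  have h5 : P.Z (fun z => rl b' z - 1) := by
    -- `b' - 1 = (a'(1-b') - (1 - b')) - (a'(1-b'))`, `a'(1-b') = (p - (1 - a'(1-b'))) - (p - 1)`
    refine P.z_congr (P.z_sub h4 (P.z_sub h1 hp1)) ?_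
    intro z
    ring
  exact P.peq_trans h3 h5

theorem ce_bot (hM : 2 * k ≤ P.M) {v0 : V} {p : X → Bool} (h : CE P F k (bot v0) p) :
    P.Z (rl p) := by
  obtain ⟨_, r, hr, h1⟩ := ce_neg_iff.1 (show CE P F k (Fm.neg _) p from h)
  obtain ⟨_, a, b, ha, hb, h2⟩ := ce_imp_iff.1 hr
  have h3 : P.Peq (rl a) (rl b) := ce_uniq hM ha hb
  have h4 : P.Peq (fun z => rl a z * rl a z) (fun z => rl a z * rl b z) :=
    P.peq_mul (ce_dg ha) (ce_dg ha) (ce_dg ha) (ce_dg hb) (by omega) (P.peq_refl _) h3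
  -- `p ≈ 1 - r`, `r ≈ 1 - a(1-b)`, `a (1 - b) = a a - a b ≈ 0`
  refine P.z_congr (P.z_add (P.z_sub h1 h2) h4) ?_
  intro z
  have := rl_sq a z
  linear_combination this

theorem ce_foldr (hM : 2 * (k + K) ≤ P.M) (v0 : V) (As : List (Fm V))
    (hax : ∀ A ∈ As, (∀ B ∈ A.subs, P.Dg (rl (hv F B)) K) ∧
      P.Z (fun z => rl (hv F A) z - 1)) :
    ∀ {p : X → Bool}, CE P F k (As.foldr Fm.imp (bot v0)) p → P.Z (rl p) := by
  induction As with
  | nil =>
    intro p h
    exact ce_bot (by omega) h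
  | cons A As ih =>
    intro p h
    obtain ⟨_, a, b, ha, hb, h1⟩ :=
      ce_imp_iff.1 (show CE P F k (Fm.imp A (As.foldr Fm.imp (bot v0))) p from h)
    have h2 : P.Z (rl b) := ih (fun B hB => hax B (List.mem_cons_of_mem _ hB)) hb
    obtain ⟨h3, h4⟩ := hax A List.mem_cons_self
    have h5 : P.Peq (rl a) (rl (hv F A)) := ce_hv hM h3 ha
    have h6 := P.z_mul h2 (ce_dg hb) (ce_dg ha) (by omega)
    -- `p ≈ 1 - a (1 - b) = (1 - a) + a b`
    refine P.z_congr (P.z_add (P.z_sub h1 (P.z_add h5 h4)) h6) ?_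
    intro z
    ring

end Aux

theorem no_proof (P : PA X) (F : V → X → Bool) (k K ℓ : ℕ) (hk : 1 ≤ k)
    (hM : 10 * (ℓ + 2) * (k + K) ≤ P.M)
    (Sch : Set (Fm ℕ)) (htaut : ∀ ψ ∈ Sch, ∀ x : ℕ → Bool, ψ.eval x = true)
    (hlen : ∀ ψ ∈ Sch, ψ.len ≤ ℓ)
    {L : ℕ} (pf : Fin L → Fm V) (hpf : IsProof Sch pf)
    (hCE : ∀ i, ∃ p, CE P F k (pf i) p)
    (v0 : V) (As : List (Fm V))
    (hax : ∀ A ∈ As, (∀ B ∈ A.subs, P.Dg (rl (hv F B)) K) ∧ P.Z (fun z => rl (hv F A) z - 1))
    (hfin : ∃ i, pf i = As.foldr Fm.imp (bot v0)) : False := by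
  classical
  have hM1 : 2 * (k + K) ≤ P.M := by
    refine le_trans ?_ hM
    exact Nat.mul_le_mul_right _ (by omega)
  have hM2 : 2 * (ℓ * k) ≤ P.M := by
    refine le_trans ?_ hM
    nlinarith [Nat.zero_le (ℓ * K), Nat.zero_le (ℓ * k)]
  have key : ∀ m : ℕ, ∀ i : Fin L, (i : ℕ) = m → ∀ p, CE P F k (pf i) p →
      P.Peq (rl p) (fun _ => 1) := by
    intro m
    induction m using Nat.strong_induction_on with
    | _ m ih =>
      intro i hi p hp
      rcases hpf i with ⟨ψ, hψ, σ, hσ⟩ | ⟨j, l, hj, hl, hjl⟩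
      · -- axiom instance
        rw [hσ] at hp
        let v : ℕ → X → Bool := fun i =>
          if h : ∃ p, CE P F k (σ i) p then h.choose else fun _ => true
        have hv' : ∀ i, (∃ p, CE P F k (σ i) p) → CE P F k (σ i) (v i) := by
          intro i h
          simp only [v, dif_pos h]
          exact h.choose_spec
        have hle : 2 * (ψ.len * k) ≤ P.M := by
          refine le_trans ?_ hM2
          exact Nat.mul_le_mul_left 2 (Nat.mul_le_mul_right k (hlen ψ hψ))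
        obtain ⟨_, h2⟩ := ce_scheme hk σ v hv' hle hp
        refine P.peq_trans h2 (P.peq_of_eq fun z => ?_)
        simp [rl, htaut ψ hψ]
      · obtain ⟨a, ha⟩ := hCE j
        obtain ⟨q, hq⟩ := hCE l
        have ha1 := ih j (by omega) j rfl a ha
        have hq1 := ih l (by omega) l rfl q hq
        rw [hjl] at hq
        exact ce_mp (by omega) ha hq hp ha1 hq1
  obtain ⟨i, hi⟩ := hfin
  obtain ⟨p, hp⟩ := hCE i
  have h1 := key i i rfl p hp
  rw [hi] at hp
  have h2 : P.Z (rl p) := ce_foldr hM1 v0 As hax hp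
  apply P.z_one
  refine P.z_congr (P.z_sub h2 h1) ?_
  intro z
  ring

end Pool.Agent.H3.Frg2
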