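import Mathlib
import Pool.Agent.H3.Frg2.Defs
import Pool.Agent.H3.Frg.Expander

set_option autoImplicit false
set_option linter.unusedSectionVars false

/-!
# Module B (SUPERGRAPH): existence of the super graph by 40 random permutations

`Wv := Fin n` (`n ≥ 1000`).  Choose permutations `σ : Fin 40 → Equiv.Perm (Fin n)`.
`E := {e : Fin 40 × Fin n // σ e.1 e.2 ≠ e.2}` (non-loops), `src e = e.2`, `tgt e = σ e.1 e.2`.
Then `loopless` is clear, `|E| ≤ 40 n`, and `deg`: the edges of `bd {w}` are among the 40 edges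
`(i, w)` and the 40 edges `(i, (σ i)⁻¹ w)` (compare `exists_graph` in
`Pool/Agent/H3/Frg/Expander.lean`), so at most 80.

For a permutation `τ` let `mv τ X = #{v ∈ X : τ v ∈ X}` and (T1 file) `cr τ X = {v : ¬(v ∈ X ↔ τ v ∈ X)}`.
The permutations are chosen such that

(S) for every nonempty `X` with `16 |X| ≤ n`:   `∑ i, mv (σ i) X < 20 |X|`;
(M) for every `X` with `n < 16 |X|` and `16 |X| ≤ 15 n`:   `∃ i, n / 1000 < (cr (σ i) X).card`.

## From (S) and (M) to `SG`
* For every `X`: the edges `(i, v)` with `v ∈ cr (σ i) X` are in `bd X` (they are not loops), so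
  `(bd X).card ≥ ∑ i, (cr (σ i) X).card`, and `(cr τ X).card = 2 (|X| - mv τ X)` (only `≥ |X| - mv τ X`
  is needed: `v ∈ X, τ v ∉ X` are in `cr τ X`).
* `cheeger`: if `16|X| ≤ n` and `X` nonempty then `|bd X| ≥ ∑ i (|X| - mv (σ i) X) ≥ 20 |X|`; if
  `16 |Xᶜ| ≤ n`, the same for the complement (`bd Xᶜ = bd X`, `Xᶜ.card = n - X.card`); in the middle
  range `|bd X| ≥ n / 1000 + 1`, and `min ≤ n / 2 ≤ 1000 * (n/1000 + 1)`.
* `peel`: suppose `X` nonempty, `16|X| ≤ n` and `(toOut w X).card ≤ (toIn w X).card` for all `w ∈ X`.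
  Then `∑_{w ∈ X} (toOut w X).card + ∑_{w ∈ X} (toIn w X).card ≤ 2 ∑_{w ∈ X} (toIn w X).card`.
  Let `a = ∑ i, mv (σ i) X`, `x = |X|` and `l` the number of loops `(i, v)`, `v ∈ X`.
  `∑_{w∈X} (toIn w X).card = 2 (a - l)` (each non-loop edge inside `X` is counted twice), and
  `∑_{w∈X} (toOut w X).card = ∑ i (number of v ∈ X, σ v ∉ X) + ∑ i (number of v ∉ X, σ v ∈ X)
  = 2 (40 x - a)`. So `2 (40 x - a) ≤ 2 (a - l)`, hence `a ≥ 20 x`, a contradiction to (S).
  (For the lower bound of `∑ toOut` one may count only what is needed: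
  `∑ toOut ≥ 2 (40 x - a)`, `∑ toIn ≤ 2 a`.)

## Existence of the permutations (union bound over `X`)
(M): exactly as `near_bound`, `exists_perms` of `Pool/Agent/H3/Frg/Expander.lean` (use
`card_near_le`, which bounds the number `|near X d|` of permutations with `(cr τ X).card ≤ d` by
`|near X d| * C(n, |X|) ≤ |smalls d| * n!`), with 40 permutations. One has `C(n,x)^16 ≥ 2^n` for
`n ≤ 16 x`, `16 x ≤ 15 n` (`two_pow_le_central` with `y = ⌈n/16⌉`, `C(n,x) ≥ C(n,y) ≥ C(2y,y) ≥ 2^y`;
`C(n, x) = C(n, n - x)`; monotonicity: `C(n,y) ≥ C(2y', y') ` if ... see `choose_mid`) and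
`|smalls d| ≤ 64^d (65/64)^n` (as `card_smalls_le` with 64 instead of 16). With `d = n/1000`:
`2^n * |smalls d|^40 ≤ 2^{n + 0.24 n + 0.9 n}` is much smaller than `C(n,x)^40 ≥ 2^{2.5 n}`: so
`4 * 2^n * |near X d|^40 ≤ (n!)^40`. Hence the number of bad `σ` in (M) is at most `(n!)^40 / 4`.

(S): fix `X`, `x = |X| ≥ 1`, `16 x ≤ n`, `λ = n / x ≥ 16` (real). For one permutation
`∑_τ λ^{mv τ X} ≤ 2^x n!`. Proof: `mv τ X = |X ∩ Y|` where `Y = {v : τ v ∈ X}`, `|Y| = x`, each `Y`
is attained by at most `n!/C(n,x)` permutations (`card_movers_le`), and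
`∑_{|Y| = x} λ^{|X ∩ Y|} = ∑_{|Y|=x} ∑_{T ⊆ X ∩ Y} (λ-1)^{|T|} = ∑_{T ⊆ X} (λ-1)^{|T|} C(n-|T|, x-|T|)
 ≤ C(n,x) ∑_{T ⊆ X} ((λ-1) x/n)^{|T|} = C(n,x) (1 + (λ-1)x/n)^x ≤ C(n,x) 2^x`,
because `C(n-j, x-j) n^j ≤ C(n,x) x^j` (induction on `j`) and `(λ-1) x/n ≤ 1`.
Therefore `∑_σ λ^{∑ i mv (σ i) X} ≤ (2^x n!)^40`, and the number of `σ` with `∑ i mv (σ i) X ≥ 20 x`
is at most `(n!)^40 2^{40 x} (x/n)^{20 x} = (n!)^40 (4x/n)^{20x}`. The number of `X` with `|X| = x` is
`C(n,x) ≤ (3 n/x)^x` (from `C(n,x) (x/n)^x ≤ e^x`; or `C(n,x) ≤ n^x/x!`, `x! ≥ (x/3)^x`). Sum over `X`: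
`∑_x (3 n/x)^x (4x/n)^{20 x} = ∑_x (3 * 4^20 * (x/n)^19)^x ≤ ∑_{x≥1} (3 * 2^40 / 2^76)^x ≤ 1/4`.
So the bad `σ` in (S) are also at most `(n!)^40/4`, and good `σ` exist.
-/

namespace Pool.Agent.H3.Frg2

open Finset Pool.Agent.H3.Frg

section Perm

variable {W : Type} [Fintype W] [DecidableEq W]

/-- number of points of `X` which stay in `X` -/
def sgmv (τ : Equiv.Perm W) (X : Finset W) : ℕ := (X.filter fun v => τ v ∈ X).card

/-- permutations mapping `T` into `X` -/
def sgfx (T X : Finset W) : Finset (Equiv.Perm W) := univ.filter fun σ => ∀ v ∈ T, σ v ∈ X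

theorem mem_sgfx {T X : Finset W} {σ : Equiv.Perm W} : σ ∈ sgfx T X ↔ ∀ v ∈ T, σ v ∈ X := by
  simp [sgfx]

theorem sgfx_swap (T X : Finset W) {v w : W} (hv : v ∉ T) (hw : w ∉ T) :
    (sgfx (insert v T) X).card ≤ (sgfx (insert w T) X).card := by
  refine Finset.card_le_card_of_injOn (fun σ => (Equiv.swap v w).trans σ) ?_ ?_
  · intro σ hσ
    have h1 := mem_sgfx.mp hσ
    refine mem_coe.mpr (mem_sgfx.mpr ?_)
    intro u hu
    rw [Equiv.trans_apply]
    rcases Finset.mem_insert.mp hu with hu' | hu'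
    · rw [hu', Equiv.swap_apply_right]
      exact h1 v (Finset.mem_insert_self v T)
    · rw [Equiv.swap_apply_of_ne_of_ne]
      · exact h1 u (Finset.mem_insert_of_mem hu')
      · intro h
        exact hv (h ▸ hu')
      · intro h
        exact hw (h ▸ hu')
  · intro σ _ τ _ h
    ext x
    have := congrArg (fun ρ : Equiv.Perm W => ρ (Equiv.swap v w x)) h
    simpa using this

theorem sgfx_step (T X : Finset W) {v : W} (hv : v ∉ T) :
    (sgfx (insert v T) X).card * (Fintype.card W - T.card) =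
      (sgfx T X).card * (X.card - T.card) := by
  have h1 : ∑ w ∈ Tᶜ, (sgfx (insert w T) X).card =
      (sgfx (insert v T) X).card * (Fintype.card W - T.card) := by
    rw [← Finset.card_compl, mul_comm, ← smul_eq_mul, ← Finset.sum_const]
    refine Finset.sum_congr rfl fun w hw => ?_
    rw [Finset.mem_compl] at hw
    exact le_antisymm (sgfx_swap T X hw hv) (sgfx_swap T X hv hw)
  have h2 : ∑ w ∈ Tᶜ, (sgfx (insert w T) X).card =
      ∑ σ ∈ sgfx T X, (Tᶜ.filter fun w => σ w ∈ X).card := by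
    have h3 : ∀ w, sgfx (insert w T) X = (sgfx T X).filter fun σ => σ w ∈ X := by
      intro w
      ext σ
      rw [Finset.mem_filter, mem_sgfx, mem_sgfx]
      constructor
      · intro h
        exact ⟨fun u hu => h u (Finset.mem_insert_of_mem hu), h w (Finset.mem_insert_self w T)⟩
      · rintro ⟨h, h'⟩ u hu
        rcases Finset.mem_insert.mp hu with rfl | hu
        · exact h'
        · exact h u hu
    simp only [h3]
    exact Finset.sum_card_bipartiteAbove_eq_sum_card_bipartiteBelow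
      (r := fun (w : W) (σ : Equiv.Perm W) => σ w ∈ X) |>.trans rfl
  have h4 : ∀ σ ∈ sgfx T X, (Tᶜ.filter fun w => σ w ∈ X).card = X.card - T.card := by
    intro σ hσ
    have h5 := mem_sgfx.mp hσ
    have h6 : (Tᶜ.filter fun w => σ w ∈ X) = (univ.filter fun w => σ w ∈ X) \ T := by
      ext w
      simp only [Finset.mem_filter, Finset.mem_compl, Finset.mem_sdiff, mem_univ, true_and]
      tauto
    rw [h6, Finset.card_sdiff_of_subset (fun w hw => by
      rw [Finset.mem_filter]
      exact ⟨mem_univ _, h5 w hw⟩), card_pre]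
  rw [← h1, h2, Finset.sum_congr rfl h4, Finset.sum_const, smul_eq_mul]

theorem sgfx_card_le (T X : Finset W) :
    (sgfx T X).card * Fintype.card W ^ T.card ≤ (Fintype.card W).factorial * X.card ^ T.card := by
  induction T using Finset.induction_on with
  | empty =>
    simp only [Finset.card_empty, pow_zero, mul_one]
    refine (Finset.card_le_univ _).trans ?_
    rw [Fintype.card_perm]
  | insert v T hv ih =>
    have h1 := sgfx_step T X hv
    have hT : T.card < Fintype.card W := by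
      have h2 := Finset.card_le_univ (insert v T)
      rw [Finset.card_insert_of_notMem hv] at h2
      omega
    have hX : X.card ≤ Fintype.card W := Finset.card_le_univ X
    set N := Fintype.card W with hN
    set A := (sgfx T X).card with hA
    set A' := (sgfx (insert v T) X).card with hA'
    have h3 : A' * N ≤ A * X.card := by
      have h4 : A' * N * (N - T.card) ≤ A * X.card * (N - T.card) := by
        have h5 : (X.card - T.card) * N ≤ X.card * (N - T.card) := by
          rcases Nat.le_total X.card T.card with h | h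
          · rw [Nat.sub_eq_zero_of_le h, zero_mul]
            exact Nat.zero_le _
          · zify [h, hT.le]
            have h6 : (X.card : ℤ) ≤ N := by exact_mod_cast hX
            have h7 : (0 : ℤ) ≤ T.card := Int.natCast_nonneg _
            nlinarith
        calc A' * N * (N - T.card) = A' * (N - T.card) * N := by ring
          _ = A * (X.card - T.card) * N := by rw [h1]
          _ = A * ((X.card - T.card) * N) := by ring
          _ ≤ A * (X.card * (N - T.card)) := Nat.mul_le_mul_left _ h5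
          _ = _ := by ring
      exact Nat.le_of_mul_le_mul_right h4 (by omega)
    rw [Finset.card_insert_of_notMem hv]
    calc A' * N ^ (T.card + 1) = A' * N * N ^ T.card := by ring
      _ ≤ A * X.card * N ^ T.card := Nat.mul_le_mul_right _ h3
      _ = A * N ^ T.card * X.card := by ring
      _ ≤ N.factorial * X.card ^ T.card * X.card := Nat.mul_le_mul_right _ ih
      _ = _ := by ring

/-- exponential moment of the number of points which stay in `X` -/
theorem sg_moment (X : Finset W) (hX : 1 ≤ X.card) :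
    ∑ τ : Equiv.Perm W, ((Fintype.card W : ℝ) / X.card) ^ sgmv τ X ≤
      (Fintype.card W).factorial * 2 ^ X.card := by
  have hXN : X.card ≤ Fintype.card W := Finset.card_le_univ X
  set N := Fintype.card W with hN
  set x := X.card with hx
  have hx0 : (0 : ℝ) < x := by exact_mod_cast hX
  have hN0 : (0 : ℝ) < N := by exact_mod_cast (lt_of_lt_of_le hX hXN)
  have hNx : (x : ℝ) ≤ N := by exact_mod_cast hXN
  set l : ℝ := (N : ℝ) / x with hl
  have hl1 : 0 ≤ l - 1 := by
    rw [hl, sub_nonneg, one_le_div hx0]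
    exact hNx
  have h1 : ∀ τ : Equiv.Perm W, l ^ sgmv τ X =
      ∑ T ∈ X.powerset, if ∀ v ∈ T, τ v ∈ X then (l - 1) ^ T.card else 0 := by
    intro τ
    have h2 := Finset.sum_pow_mul_eq_add_pow (l - 1) 1 (X.filter fun v => τ v ∈ X)
    simp only [one_pow, mul_one, sub_add_cancel] at h2
    unfold sgmv
    rw [← h2, ← Finset.sum_filter]
    refine Finset.sum_congr ?_ fun _ _ => rfl
    ext T
    rw [Finset.mem_powerset, Finset.mem_filter, Finset.mem_powerset]
    constructor
    · intro h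
      exact ⟨h.trans (Finset.filter_subset _ _), fun v hv => (Finset.mem_filter.mp (h hv)).2⟩
    · rintro ⟨h, h'⟩ v hv
      exact Finset.mem_filter.mpr ⟨h hv, h' v hv⟩
  simp only [h1]
  rw [Finset.sum_comm]
  have h3 : ∀ T ∈ X.powerset, ∑ τ : Equiv.Perm W, (if ∀ v ∈ T, τ v ∈ X then (l - 1) ^ T.card
      else 0) ≤ (N.factorial : ℝ) * ((l - 1) * (x / N)) ^ T.card := by
    intro T _
    have h4 : ∑ τ : Equiv.Perm W, (if ∀ v ∈ T, τ v ∈ X then (l - 1) ^ T.card else 0) =
        ((sgfx T X).card : ℝ) * (l - 1) ^ T.card := by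
      rw [← Finset.sum_filter, Finset.sum_const, nsmul_eq_mul]
      rfl
    rw [h4]
    have h5 : ((sgfx T X).card : ℝ) ≤ N.factorial * (x / N : ℝ) ^ T.card := by
      have h6 := sgfx_card_le T X
      rw [← hN, ← hx] at h6
      have h7 : ((sgfx T X).card : ℝ) * (N : ℝ) ^ T.card ≤ N.factorial * (x : ℝ) ^ T.card := by
        exact_mod_cast h6
      rw [div_pow, ← mul_div_assoc, le_div_iff₀ (by positivity)]
      exact h7
    calc ((sgfx T X).card : ℝ) * (l - 1) ^ T.card
        ≤ N.factorial * (x / N : ℝ) ^ T.card * (l - 1) ^ T.card :=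
          mul_le_mul_of_nonneg_right h5 (pow_nonneg hl1 _)
      _ = _ := by rw [mul_pow]; ring
  refine (Finset.sum_le_sum h3).trans ?_
  rw [← Finset.mul_sum]
  have h8 := Finset.sum_pow_mul_eq_add_pow ((l - 1) * (x / N : ℝ)) 1 X
  simp only [one_pow, mul_one] at h8
  rw [h8]
  have h9 : (l - 1) * (x / N : ℝ) + 1 ≤ 2 := by
    have : l * (x / N : ℝ) = 1 := by
      rw [hl]
      field_simp
    have h10 : 0 ≤ (x : ℝ) / N := by positivity
    nlinarith
  have h11 : 0 ≤ (l - 1) * (x / N : ℝ) + 1 := by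
    have : 0 ≤ (l - 1) * (x / N : ℝ) := mul_nonneg hl1 (by positivity)
    linarith
  gcongr

/-- bad choices of permutations for a small set -/
def sgbad (K : ℕ) (X : Finset W) : Finset (Fin K → Equiv.Perm W) :=
  univ.filter fun σ => 20 * X.card ≤ ∑ i, sgmv (σ i) X

theorem sgbad_card_mul (K : ℕ) (X : Finset W) (hX : 1 ≤ X.card) :
    ((sgbad K X).card : ℝ) * ((Fintype.card W : ℝ) / X.card) ^ (20 * X.card) ≤
      ((Fintype.card W).factorial * 2 ^ X.card) ^ K := by
  have hXN : X.card ≤ Fintype.card W := Finset.card_le_univ X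
  have h0 := sg_moment X hX
  have hx0 : (0 : ℝ) < X.card := by exact_mod_cast hX
  have hNx : (X.card : ℝ) ≤ Fintype.card W := by exact_mod_cast hXN
  have hl1 : 1 ≤ (Fintype.card W : ℝ) / X.card := by
    rw [one_le_div hx0]
    exact hNx
  generalize (Fintype.card W : ℝ) / X.card = l at hl1 h0 ⊢
  have hl0 : 0 ≤ l := by linarith
  calc ((sgbad K X).card : ℝ) * l ^ (20 * X.card) = ∑ σ ∈ sgbad K X, l ^ (20 * X.card) := by
        rw [Finset.sum_const, nsmul_eq_mul]
    _ ≤ ∑ σ ∈ sgbad K X, ∏ i, l ^ sgmv (σ i) X := by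
        refine Finset.sum_le_sum fun σ hσ => ?_
        rw [Finset.prod_pow_eq_pow_sum]
        exact pow_le_pow_right₀ hl1 (Finset.mem_filter.mp hσ).2
    _ ≤ ∑ σ : Fin K → Equiv.Perm W, ∏ i, l ^ sgmv (σ i) X :=
        Finset.sum_le_sum_of_subset_of_nonneg (Finset.subset_univ _)
          fun _ _ _ => Finset.prod_nonneg fun _ _ => pow_nonneg hl0 _
    _ = (∑ τ : Equiv.Perm W, l ^ sgmv τ X) ^ K := by
        rw [Fintype.sum_pow]
    _ ≤ _ := pow_le_pow_left₀ (Finset.sum_nonneg fun _ _ => pow_nonneg hl0 _) h0 K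

theorem sgbad_card (X : Finset W) (hX : 1 ≤ X.card) :
    ((sgbad 40 X).card : ℝ) ≤
      (Fintype.card W).factorial ^ 40 * (4 * X.card / Fintype.card W) ^ (20 * X.card) := by
  have hXN : X.card ≤ Fintype.card W := Finset.card_le_univ X
  have h1 := sgbad_card_mul 40 X hX
  generalize ((sgbad 40 X).card : ℝ) = A at h1 ⊢
  generalize Fintype.card W = N at hXN h1 ⊢
  generalize X.card = x at hXN hX h1 ⊢
  have hx0 : (0 : ℝ) < x := by exact_mod_cast hX
  have hN0 : (0 : ℝ) < N := by exact_mod_cast (lt_of_lt_of_le hX hXN)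
  have h2 : (N.factorial * 2 ^ x : ℝ) ^ 40 =
      N.factorial ^ 40 * (4 * x / N : ℝ) ^ (20 * x) * (N / x : ℝ) ^ (20 * x) := by
    rw [mul_assoc, ← mul_pow]
    have h3 : (4 * x / N : ℝ) * (N / x) = 4 := by field_simp
    rw [h3, mul_pow, ← pow_mul, show (4 : ℝ) = 2 ^ 2 by norm_num, ← pow_mul]
    congr 2
    ring
  rw [h2] at h1
  exact le_of_mul_le_mul_right h1 (by positivity)

theorem sg_choose_le (n x : ℕ) (hx : 1 ≤ x) : (n.choose x : ℝ) ≤ (3 * n / x : ℝ) ^ x := by
  have hx0 : (0 : ℝ) < x := by exact_mod_cast hx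
  have h1 : (n.choose x : ℝ) ≤ (n : ℝ) ^ x / x.factorial := Nat.choose_le_pow_div x n
  have h2 : (x : ℝ) ^ x / x.factorial ≤ 3 ^ x := by
    refine (Real.pow_div_factorial_le_exp x hx0.le x).trans ?_
    rw [← Real.exp_one_pow]
    exact pow_le_pow_left₀ (Real.exp_pos _).le Real.exp_one_lt_three.le x
  have hf : (0 : ℝ) < x.factorial := by exact_mod_cast x.factorial_pos
  refine h1.trans ?_
  rw [div_pow, mul_pow, div_le_div_iff₀ hf (by positivity)]
  rw [div_le_iff₀ hf] at h2
  have h3 : (0 : ℝ) ≤ (n : ℝ) ^ x := by positivity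
  calc (n : ℝ) ^ x * (x : ℝ) ^ x ≤ (n : ℝ) ^ x * (3 ^ x * x.factorial) :=
        mul_le_mul_of_nonneg_left h2 h3
    _ = _ := by ring

theorem sg_term (n x : ℕ) (hx : 1 ≤ x) (hxn : 16 * x ≤ n) :
    (n.choose x : ℝ) * (4 * x / n : ℝ) ^ (20 * x) ≤ (1 / 8 : ℝ) ^ x := by
  have hx0 : (0 : ℝ) < x := by exact_mod_cast hx
  have hn0 : (0 : ℝ) < n := by
    have : 0 < n := by omega
    exact_mod_cast this
  have hy : (x : ℝ) / n ≤ 1 / 16 := by
    rw [div_le_div_iff₀ hn0 (by norm_num)]
    have : (16 * x : ℝ) ≤ n := by exact_mod_cast hxn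
    linarith
  have hy0 : (0 : ℝ) ≤ (x : ℝ) / n := by positivity
  calc (n.choose x : ℝ) * (4 * x / n : ℝ) ^ (20 * x)
      ≤ (3 * n / x : ℝ) ^ x * (4 * x / n : ℝ) ^ (20 * x) :=
        mul_le_mul_of_nonneg_right (sg_choose_le n x hx) (by positivity)
    _ = (3 * 4 ^ 20 * ((x : ℝ) / n) ^ 19) ^ x := by
        rw [pow_mul, ← mul_pow]
        congr 1
        field_simp
    _ ≤ (3 * 4 ^ 20 * (1 / 16 : ℝ) ^ 19) ^ x := by gcongr
    _ ≤ (1 / 8 : ℝ) ^ x := by
        refine pow_le_pow_left₀ (by positivity) ?_ x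
        norm_num

theorem sg_smalls_le (d : ℕ) :
    ((smalls W d).card : ℝ) ≤ 64 ^ d * (65 / 64) ^ Fintype.card W := by
  have h1 : ∑ Z : Finset W, (1 / 64 : ℝ) ^ Z.card = (65 / 64) ^ Fintype.card W := by
    have h := Finset.prod_one_add (f := fun _ : W => (1 / 64 : ℝ)) (univ : Finset W)
    simp only [Finset.prod_const, Finset.powerset_univ, Finset.card_univ] at h
    rw [← h]; norm_num
  have h2 : ((smalls W d).card : ℝ) * (1 / 64) ^ d ≤ ∑ Z : Finset W, (1 / 64 : ℝ) ^ Z.card := by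
    calc ((smalls W d).card : ℝ) * (1 / 64) ^ d = ∑ Z ∈ smalls W d, (1 / 64 : ℝ) ^ d := by
          rw [Finset.sum_const, nsmul_eq_mul]
      _ ≤ ∑ Z ∈ smalls W d, (1 / 64 : ℝ) ^ Z.card := by
          refine Finset.sum_le_sum fun Z hZ => ?_
          simp only [smalls, Finset.mem_filter, mem_univ, true_and] at hZ
          exact pow_le_pow_of_le_one (by norm_num) (by norm_num) hZ
      _ ≤ _ := Finset.sum_le_sum_of_subset_of_nonneg (Finset.subset_univ _)
          fun _ _ _ => by positivity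
  rw [h1] at h2
  have h3 : (64:ℝ) ^ d * (1 / 64) ^ d = 1 := by rw [← mul_pow]; norm_num
  calc ((smalls W d).card : ℝ) = 64 ^ d * (((smalls W d).card : ℝ) * (1 / 64) ^ d) := by
        linear_combination (-((smalls W d).card : ℝ)) * h3
    _ ≤ _ := mul_le_mul_of_nonneg_left h2 (by positivity)

theorem sg_choose_mid (n x : ℕ) (h1 : n < 16 * x) (h2 : 16 * x ≤ 15 * n) :
    2 ^ n ≤ (n.choose x) ^ 16 := by
  have key : ∀ y : ℕ, n ≤ 16 * y → 2 * y ≤ n → 2 ^ n ≤ (n.choose y) ^ 16 := by
    intro y hy1 hy2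
    calc 2 ^ n ≤ 2 ^ (16 * y) := Nat.pow_le_pow_right (by norm_num) hy1
      _ = (2 ^ y) ^ 16 := by rw [mul_comm, pow_mul]
      _ ≤ ((2 * y).choose y) ^ 16 := Nat.pow_le_pow_left (two_pow_le_central y) 16
      _ ≤ _ := Nat.pow_le_pow_left (Nat.choose_le_choose y hy2) 16
  by_cases h : 2 * x ≤ n
  · exact key x (by omega) h
  · have h3 : n.choose x = n.choose (n - x) := (Nat.choose_symm (by omega)).symm
    rw [h3]
    exact key (n - x) (by omega) (by omega)

theorem sg_mid_real {n d : ℕ} (hn : 8 ≤ n) (hd : 1000 * d ≤ n) {B C F M : ℝ}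
    (hB1 : 1 ≤ B) (hM : 0 ≤ M) (hC0 : 0 ≤ C) (hMC : M * C ≤ B * F) (hC : (2 : ℝ) ^ n ≤ C ^ 16)
    (hB : B ≤ 64 ^ d * (65 / 64) ^ n) : 4 * 2 ^ n * M ^ 40 ≤ F ^ 40 := by
  have hB160 : B ^ 160 ≤ 24 ^ n := by
    calc B ^ 160 ≤ (64 ^ d * (65 / 64 : ℝ) ^ n) ^ 160 := pow_le_pow_left₀ (by linarith) hB 160
      _ = 2 ^ (960 * d) * ((65 / 64 : ℝ) ^ 160) ^ n := by
          rw [mul_pow, ← pow_mul, ← pow_mul, ← pow_mul, show (64:ℝ) = 2 ^ 6 by norm_num,
            ← pow_mul]
          congr 2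
          · ring
          · ring
      _ ≤ 2 ^ n * (12 : ℝ) ^ n := by
          gcongr
          · norm_num
          · omega
          · norm_num
      _ = 24 ^ n := by rw [← mul_pow]; norm_num
  have h256 : (256 : ℝ) ≤ 2 ^ n := by
    calc (256 : ℝ) = 2 ^ 8 := by norm_num
      _ ≤ 2 ^ n := pow_le_pow_right₀ (by norm_num) hn
  have hkey : 4 * 2 ^ n * B ^ 40 ≤ C ^ 40 := by
    have h3 : (4 * 2 ^ n * B ^ 40) ^ 4 ≤ (C ^ 40) ^ 4 := by
      calc (4 * 2 ^ n * B ^ 40) ^ 4 = 256 * 16 ^ n * B ^ 160 := by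
            rw [mul_pow, mul_pow, ← pow_mul, ← pow_mul, mul_comm n 4, pow_mul]
            norm_num
        _ ≤ 2 ^ n * 16 ^ n * 24 ^ n := by gcongr
        _ = 768 ^ n := by rw [← mul_pow, ← mul_pow]; norm_num
        _ ≤ 1024 ^ n := pow_le_pow_left₀ (by norm_num) (by norm_num) n
        _ = ((2:ℝ) ^ n) ^ 10 := by rw [← pow_mul, mul_comm, pow_mul]; norm_num
        _ ≤ (C ^ 16) ^ 10 := pow_le_pow_left₀ (by positivity) hC 10
        _ = (C ^ 40) ^ 4 := by ring
    exact le_of_pow_le_pow_left₀ (by norm_num) (by positivity) h3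
  have h4 : (M * C) ^ 40 ≤ (B * F) ^ 40 := pow_le_pow_left₀ (by positivity) hMC 40
  have h5 : M ^ 40 * (4 * 2 ^ n * B ^ 40) ≤ M ^ 40 * C ^ 40 :=
    mul_le_mul_of_nonneg_left hkey (by positivity)
  have h6 : B ^ 40 * (4 * 2 ^ n * M ^ 40) ≤ B ^ 40 * F ^ 40 := by
    calc B ^ 40 * (4 * 2 ^ n * M ^ 40) = M ^ 40 * (4 * 2 ^ n * B ^ 40) := by ring
      _ ≤ M ^ 40 * C ^ 40 := h5
      _ = (M * C) ^ 40 := by ring
      _ ≤ (B * F) ^ 40 := h4
      _ = _ := by ring
  exact le_of_mul_le_mul_left h6 (by positivity)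

theorem sg_near (X : Finset W) (hn : 8 ≤ Fintype.card W) (h1 : Fintype.card W < 16 * X.card)
    (h2 : 16 * X.card ≤ 15 * Fintype.card W) (d : ℕ) (hd : 1000 * d ≤ Fintype.card W) :
    4 * 2 ^ Fintype.card W * ((near X d).card : ℝ) ^ 40 ≤
      ((Fintype.card W).factorial : ℝ) ^ 40 := by
  refine sg_mid_real (B := ((smalls W d).card : ℝ))
    (C := ((Fintype.card W).choose X.card : ℝ)) hn hd ?_ ?_ ?_ ?_ ?_ (sg_smalls_le d)
  · have : (∅ : Finset W) ∈ smalls W d := by simp [smalls]
    exact_mod_cast Finset.card_pos.mpr ⟨_, this⟩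
  · positivity
  · positivity
  · exact_mod_cast card_near_le X d
  · exact_mod_cast sg_choose_mid (Fintype.card W) X.card h1 h2

/-- all permutations of the family are bad for a set of medium size -/
def sgmid (K d : ℕ) (X : Finset W) : Finset (Fin K → Equiv.Perm W) :=
  univ.filter fun σ => ∀ i, (cr (σ i) X).card ≤ d

theorem sgmid_card (K d : ℕ) (X : Finset W) : (sgmid K d X).card = (near X d).card ^ K := by
  have h1 : sgmid K d X = Fintype.piFinset fun _ => near X d := by
    ext σ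
    rw [Fintype.mem_piFinset]
    simp [sgmid, near]
  rw [h1, Fintype.card_piFinset]
  simp

theorem sg_sum_small :
    ∑ X : Finset W, (if 1 ≤ X.card ∧ 16 * X.card ≤ Fintype.card W then
      (4 * X.card / Fintype.card W : ℝ) ^ (20 * X.card) else 0) ≤ 1 / 4 := by
  set N := Fintype.card W with hN
  have h1 := Finset.sum_powerset_apply_card (fun x : ℕ => if 1 ≤ x ∧ 16 * x ≤ N then
      (4 * x / N : ℝ) ^ (20 * x) else 0) (x := (univ : Finset W))
  rw [Finset.powerset_univ, Finset.card_univ, ← hN] at h1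
  rw [h1]
  calc ∑ m ∈ Finset.range (N + 1), N.choose m • (if 1 ≤ m ∧ 16 * m ≤ N then
        (4 * m / N : ℝ) ^ (20 * m) else 0)
      ≤ ∑ m ∈ Finset.range (N + 1), (if 1 ≤ m then (1 / 8 : ℝ) ^ m else 0) := by
        refine Finset.sum_le_sum fun m _ => ?_
        by_cases h : 1 ≤ m ∧ 16 * m ≤ N
        · rw [if_pos h, if_pos h.1, nsmul_eq_mul]
          exact sg_term N m h.1 h.2
        · rw [if_neg h, smul_zero]
          split_ifs <;> positivity
    _ = (∑ m ∈ Finset.range (N + 1), (1 / 8 : ℝ) ^ m) - 1 := by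
        rw [Finset.sum_range_succ', Finset.sum_range_succ']
        simp
    _ ≤ _ := by
        have h2 := (summable_geometric_of_lt_one (r := (1 / 8 : ℝ)) (by norm_num)
          (by norm_num)).sum_le_tsum (Finset.range (N + 1)) (fun i _ => by positivity)
        rw [tsum_geometric_of_lt_one (by norm_num) (by norm_num)] at h2
        norm_num at h2 ⊢
        linarith

theorem sg_exists_perms (hn : 1000 ≤ Fintype.card W) :
    ∃ σ : Fin 40 → Equiv.Perm W,
      (∀ X : Finset W, X.Nonempty → 16 * X.card ≤ Fintype.card W →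
        ∑ i, sgmv (σ i) X < 20 * X.card) ∧
      (∀ X : Finset W, Fintype.card W < 16 * X.card → 16 * X.card ≤ 15 * Fintype.card W →
        ∃ i, Fintype.card W / 1000 < (cr (σ i) X).card) := by
  classical
  by_contra hcon
  push Not at hcon
  set N := Fintype.card W with hN
  have hsub : (univ : Finset (Fin 40 → Equiv.Perm W)) ⊆
      ((univ.filter fun X : Finset W => 1 ≤ X.card ∧ 16 * X.card ≤ N).biUnion
        fun X => sgbad 40 X) ∪
      ((univ.filter fun X : Finset W => N < 16 * X.card ∧ 16 * X.card ≤ 15 * N).biUnion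
        fun X => sgmid 40 (N / 1000) X) := by
    intro σ _
    rw [Finset.mem_union]
    by_cases hS : ∀ X : Finset W, X.Nonempty → 16 * X.card ≤ N → ∑ i, sgmv (σ i) X < 20 * X.card
    · obtain ⟨X, h1, h2, h3⟩ := hcon σ hS
      right
      rw [Finset.mem_biUnion]
      refine ⟨X, by simp only [Finset.mem_filter, mem_univ, true_and]; exact ⟨h1, h2⟩, ?_⟩
      simp only [sgmid, Finset.mem_filter, mem_univ, true_and]
      exact h3
    · push Not at hS
      obtain ⟨X, h1, h2, h3⟩ := hS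
      left
      rw [Finset.mem_biUnion]
      refine ⟨X, by
        simp only [Finset.mem_filter, mem_univ, true_and]
        exact ⟨Finset.card_pos.mpr h1, h2⟩, ?_⟩
      simp only [sgbad, Finset.mem_filter, mem_univ, true_and]
      exact h3
  have hcard : ((univ : Finset (Fin 40 → Equiv.Perm W)).card : ℝ) = (N.factorial : ℝ) ^ 40 := by
    rw [Finset.card_univ, Fintype.card_fun, Fintype.card_fin, Fintype.card_perm]
    push_cast
    rfl
  have hF : (0 : ℝ) < (N.factorial : ℝ) ^ 40 := by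
    have : (0 : ℝ) < N.factorial := by exact_mod_cast N.factorial_pos
    positivity
  have hle := (Finset.card_le_card hsub).trans (Finset.card_union_le _ _)
  have hle' : (N.factorial : ℝ) ^ 40 ≤
      (((univ.filter fun X : Finset W => 1 ≤ X.card ∧ 16 * X.card ≤ N).biUnion
        fun X => sgbad 40 X).card : ℝ) +
      (((univ.filter fun X : Finset W => N < 16 * X.card ∧ 16 * X.card ≤ 15 * N).biUnion
        fun X => sgmid 40 (N / 1000) X).card : ℝ) := by
    rw [← hcard]
    exact_mod_cast hle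
  have hA : ((((univ.filter fun X : Finset W => 1 ≤ X.card ∧ 16 * X.card ≤ N).biUnion
        fun X => sgbad 40 X).card : ℕ) : ℝ) ≤ (N.factorial : ℝ) ^ 40 * (1 / 4) := by
    calc ((((univ.filter fun X : Finset W => 1 ≤ X.card ∧ 16 * X.card ≤ N).biUnion
        fun X => sgbad 40 X).card : ℕ) : ℝ)
        ≤ ∑ X ∈ univ.filter fun X : Finset W => 1 ≤ X.card ∧ 16 * X.card ≤ N,
          ((sgbad 40 X).card : ℝ) := by exact_mod_cast Finset.card_biUnion_le
      _ ≤ ∑ X ∈ univ.filter fun X : Finset W => 1 ≤ X.card ∧ 16 * X.card ≤ N,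
          (N.factorial : ℝ) ^ 40 * (4 * X.card / N : ℝ) ^ (20 * X.card) := by
          refine Finset.sum_le_sum fun X hX => ?_
          exact sgbad_card X (Finset.mem_filter.mp hX).2.1
      _ = (N.factorial : ℝ) ^ 40 * ∑ X : Finset W, (if 1 ≤ X.card ∧ 16 * X.card ≤ N then
          (4 * X.card / N : ℝ) ^ (20 * X.card) else 0) := by
          rw [Finset.sum_filter, Finset.mul_sum]
          refine Finset.sum_congr rfl fun X _ => ?_
          split_ifs
          · rfl
          · rw [mul_zero]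
      _ ≤ _ := by
          refine mul_le_mul_of_nonneg_left ?_ hF.le
          exact sg_sum_small
  have hB : ((((univ.filter fun X : Finset W => N < 16 * X.card ∧ 16 * X.card ≤ 15 * N).biUnion
        fun X => sgmid 40 (N / 1000) X).card : ℕ) : ℝ) ≤ (N.factorial : ℝ) ^ 40 * (1 / 4) := by
    have h1 : ∀ X ∈ univ.filter fun X : Finset W => N < 16 * X.card ∧ 16 * X.card ≤ 15 * N,
        ((sgmid 40 (N / 1000) X).card : ℝ) ≤ (N.factorial : ℝ) ^ 40 * (1 / 4) / 2 ^ N := by
      intro X hX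
      have h2 := (Finset.mem_filter.mp hX).2
      have h3 := sg_near X (by omega) h2.1 h2.2 (N / 1000) (by omega)
      rw [← hN] at h3
      rw [sgmid_card, le_div_iff₀ (by positivity)]
      push_cast
      linarith
    calc ((((univ.filter fun X : Finset W => N < 16 * X.card ∧ 16 * X.card ≤ 15 * N).biUnion
        fun X => sgmid 40 (N / 1000) X).card : ℕ) : ℝ)
        ≤ ∑ X ∈ univ.filter fun X : Finset W => N < 16 * X.card ∧ 16 * X.card ≤ 15 * N,
          ((sgmid 40 (N / 1000) X).card : ℝ) := by exact_mod_cast Finset.card_biUnion_le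
      _ ≤ ∑ X ∈ univ.filter fun X : Finset W => N < 16 * X.card ∧ 16 * X.card ≤ 15 * N,
          (N.factorial : ℝ) ^ 40 * (1 / 4) / 2 ^ N := Finset.sum_le_sum h1
      _ ≤ ∑ X : Finset W, (N.factorial : ℝ) ^ 40 * (1 / 4) / 2 ^ N :=
          Finset.sum_le_sum_of_subset_of_nonneg (Finset.subset_univ _)
            fun _ _ _ => by positivity
      _ = _ := by
          rw [Finset.sum_const, Finset.card_univ, Fintype.card_finset, nsmul_eq_mul, ← hN]
          push_cast
          field_simp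
  linarith

/-! ### the graph -/

theorem sg_cr_ge (τ : Equiv.Perm W) (X : Finset W) :
    2 * X.card ≤ (cr τ X).card + 2 * sgmv τ X := by
  have h1 : (X.filter fun v => τ v ∈ X).card + (X.filter fun v => ¬ τ v ∈ X).card = X.card :=
    Finset.card_filter_add_card_filter_not _
  have h2 : ((univ.filter fun v => τ v ∈ X).filter fun v => v ∈ X).card +
      ((univ.filter fun v => τ v ∈ X).filter fun v => ¬ v ∈ X).card =
      (univ.filter fun v => τ v ∈ X).card := Finset.card_filter_add_card_filter_not _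
  rw [card_pre] at h2
  have h3 : ((univ.filter fun v => τ v ∈ X).filter fun v => v ∈ X) =
      X.filter fun v => τ v ∈ X := by
    ext v
    simp only [Finset.mem_filter, mem_univ, true_and]
    tauto
  rw [h3] at h2
  have h4 : ((X.filter fun v => ¬ τ v ∈ X) ∪
      ((univ.filter fun v => τ v ∈ X).filter fun v => ¬ v ∈ X)) ⊆ cr τ X := by
    intro v hv
    rw [Finset.mem_union] at hv
    simp only [Finset.mem_filter, mem_univ, true_and] at hv
    simp only [cr, Finset.mem_filter, mem_univ, true_and]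
    tauto
  have h5 := Finset.card_le_card h4
  rw [Finset.card_union_of_disjoint] at h5
  · unfold sgmv
    omega
  · rw [Finset.disjoint_left]
    intro v hv hv'
    simp only [Finset.mem_filter, mem_univ, true_and] at hv hv'
    exact hv'.2 hv.1

theorem sg_cr_compl (τ : Equiv.Perm W) (X : Finset W) : cr τ Xᶜ = cr τ X := by
  ext v
  simp only [cr, Finset.mem_filter, mem_univ, true_and, Finset.mem_compl]
  tauto

/-- edges of the graph: non-loops -/
abbrev SE (σ : Fin 40 → Equiv.Perm W) : Type := {e : Fin 40 × W // σ e.1 e.2 ≠ e.2}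

/-- source -/
def ssrc (σ : Fin 40 → Equiv.Perm W) (e : SE σ) : W := e.1.2

/-- target -/
def stgt (σ : Fin 40 → Equiv.Perm W) (e : SE σ) : W := σ e.1.1 e.1.2

theorem sg_bd_ge (σ : Fin 40 → Equiv.Perm W) (X : Finset W) :
    ∑ i, (cr (σ i) X).card ≤ (bd (ssrc σ) (stgt σ) X).card := by
  have h1 : ∑ i, (cr (σ i) X).card =
      ((univ : Finset (Fin 40)).sigma fun i => cr (σ i) X).card := by
    rw [Finset.card_sigma]
  rw [h1]
  refine Finset.card_le_card_of_surjOn (fun e : SE σ => (⟨e.1.1, e.1.2⟩ : Σ _ : Fin 40, W)) ?_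
  rintro ⟨i, v⟩ hv
  rw [Finset.mem_coe, Finset.mem_sigma] at hv
  have hv2 := hv.2
  simp only [cr, Finset.mem_filter, mem_univ, true_and] at hv2
  refine ⟨⟨(i, v), ?_⟩, ?_, rfl⟩
  · intro h
    apply hv2
    rw [h]
  · rw [Finset.mem_coe, mem_bd]
    exact hv2

theorem sg_deg (σ : Fin 40 → Equiv.Perm W) (w : W) :
    (bd (ssrc σ) (stgt σ) {w}).card ≤ 80 := by
  have h1 : bd (ssrc σ) (stgt σ) {w} ⊆ (univ.filter fun e => ssrc σ e = w) ∪
      (univ.filter fun e => stgt σ e = w) := by
    intro e he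
    rw [mem_bd] at he
    simp only [Finset.mem_union, Finset.mem_filter, mem_univ, true_and]
    simp only [Finset.mem_singleton] at he
    tauto
  have h2 : (univ.filter fun e => ssrc σ e = w).card ≤ (univ : Finset (Fin 40)).card := by
    refine Finset.card_le_card_of_injOn (fun e => e.1.1) (fun _ _ => mem_coe.mpr (mem_univ _)) ?_
    rintro ⟨⟨i, v⟩, h⟩ he ⟨⟨j, u⟩, h'⟩ he' hij
    have he2 : v = w := (Finset.mem_filter.mp (Finset.mem_coe.mp he)).2
    have he3 : u = w := (Finset.mem_filter.mp (Finset.mem_coe.mp he')).2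
    simp only at hij
    subst hij
    rw [Subtype.mk.injEq, Prod.mk.injEq]
    exact ⟨rfl, he2.trans he3.symm⟩
  have h3 : (univ.filter fun e => stgt σ e = w).card ≤ (univ : Finset (Fin 40)).card := by
    refine Finset.card_le_card_of_injOn (fun e => e.1.1) (fun _ _ => mem_coe.mpr (mem_univ _)) ?_
    rintro ⟨⟨i, v⟩, h⟩ he ⟨⟨j, u⟩, h'⟩ he' hij
    have he2 : σ i v = w := (Finset.mem_filter.mp (Finset.mem_coe.mp he)).2
    have he3 : σ j u = w := (Finset.mem_filter.mp (Finset.mem_coe.mp he')).2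
    simp only at hij
    subst hij
    rw [Subtype.mk.injEq, Prod.mk.injEq]
    exact ⟨rfl, (σ i).injective (he2.trans he3.symm)⟩
  have h4 := (Finset.card_le_card h1).trans (Finset.card_union_le _ _)
  rw [Finset.card_univ, Fintype.card_fin] at h2 h3
  omega

/-- edges inside `X` -/
def sgins (σ : Fin 40 → Equiv.Perm W) (X : Finset W) : Finset (SE σ) :=
  univ.filter fun e => ssrc σ e ∈ X ∧ stgt σ e ∈ X

theorem sgins_card (σ : Fin 40 → Equiv.Perm W) (X : Finset W) :
    (sgins σ X).card ≤ ∑ i, sgmv (σ i) X := by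
  have h1 : ∑ i, sgmv (σ i) X =
      ((univ : Finset (Fin 40)).sigma fun i => X.filter fun v => σ i v ∈ X).card := by
    rw [Finset.card_sigma]
    rfl
  rw [h1]
  refine Finset.card_le_card_of_injOn (fun e : SE σ => (⟨e.1.1, e.1.2⟩ : Σ _ : Fin 40, W)) ?_ ?_
  · intro e he
    rw [Finset.mem_coe, sgins, Finset.mem_filter] at he
    rw [Finset.mem_coe, Finset.mem_sigma]
    refine ⟨mem_univ _, ?_⟩
    rw [Finset.mem_filter]
    exact he.2
  · rintro ⟨⟨i, v⟩, h⟩ _ ⟨⟨j, u⟩, h'⟩ _ hij
    simp only [Sigma.mk.injEq, heq_eq_eq] at hij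
    rw [Subtype.mk.injEq, Prod.mk.injEq]
    exact hij

theorem sg_sum_in (σ : Fin 40 → Equiv.Perm W) (X : Finset W) :
    ∑ w ∈ X, (toIn (ssrc σ) (stgt σ) w X).card ≤ 2 * (sgins σ X).card := by
  have h1 : ∀ w ∈ X, (toIn (ssrc σ) (stgt σ) w X).card ≤
      ((sgins σ X).filter fun e => ssrc σ e = w).card +
      ((sgins σ X).filter fun e => stgt σ e = w).card := by
    intro w hw
    refine (Finset.card_le_card ?_).trans (Finset.card_union_le _ _)
    intro e he
    simp only [toIn, Finset.mem_filter, mem_univ, true_and] at he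
    simp only [sgins, Finset.mem_union, Finset.mem_filter, mem_univ, true_and]
    rcases he with ⟨h, h'⟩ | ⟨h, h'⟩
    · left
      rw [h]
      exact ⟨⟨hw, h'⟩, rfl⟩
    · right
      rw [h]
      exact ⟨⟨h', hw⟩, rfl⟩
  refine (Finset.sum_le_sum h1).trans ?_
  rw [Finset.sum_add_distrib]
  have h2 : ∑ w ∈ X, ((sgins σ X).filter fun e => ssrc σ e = w).card = (sgins σ X).card :=
    (Finset.card_eq_sum_card_fiberwise (f := ssrc σ) fun e he => by
      rw [Finset.mem_coe, sgins, Finset.mem_filter] at he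
      exact mem_coe.mpr he.2.1).symm
  have h3 : ∑ w ∈ X, ((sgins σ X).filter fun e => stgt σ e = w).card = (sgins σ X).card :=
    (Finset.card_eq_sum_card_fiberwise (f := stgt σ) fun e he => by
      rw [Finset.mem_coe, sgins, Finset.mem_filter] at he
      exact mem_coe.mpr he.2.2).symm
  rw [h2, h3]
  omega

theorem sg_sum_out (σ : Fin 40 → Equiv.Perm W) (X : Finset W) :
    (bd (ssrc σ) (stgt σ) X).card ≤ ∑ w ∈ X, (toOut (ssrc σ) (stgt σ) w X).card := by
  refine le_trans (Finset.card_le_card ?_) Finset.card_biUnion_le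
  intro e he
  rw [mem_bd] at he
  rw [Finset.mem_biUnion]
  by_cases h : ssrc σ e ∈ X
  · refine ⟨ssrc σ e, h, ?_⟩
    rw [toOut, Finset.mem_filter]
    exact ⟨mem_univ _, Or.inl ⟨rfl, fun h' => he ⟨fun _ => h', fun _ => h⟩⟩⟩
  · have h' : stgt σ e ∈ X := by
      by_contra h'
      exact he ⟨fun h1 => absurd h1 h, fun h1 => absurd h1 h'⟩
    refine ⟨stgt σ e, h', ?_⟩
    rw [toOut, Finset.mem_filter]
    exact ⟨mem_univ _, Or.inr ⟨rfl, h⟩⟩

end Perm

theorem exists_super (n : ℕ) (hn : 1000 ≤ n) :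
    ∃ (E : Type) (_ : Fintype E) (_ : DecidableEq E) (src tgt : E → Fin n),
      SG src tgt 80 1000 ∧ Fintype.card E ≤ 40 * n := by
  obtain ⟨σ, hS, hM⟩ := sg_exists_perms (W := Fin n) (by rwa [Fintype.card_fin])
  rw [Fintype.card_fin] at hS hM
  refine ⟨SE σ, inferInstance, inferInstance, ssrc σ, stgt σ, ⟨?_, sg_deg σ, ?_, ?_⟩, ?_⟩
  · intro e h
    exact e.2 h.symm
  · intro X
    rw [Fintype.card_fin]
    have hXn : X.card ≤ n := by
      have := Finset.card_le_univ X
      rwa [Fintype.card_fin] at this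
    have hsmall : ∀ Y : Finset (Fin n), 16 * Y.card ≤ n →
        Y.card ≤ ∑ i, (cr (σ i) Y).card := by
      intro Y hY
      rcases Y.eq_empty_or_nonempty with h0 | h0
      · rw [h0]
        simp
      · have h1 := hS Y h0 hY
        have h2 : ∑ i : Fin 40, 2 * Y.card ≤ ∑ i, ((cr (σ i) Y).card + 2 * sgmv (σ i) Y) :=
          Finset.sum_le_sum fun i _ => sg_cr_ge (σ i) Y
        rw [Finset.sum_const, Finset.sum_add_distrib, ← Finset.mul_sum, Finset.card_univ,
          Fintype.card_fin, smul_eq_mul] at h2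
        omega
    have hb := sg_bd_ge σ X
    by_cases h1 : 16 * X.card ≤ n
    · have := hsmall X h1
      have h2 := Nat.min_le_left X.card (n - X.card)
      omega
    · by_cases h2 : 16 * X.card ≤ 15 * n
      · obtain ⟨i, hi⟩ := hM X (by omega) h2
        have h3 : (cr (σ i) X).card ≤ ∑ i, (cr (σ i) X).card :=
          Finset.single_le_sum (f := fun i => (cr (σ i) X).card) (fun _ _ => Nat.zero_le _)
            (mem_univ i)
        have h4 := Nat.min_le_left X.card (n - X.card)
        omega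
      · have h3 : Xᶜ.card = n - X.card := by rw [Finset.card_compl, Fintype.card_fin]
        have h4 := hsmall Xᶜ (by omega)
        simp only [sg_cr_compl] at h4
        have h5 := Nat.min_le_right X.card (n - X.card)
        omega
  · intro X hX hXn
    rw [Fintype.card_fin] at hXn
    by_contra hcon
    push Not at hcon
    have h1 := Finset.sum_le_sum hcon
    have h2 := sg_sum_out σ X
    have h3 := sg_sum_in σ X
    have h4 := sgins_card σ X
    have h5 := sg_bd_ge σ X
    have h6 : ∑ i : Fin 40, 2 * X.card ≤ ∑ i, ((cr (σ i) X).card + 2 * sgmv (σ i) X) :=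
      Finset.sum_le_sum fun i _ => sg_cr_ge (σ i) X
    rw [Finset.sum_const, Finset.sum_add_distrib, ← Finset.mul_sum, Finset.card_univ,
      Fintype.card_fin, smul_eq_mul] at h6
    have h7 := hS X hX hXn
    omega
  · refine (Fintype.card_subtype_le _).trans ?_
    rw [Fintype.card_prod, Fintype.card_fin, Fintype.card_fin]

end Pool.Agent.H3.Frg2
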