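import Mathlib
import Pool.Agent.H3.Frg2.Defs

set_option autoImplicit false
set_option linter.unusedSectionVars false

/-!
# Module C (BLOWUP): expansion of the blow-up and the closure of a small set of variables

## `blow_cheeger`
Let `n = card Wv`, `X ⊆ Wv × Fin r`, `f w = #{α : (w, α) ∈ X} ≤ r`, `m w = min (f w) (r - f w)`,
`B = {w : r < 2 f w}`. For an edge `e` with ends `w1 = src e ≠ w2 = tgt e`, the number of
`v ∈ bb X` with `v.1 = e` is `f w1 (r - f w2) + (r - f w1) f w2`. This number
* is at least `r * m w1` and at least `r * m w2` (`≥ m w1 (r - f w2) + m w1 f w2`),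
* is at least `r^2/2` if `e ∈ bd B` (if `f w1 > r/2 ≥ f w2` then
  `f w1 (r - f w2) + (r - f w1) f w2 ≥ r^2/2`: it is `r²/2 + 2 (f w1 - r/2)(r/2 - f w2)`).
Hence `2 |bb X| ≥ r² |bd B|` and `2 |bb X| ≥ ∑_e r (m (src e) + m (tgt e)) ≥ r ∑_w m w`, because
every `w` is the end of at least one edge (apply `cheeger` to `{w}`: `1 ≤ c0 * |bd {w}|` as
`2 ≤ card Wv`).
Now `|X| ≤ r |B| + ∑_w m w` and `n r - |X| ≤ r (n - |B|) + ∑_w m w`, so
`min |X| (n r - |X|) ≤ r * min |B| (n - |B|) + ∑ m ≤ r c0 |bd B| + ∑ m`, and
`r * min … ≤ c0 r² |bd B| + r ∑ m ≤ 2 (1 + c0) |bb X|`.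

## `exists_closure`
`𝓕 = {X : 2 |X| ≤ n r, bb X ⊆ S0}`. For `X ∈ 𝓕`, `blow_cheeger` gives
`r |X| ≤ 2 (1 + c0) |S0|` (as `min |X| (nr - |X|) = |X|`). `𝓕` contains `∅` and is closed under
unions: `bb (X ∪ X') ⊆ bb X ∪ bb X' ⊆ S0` and
`r * 2 |X ∪ X'| ≤ 8 (1 + c0) |S0| ≤ r * (n r)`. Take for `Y` the union of `𝓕`
(an element of `𝓕` of maximal cardinality contains all the others). If `bb X ⊆ S0` then
`2 |X| ≤ n r` or `2 |Xᶜ| ≤ n r`, and `bb Xᶜ = bb X`; so `X ∈ 𝓕` or `Xᶜ ∈ 𝓕`.
-/

namespace Pool.Agent.H3.Frg2

open Finset Pool.Agent.H3.Frg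

variable {E Wv : Type} [Fintype E] [DecidableEq E] [Fintype Wv] [DecidableEq Wv]

/-- number of elements of `X` in the fibre of `w` -/
def bFib {r : ℕ} (X : Finset (Wv × Fin r)) (w : Wv) : ℕ :=
  (univ.filter fun α : Fin r => (w, α) ∈ X).card

theorem bFib_le {r : ℕ} (X : Finset (Wv × Fin r)) (w : Wv) : bFib X w ≤ r := by
  unfold bFib
  exact (Finset.card_le_univ _).trans (by simp)

theorem card_eq_sum_bFib {r : ℕ} (X : Finset (Wv × Fin r)) : X.card = ∑ w, bFib X w := by
  rw [Finset.card_eq_sum_card_fiberwise (f := Prod.fst) (t := univ) (fun x _ => mem_univ _)]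
  refine Finset.sum_congr rfl fun w _ => ?_
  unfold bFib
  symm
  refine Finset.card_bij (fun α _ => (w, α)) ?_ ?_ ?_
  · intro α hα
    simp only [mem_filter, mem_univ, true_and] at hα ⊢
    exact ⟨hα, trivial⟩
  · intro α _ β _ h
    exact (Prod.mk.inj h).2
  · rintro ⟨w', α⟩ h
    simp only [mem_filter] at h
    obtain ⟨h1, h2⟩ := h
    subst h2
    exact ⟨α, by simpa using h1, rfl⟩

theorem card_compl_filter {r : ℕ} (X : Finset (Wv × Fin r)) (w : Wv) :
    (univ.filter fun α : Fin r => (w, α) ∉ X).card = r - bFib X w := by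
  have h := Finset.card_filter_add_card_filter_not (s := (univ : Finset (Fin r)))
    (fun α : Fin r => (w, α) ∈ X)
  rw [Finset.card_univ, Fintype.card_fin] at h
  unfold bFib
  omega

theorem card_bb {src tgt : E → Wv} {r : ℕ} (X : Finset (Wv × Fin r)) :
    (bb src tgt r X).card = ∑ e, (bFib X (src e) * (r - bFib X (tgt e)) +
      (r - bFib X (src e)) * bFib X (tgt e)) := by
  rw [Finset.card_eq_sum_card_fiberwise (f := Prod.fst) (t := univ) (fun x _ => mem_univ _)]
  refine Finset.sum_congr rfl fun e _ => ?_
  have h1 : ((bb src tgt r X).filter fun v => v.1 = e).card =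
      (univ.filter fun q : Fin r × Fin r => ¬ ((src e, q.1) ∈ X ↔ (tgt e, q.2) ∈ X)).card := by
    symm
    refine Finset.card_bij (fun q _ => (e, q)) ?_ ?_ ?_
    · intro q hq
      simp only [mem_filter, mem_univ, true_and] at hq
      rw [mem_filter, mem_bb]
      exact ⟨hq, rfl⟩
    · intro q _ q' _ h
      exact (Prod.mk.inj h).2
    · rintro ⟨e', q⟩ h
      rw [mem_filter, mem_bb] at h
      obtain ⟨h1, h2⟩ := h
      simp only at h2
      subst h2
      exact ⟨q, by simpa using h1, rfl⟩
  rw [h1]
  have h2 : (univ.filter fun q : Fin r × Fin r => ¬ ((src e, q.1) ∈ X ↔ (tgt e, q.2) ∈ X)) =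
      ((univ.filter fun α : Fin r => (src e, α) ∈ X) ×ˢ
        (univ.filter fun β : Fin r => (tgt e, β) ∉ X)) ∪
      ((univ.filter fun α : Fin r => (src e, α) ∉ X) ×ˢ
        (univ.filter fun β : Fin r => (tgt e, β) ∈ X)) := by
    ext q
    simp only [mem_filter, mem_univ, true_and, mem_union, mem_product]
    tauto
  rw [h2, Finset.card_union_of_disjoint, Finset.card_product, Finset.card_product,
    card_compl_filter, card_compl_filter]
  · rfl
  · rw [Finset.disjoint_left]
    intro q hq hq'
    simp only [mem_filter, mem_univ, true_and, mem_product] at hq hq'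
    exact hq'.1 hq.1

theorem edge_ge_left {r a b : ℕ} (ha : a ≤ r) (hb : b ≤ r) :
    r * min a (r - a) ≤ a * (r - b) + (r - a) * b := by
  obtain ⟨c, rfl⟩ := Nat.exists_eq_add_of_le hb
  rw [Nat.add_sub_cancel_left]
  calc (b + c) * min a (b + c - a) = min a (b + c - a) * c + min a (b + c - a) * b := by ring
    _ ≤ a * c + (b + c - a) * b := Nat.add_le_add (Nat.mul_le_mul_right _ (min_le_left _ _))
        (Nat.mul_le_mul_right _ (min_le_right _ _))

theorem edge_ge_cut {r a b : ℕ} (ha : a ≤ r) (hb : b ≤ r) (h : r < 2 * a) (h' : 2 * b ≤ r) :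
    r * r ≤ 2 * (a * (r - b) + (r - a) * b) := by
  zify [ha, hb]
  have h1 : (r : ℤ) < 2 * a := by exact_mod_cast h
  have h2 : 2 * (b : ℤ) ≤ r := by exact_mod_cast h'
  nlinarith [mul_nonneg (by linarith : (0 : ℤ) ≤ 2 * a - r) (by linarith : (0 : ℤ) ≤ r - 2 * b)]

theorem blow_cheeger {src tgt : E → Wv} {D c0 : ℕ} (h : SG src tgt D c0)
    (hW : 2 ≤ Fintype.card Wv) {r : ℕ} (X : Finset (Wv × Fin r)) :
    r * min X.card (Fintype.card Wv * r - X.card) ≤ 2 * (1 + c0) * (bb src tgt r X).card := by
  classical
  set n := Fintype.card Wv with hn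
  set f : Wv → ℕ := bFib X with hf
  have hfr : ∀ w, f w ≤ r := bFib_le X
  set m : Wv → ℕ := fun w => min (f w) (r - f w) with hm
  set B : Finset Wv := univ.filter fun w => r < 2 * f w with hB
  have hXsum : X.card = ∑ w, f w := card_eq_sum_bFib X
  -- the count of boundary edges
  have h2bb1 : r * r * (bd src tgt B).card ≤ 2 * (bb src tgt r X).card := by
    rw [card_bb, Finset.mul_sum, mul_comm, Finset.card_eq_sum_ones, Finset.sum_mul]
    refine (Finset.sum_le_sum_of_subset_of_nonneg (Finset.subset_univ _)
      (f := fun e => if e ∈ bd src tgt B then r * r else 0) (fun _ _ _ => Nat.zero_le _)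
      |> le_trans (Finset.sum_le_sum fun e he => ?_)).trans ?_
    · rw [if_pos he, one_mul]
    · refine Finset.sum_le_sum fun e _ => ?_
      split_ifs with he
      · rw [mem_bd] at he
        by_cases h1 : src e ∈ B
        · have h2 : tgt e ∉ B := fun h2 => he ⟨fun _ => h2, fun _ => h1⟩
          simp only [hB, mem_filter, mem_univ, true_and] at h1 h2
          exact edge_ge_cut (hfr _) (hfr _) h1 (not_lt.1 h2)
        · have h2 : tgt e ∈ B := by
            by_contra h2
            exact he ⟨fun h3 => absurd h3 h1, fun h3 => absurd h3 h2⟩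
          simp only [hB, mem_filter, mem_univ, true_and] at h1 h2
          have := edge_ge_cut (hfr (tgt e)) (hfr (src e)) h2 (by omega)
          calc r * r ≤ _ := this
            _ = _ := by ring
      · exact Nat.zero_le _
  have h2bb2 : r * ∑ w, m w ≤ 2 * (bb src tgt r X).card := by
    have h1 : ∑ w, m w ≤ ∑ e, (m (src e) + m (tgt e)) := by
      have h2 : ∀ w, m w ≤ ∑ e, ((if src e = w then m w else 0) + (if tgt e = w then m w else 0)) := by
        intro w
        have h3 : (bd src tgt {w}).Nonempty := by
          rw [← Finset.card_pos]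
          have h4 := h.cheeger {w}
          rw [Finset.card_singleton] at h4
          have h5 : 1 ≤ min 1 (Fintype.card Wv - 1) := by
            rw [le_min_iff]; omega
          by_contra h6
          have h7 : (bd src tgt {w}).card = 0 := by omega
          rw [h7, mul_zero] at h4
          omega
        obtain ⟨e, he⟩ := h3
        rw [mem_bd, Finset.mem_singleton, Finset.mem_singleton] at he
        have h8 : src e = w ∨ tgt e = w := by
          by_contra h9
          push Not at h9
          exact he ⟨fun h10 => absurd h10 h9.1, fun h10 => absurd h10 h9.2⟩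
        refine le_trans ?_ (Finset.single_le_sum (f := fun e =>
          ((if src e = w then m w else 0) + (if tgt e = w then m w else 0)))
          (fun _ _ => Nat.zero_le _) (Finset.mem_univ e))
        rcases h8 with h8 | h8
        · simp only [h8, if_true]; omega
        · simp only [h8, if_true]; omega
      calc ∑ w, m w ≤ ∑ w, ∑ e, ((if src e = w then m w else 0) + (if tgt e = w then m w else 0)) :=
            Finset.sum_le_sum fun w _ => h2 w
        _ = ∑ e, ∑ w, ((if src e = w then m w else 0) + (if tgt e = w then m w else 0)) :=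
            Finset.sum_comm
        _ = ∑ e, (m (src e) + m (tgt e)) := by
            refine Finset.sum_congr rfl fun e _ => ?_
            rw [Finset.sum_add_distrib, Finset.sum_ite_eq, Finset.sum_ite_eq]
            simp
    calc r * ∑ w, m w ≤ r * ∑ e, (m (src e) + m (tgt e)) := Nat.mul_le_mul_left _ h1
      _ = ∑ e, (r * m (src e) + r * m (tgt e)) := by
          rw [Finset.mul_sum]; exact Finset.sum_congr rfl fun e _ => by ring
      _ ≤ ∑ e, 2 * (f (src e) * (r - f (tgt e)) + (r - f (src e)) * f (tgt e)) := by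
          refine Finset.sum_le_sum fun e _ => ?_
          have h3 := edge_ge_left (hfr (src e)) (hfr (tgt e))
          have h4 := edge_ge_left (hfr (tgt e)) (hfr (src e))
          have h5 : f (tgt e) * (r - f (src e)) + (r - f (tgt e)) * f (src e) =
            f (src e) * (r - f (tgt e)) + (r - f (src e)) * f (tgt e) := by ring
          rw [h5] at h4
          simp only [hm]
          omega
      _ = 2 * (bb src tgt r X).card := by rw [← Finset.mul_sum, card_bb]
  -- the comparison of cardinalities
  have hc1 : X.card ≤ r * B.card + ∑ w, m w := by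
    rw [hXsum]
    calc ∑ w, f w ≤ ∑ w, ((if w ∈ B then r else 0) + m w) := by
          refine Finset.sum_le_sum fun w _ => ?_
          by_cases hw : w ∈ B
          · rw [if_pos hw]; have := hfr w; omega
          · rw [if_neg hw]
            simp only [hB, mem_filter, mem_univ, true_and] at hw
            simp only [hm, zero_add, le_min_iff]
            omega
      _ = r * B.card + ∑ w, m w := by
          rw [Finset.sum_add_distrib, Finset.sum_ite_mem, Finset.univ_inter, Finset.sum_const,
            smul_eq_mul, mul_comm]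
  have hc2 : n * r - X.card ≤ r * (n - B.card) + ∑ w, m w := by
    have h1 : n * r - X.card = ∑ w, (r - f w) := by
      have h2 : ∑ w, (r - f w) + ∑ w, f w = n * r := by
        rw [← Finset.sum_add_distrib]
        have : ∀ w ∈ (univ : Finset Wv), (r - f w) + f w = r := fun w _ => by
          have := hfr w; omega
        rw [Finset.sum_congr rfl this, Finset.sum_const, smul_eq_mul, Finset.card_univ]
      rw [hXsum]; omega
    rw [h1]
    calc ∑ w, (r - f w) ≤ ∑ w, ((if w ∈ Bᶜ then r else 0) + m w) := by
          refine Finset.sum_le_sum fun w _ => ?_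
          by_cases hw : w ∈ B
          · have hw' : w ∉ Bᶜ := by simpa using hw
            rw [if_neg hw']
            simp only [hB, mem_filter, mem_univ, true_and] at hw
            simp only [hm, zero_add, le_min_iff]
            omega
          · have hw' : w ∈ Bᶜ := by simpa using hw
            rw [if_pos hw']; omega
      _ = r * (n - B.card) + ∑ w, m w := by
          rw [Finset.sum_add_distrib, Finset.sum_ite_mem, Finset.univ_inter, Finset.sum_const,
            smul_eq_mul, mul_comm, Finset.card_compl]
  have hch := h.cheeger B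
  have hmin : min X.card (n * r - X.card) ≤ r * min B.card (n - B.card) + ∑ w, m w := by
    rcases le_total B.card (n - B.card) with h1 | h1
    · rw [min_eq_left h1]; exact (min_le_left _ _).trans hc1
    · rw [min_eq_right h1]; exact (min_le_right _ _).trans hc2
  calc r * min X.card (n * r - X.card)
      ≤ r * (r * min B.card (n - B.card) + ∑ w, m w) := Nat.mul_le_mul_left _ hmin
    _ ≤ r * (r * (c0 * (bd src tgt B).card) + ∑ w, m w) := by
        refine Nat.mul_le_mul_left _ (Nat.add_le_add_right (Nat.mul_le_mul_left _ hch) _)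
    _ = c0 * (r * r * (bd src tgt B).card) + r * ∑ w, m w := by ring
    _ ≤ c0 * (2 * (bb src tgt r X).card) + 2 * (bb src tgt r X).card :=
        Nat.add_le_add (Nat.mul_le_mul_left _ h2bb1) h2bb2
    _ = 2 * (1 + c0) * (bb src tgt r X).card := by ring

theorem card_bb_singleton {src tgt : E → Wv} {D c0 : ℕ} (h : SG src tgt D c0) {r : ℕ}
    (v : Wv × Fin r) : (bb src tgt r {v}).card ≤ D * r := by
  classical
  obtain ⟨w, α⟩ := v
  have h1 : bb src tgt r {(w, α)} ⊆ ((bd src tgt {w}) ×ˢ (univ : Finset (Fin r))).image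
      (fun q => if src q.1 = w then (q.1, α, q.2) else (q.1, q.2, α)) := by
    rintro ⟨e, a, b⟩ hv
    rw [mem_bb] at hv
    simp only [Finset.mem_singleton, Prod.mk.injEq] at hv
    rw [Finset.mem_image]
    have hloop := h.loopless e
    by_cases hs : src e = w
    · have ht : tgt e ≠ w := fun h2 => hloop (hs.trans h2.symm)
      have ha : a = α := by
        by_contra ha
        exact hv ⟨fun h3 => absurd h3.2 ha, fun h3 => absurd h3.1 ht⟩
      refine ⟨(e, b), ?_, ?_⟩
      · rw [Finset.mem_product, mem_bd]
        simp [hs, ht]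
      · simp [hs, ha]
    · have ht : tgt e = w := by
        by_contra ht
        exact hv ⟨fun h3 => absurd h3.1 hs, fun h3 => absurd h3.1 ht⟩
      have hb : b = α := by
        by_contra hb
        exact hv ⟨fun h3 => absurd h3.1 hs, fun h3 => absurd h3.2 hb⟩
      refine ⟨(e, a), ?_, ?_⟩
      · rw [Finset.mem_product, mem_bd]
        simp [hs, ht]
      · simp [hs, hb]
  calc (bb src tgt r {(w, α)}).card ≤ _ := Finset.card_le_card h1
    _ ≤ ((bd src tgt {w}) ×ˢ (univ : Finset (Fin r))).card := Finset.card_image_le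
    _ = (bd src tgt {w}).card * r := by rw [Finset.card_product, Finset.card_univ, Fintype.card_fin]
    _ ≤ D * r := Nat.mul_le_mul_right _ (h.deg w)

theorem exists_closure {src tgt : E → Wv} {D c0 : ℕ} (h : SG src tgt D c0)
    (hW : 2 ≤ Fintype.card Wv) {r : ℕ} (hr : 1 ≤ r) (S0 : Finset (E × Fin r × Fin r))
    (hS : 8 * (1 + c0) * S0.card ≤ r * (Fintype.card Wv * r)) :
    ∃ Y : Finset (Wv × Fin r), bb src tgt r Y ⊆ S0 ∧
      r * Y.card ≤ 2 * (1 + c0) * S0.card ∧
      ∀ X : Finset (Wv × Fin r), bb src tgt r X ⊆ S0 → X ⊆ Y ∨ Xᶜ ⊆ Y := by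
  classical
  set n := Fintype.card Wv with hn
  set F : Finset (Finset (Wv × Fin r)) := univ.filter fun X =>
    2 * X.card ≤ n * r ∧ bb src tgt r X ⊆ S0 with hF
  have hsmall : ∀ X ∈ F, r * X.card ≤ 2 * (1 + c0) * S0.card := by
    intro X hX
    simp only [hF, mem_filter, mem_univ, true_and] at hX
    have h1 := blow_cheeger h hW X
    have h2 : min X.card (Fintype.card Wv * r - X.card) = X.card :=
      min_eq_left (by rw [← hn]; omega)
    rw [h2] at h1
    exact h1.trans (Nat.mul_le_mul_left _ (Finset.card_le_card hX.2))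
  have hempty : (∅ : Finset (Wv × Fin r)) ∈ F := by
    simp only [hF, mem_filter, mem_univ, true_and, Finset.card_empty]
    refine ⟨by omega, ?_⟩
    rw [bb, bd_empty]
    exact Finset.empty_subset _
  have hunion : ∀ X ∈ F, ∀ X' ∈ F, X ∪ X' ∈ F := by
    intro X hX X' hX'
    have h1 := hsmall X hX
    have h2 := hsmall X' hX'
    simp only [hF, mem_filter, mem_univ, true_and] at hX hX' ⊢
    constructor
    · have h3 : r * (2 * (X ∪ X').card) ≤ r * (n * r) := by
        calc r * (2 * (X ∪ X').card) ≤ r * (2 * (X.card + X'.card)) :=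
              Nat.mul_le_mul_left _ (Nat.mul_le_mul_left _ (Finset.card_union_le _ _))
          _ = 2 * (r * X.card) + 2 * (r * X'.card) := by ring
          _ ≤ 2 * (2 * (1 + c0) * S0.card) + 2 * (2 * (1 + c0) * S0.card) :=
              Nat.add_le_add (Nat.mul_le_mul_left _ h1) (Nat.mul_le_mul_left _ h2)
          _ = 8 * (1 + c0) * S0.card := by ring
          _ ≤ r * (n * r) := hS
      exact Nat.le_of_mul_le_mul_left h3 (by omega)
    · intro v hv
      rw [mem_bb] at hv
      simp only [Finset.mem_union] at hv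
      by_cases h3 : v ∈ bb src tgt r X
      · exact hX.2 h3
      · by_cases h4 : v ∈ bb src tgt r X'
        · exact hX'.2 h4
        · rw [mem_bb] at h3 h4
          push Not at h3 h4
          exfalso
          apply hv
          rw [h3, h4]
  obtain ⟨Y, hY, hmax⟩ := Finset.exists_max_image F Finset.card ⟨∅, hempty⟩
  have hsub : ∀ X ∈ F, X ⊆ Y := by
    intro X hX
    have h1 := hmax _ (hunion X hX Y hY)
    have h2 : Y = X ∪ Y := Finset.eq_of_subset_of_card_le Finset.subset_union_right h1
    rw [h2]
    exact Finset.subset_union_left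
  refine ⟨Y, ?_, hsmall Y hY, fun X hX => ?_⟩
  · simp only [hF, mem_filter, mem_univ, true_and] at hY
    exact hY.2
  · by_cases h1 : 2 * X.card ≤ n * r
    · left
      apply hsub
      simp only [hF, mem_filter, mem_univ, true_and]
      exact ⟨h1, hX⟩
    · right
      apply hsub
      simp only [hF, mem_filter, mem_univ, true_and]
      refine ⟨?_, ?_⟩
      · rw [Finset.card_compl, Fintype.card_prod, Fintype.card_fin, ← hn]
        omega
      · intro v hv
        apply hX
        rw [mem_bb] at hv ⊢
        simp only [Finset.mem_compl] at hv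
        tauto

end Pool.Agent.H3.Frg2
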