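import Mathlib
import Pool.Agent.H3.Frg2.Defs

set_option autoImplicit false
set_option linter.unusedSectionVars false

/-!
# Module D (DUAL): a dual family of disjoint sets of edges on a small set of vertices

Induction on `|X|` with the stronger statement that moreover `π w ⊆ touch X` for `w ∈ X`, where
`touch X = {e : src e ∈ X ∨ tgt e ∈ X}`.

Step: `X` nonempty, `16 |X| ≤ n`. By `peel` there is `w0 ∈ X` with
`(toIn w0 X).card < (toOut w0 X).card`. Let `X' = X.erase w0`, `π'` a family for `X'`.
`toIn w0 X` = the edges between `w0` and `X'` (no loops!), `toOut w0 X` = the edges between `w0` and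
`Xᶜ`; these two sets are disjoint, with union `bd {w0}`. The edges of `toOut w0 X` do not touch `X'`,
so they are in no `π' w`, `w ∈ X'`, and in no `bd {w'}`, `w' ∈ X'`.
Let `Q = {w ∈ X' : Odd (π' w ∩ bd {w0}).card}`. For `w ∈ Q` the set `π' w ∩ bd {w0}` is a nonempty
subset of `toIn w0 X` (edges of `bd {w0}` that touch `X'`), and these sets are disjoint, so
`|Q| ≤ |toIn w0 X| < |toOut w0 X|`. Choose an injective `f` from `insert w0 Q` into `toOut w0 X`
(`Finset.exists_injOn…` or `Finset.exists_subset_card_eq` with an equiv) and put `π w0 = {f w0}`,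
`π w = insert (f w) (π' w)` for `w ∈ Q`, `π w = π' w` for `w ∈ X' \ Q`. Check: for `w, w' ∈ X'`
`π w ∩ bd {w'} = π' w ∩ bd {w'}`; `(π w ∩ bd {w0}).card` is even for `w ∈ X'` by construction;
`π w0 ∩ bd {w0} = {f w0}`, `π w0 ∩ bd {w'} = ∅` for `w' ∈ X'`.
-/

namespace Pool.Agent.H3.Frg2

open Finset Pool.Agent.H3.Frg

variable {E Wv : Type} [Fintype E] [DecidableEq E] [Fintype Wv] [DecidableEq Wv]

private theorem mem_bd_singleton {src tgt : E → Wv} {D c0 : ℕ} (h : SG src tgt D c0) (e : E)
    (w : Wv) : e ∈ bd src tgt {w} ↔ (src e = w ∨ tgt e = w) := by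
  rw [mem_bd, mem_singleton, mem_singleton]
  have h1 := h.loopless e
  constructor
  · intro h2
    by_contra h3
    push Not at h3
    exact h2 ⟨fun h4 => absurd h4 h3.1, fun h4 => absurd h4 h3.2⟩
  · rintro (h2 | h2) h3
    · exact h1 (h2.trans (h3.1 h2).symm)
    · exact h1 ((h3.2 h2).trans h2.symm)

private theorem exists_inj_into {A B : Type} [DecidableEq A] [DecidableEq B] (S : Finset A)
    (T : Finset B) (hS : S.Nonempty) (hST : S.card ≤ T.card) :
    ∃ f : A → B, (∀ a ∈ S, f a ∈ T) ∧ ∀ a ∈ S, ∀ b ∈ S, f a = f b → a = b := by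
  obtain ⟨g⟩ : Nonempty ({x // x ∈ S} ↪ {x // x ∈ T}) := by
    apply Function.Embedding.nonempty_of_card_le
    simpa using hST
  obtain ⟨s, hs⟩ := hS
  refine ⟨fun a => if h : a ∈ S then (g ⟨a, h⟩ : B) else (g ⟨s, hs⟩ : B), ?_, ?_⟩
  · intro a ha
    show (if h : a ∈ S then (g ⟨a, h⟩ : B) else (g ⟨s, hs⟩ : B)) ∈ T
    rw [dif_pos ha]
    exact (g ⟨a, ha⟩).2
  · intro a ha b hb hab
    have hab : (if h : a ∈ S then (g ⟨a, h⟩ : B) else (g ⟨s, hs⟩ : B)) =
        (if h : b ∈ S then (g ⟨b, h⟩ : B) else (g ⟨s, hs⟩ : B)) := hab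
    rw [dif_pos ha, dif_pos hb] at hab
    have := g.injective (Subtype.ext hab)
    exact congrArg Subtype.val this

private theorem exists_dual_aux {src tgt : E → Wv} {D c0 : ℕ} (h : SG src tgt D c0) (k : ℕ) :
    ∀ X : Finset Wv, X.card = k → 16 * X.card ≤ Fintype.card Wv →
    ∃ π : Wv → Finset E,
      (∀ w ∈ X, ∀ w' ∈ X, (Odd (π w ∩ bd src tgt {w'}).card ↔ w = w')) ∧
      (∀ w ∈ X, ∀ w' ∈ X, w ≠ w' → Disjoint (π w) (π w')) ∧
      (∀ w ∈ X, ∀ e ∈ π w, src e ∈ X ∨ tgt e ∈ X) := by
  induction k with
  | zero =>
    intro X hX _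
    rw [card_eq_zero] at hX
    subst hX
    refine ⟨fun _ => ∅, ?_, ?_, ?_⟩ <;> intro w hw <;> simp at hw
  | succ k ih =>
    intro X hXk hX
    have hne : X.Nonempty := by
      rw [← card_pos]
      omega
    obtain ⟨w0, hw0, hlt⟩ := h.peel X hne hX
    have hcard : (X.erase w0).card = k := by
      rw [card_erase_of_mem hw0, hXk]
      rfl
    obtain ⟨π', h1, h2, h3⟩ := ih (X.erase w0) hcard (by omega)
    have hbd := mem_bd_singleton h
    set Q : Finset Wv := (X.erase w0).filter fun w => Odd (π' w ∩ bd src tgt {w0}).card with hQ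
    have hQc : Q.card ≤ (toIn src tgt w0 X).card := by
      calc Q.card = ∑ w ∈ Q, 1 := by simp
        _ ≤ ∑ w ∈ Q, (π' w ∩ bd src tgt {w0}).card := by
            apply sum_le_sum
            intro w hw
            exact (mem_filter.1 hw).2.pos
        _ = (Q.biUnion fun w => π' w ∩ bd src tgt {w0}).card := by
            rw [card_biUnion]
            intro w hw w' hw' hww
            exact (h2 w (mem_filter.1 hw).1 w' (mem_filter.1 hw').1 hww).mono
              inter_subset_left inter_subset_left
        _ ≤ (toIn src tgt w0 X).card := by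
            apply card_le_card
            intro e he
            obtain ⟨w, hw, he⟩ := mem_biUnion.1 he
            obtain ⟨he1, he2⟩ := mem_inter.1 he
            have h4 := h3 w (mem_filter.1 hw).1 e he1
            rw [hbd] at he2
            refine mem_filter.2 ⟨mem_univ _, ?_⟩
            rcases he2 with he2 | he2
            · left
              refine ⟨he2, ?_⟩
              rcases h4 with h4 | h4
              · exact absurd he2 (mem_erase.1 h4).1
              · exact (mem_erase.1 h4).2
            · right
              refine ⟨he2, ?_⟩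
              rcases h4 with h4 | h4
              · exact (mem_erase.1 h4).2
              · exact absurd he2 (mem_erase.1 h4).1
    have hw0Q : w0 ∉ Q := fun hm => (mem_erase.1 (mem_filter.1 hm).1).1 rfl
    obtain ⟨f, hf1, hf2⟩ := exists_inj_into (insert w0 Q) (toOut src tgt w0 X)
      (insert_nonempty _ _) (by rw [card_insert_of_notMem hw0Q]; omega)
    -- properties of the edges of `toOut`
    have ho1 : ∀ e ∈ toOut src tgt w0 X, e ∈ bd src tgt {w0} := by
      intro e he
      rw [hbd]
      rcases (mem_filter.1 he).2 with he | he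
      · exact Or.inl he.1
      · exact Or.inr he.1
    have ho2 : ∀ e ∈ toOut src tgt w0 X, ∀ w' ∈ X, w' ≠ w0 → e ∉ bd src tgt {w'} := by
      intro e he w' hw' hne he2
      rw [hbd] at he2
      rcases (mem_filter.1 he).2 with he | he
      · rcases he2 with he2 | he2
        · exact hne (he2.symm.trans he.1)
        · rw [he2] at he
          exact he.2 hw'
      · rcases he2 with he2 | he2
        · rw [he2] at he
          exact he.2 hw'
        · exact hne (he2.symm.trans he.1)
    have ho3 : ∀ e ∈ toOut src tgt w0 X, ∀ w ∈ X.erase w0, e ∉ π' w := by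
      intro e he w hw he2
      have h4 := h3 w hw e he2
      rcases (mem_filter.1 he).2 with he | he
      · rcases h4 with h4 | h4
        · exact (mem_erase.1 h4).1 he.1
        · exact he.2 (mem_erase.1 h4).2
      · rcases h4 with h4 | h4
        · exact he.2 (mem_erase.1 h4).2
        · exact (mem_erase.1 h4).1 he.1
    have hfw0 : f w0 ∈ toOut src tgt w0 X := hf1 w0 (mem_insert_self _ _)
    have hfQ : ∀ w ∈ Q, f w ∈ toOut src tgt w0 X := fun w hw => hf1 w (mem_insert_of_mem hw)
    refine ⟨fun w => if w = w0 then {f w0} else if w ∈ Q then insert (f w) (π' w) else π' w,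
      ?_, ?_, ?_⟩
    · intro w hw w' hw'
      by_cases hww0 : w = w0
      · subst hww0
        simp only [if_true]
        by_cases hw'0 : w' = w
        · subst hw'0
          rw [inter_eq_left.2 (singleton_subset_iff.2 (ho1 _ hfw0))]
          simp
        · have : ({f w} : Finset E) ∩ bd src tgt {w'} = ∅ :=
            singleton_inter_of_notMem (ho2 _ hfw0 w' hw' hw'0)
          rw [this]
          simp [Ne.symm hw'0]
      · have hwX' : w ∈ X.erase w0 := mem_erase.2 ⟨hww0, hw⟩
        simp only [if_neg hww0]
        by_cases hwQ : w ∈ Q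
        · simp only [if_pos hwQ]
          by_cases hw'0 : w' = w0
          · subst hw'0
            rw [insert_inter_of_mem (ho1 _ (hfQ w hwQ)), card_insert_of_notMem
              (fun hm => ho3 _ (hfQ w hwQ) w hwX' (mem_inter.1 hm).1)]
            have h5 := (mem_filter.1 hwQ).2
            constructor
            · intro h6
              rw [Nat.odd_add_one] at h6
              exact absurd h5 h6
            · intro h6
              exact absurd h6 hww0
          · rw [insert_inter_of_notMem (ho2 _ (hfQ w hwQ) w' hw' hw'0)]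
            exact h1 w hwX' w' (mem_erase.2 ⟨hw'0, hw'⟩)
        · simp only [if_neg hwQ]
          by_cases hw'0 : w' = w0
          · subst hw'0
            constructor
            · intro h6
              exact absurd (mem_filter.2 ⟨hwX', h6⟩) hwQ
            · intro h6
              exact absurd h6 hww0
          · exact h1 w hwX' w' (mem_erase.2 ⟨hw'0, hw'⟩)
    · -- disjointness
      have key : ∀ w ∈ X, ∀ w' ∈ X, w ≠ w' → w ≠ w0 → Disjoint
          (if w = w0 then {f w0} else if w ∈ Q then insert (f w) (π' w) else π' w)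
          (if w' = w0 then {f w0} else if w' ∈ Q then insert (f w') (π' w') else π' w') := by
        intro w hw w' hw' hww hww0
        have hwX' : w ∈ X.erase w0 := mem_erase.2 ⟨hww0, hw⟩
        rw [if_neg hww0]
        by_cases hw'0 : w' = w0
        · rw [if_pos hw'0, disjoint_singleton_right]
          by_cases hwQ : w ∈ Q
          · rw [if_pos hwQ, mem_insert]
            rintro (h5 | h5)
            · exact hww0 (hf2 w (mem_insert_of_mem hwQ) w0 (mem_insert_self _ _) h5.symm)
            · exact ho3 _ hfw0 w hwX' h5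
          · rw [if_neg hwQ]
            exact ho3 _ hfw0 w hwX'
        · rw [if_neg hw'0]
          have hw'X' : w' ∈ X.erase w0 := mem_erase.2 ⟨hw'0, hw'⟩
          have hd := h2 w hwX' w' hw'X' hww
          by_cases hwQ : w ∈ Q
          · rw [if_pos hwQ]
            by_cases hw'Q : w' ∈ Q
            · rw [if_pos hw'Q, disjoint_insert_left, disjoint_insert_right, mem_insert]
              refine ⟨?_, ho3 _ (hfQ w' hw'Q) w hwX', hd⟩
              rintro (h5 | h5)
              · exact hww (hf2 w (mem_insert_of_mem hwQ) w' (mem_insert_of_mem hw'Q) h5)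
              · exact ho3 _ (hfQ w hwQ) w' hw'X' h5
            · rw [if_neg hw'Q, disjoint_insert_left]
              exact ⟨ho3 _ (hfQ w hwQ) w' hw'X', hd⟩
          · rw [if_neg hwQ]
            by_cases hw'Q : w' ∈ Q
            · rw [if_pos hw'Q, disjoint_insert_right]
              exact ⟨ho3 _ (hfQ w' hw'Q) w hwX', hd⟩
            · rw [if_neg hw'Q]
              exact hd
      intro w hw w' hw' hww
      by_cases hww0 : w = w0
      · exact (key w' hw' w hw (Ne.symm hww) (fun h5 => hww (hww0.trans h5.symm))).symm
      · exact key w hw w' hw' hww hww0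
    · intro w hw e he
      have hout : ∀ e ∈ toOut src tgt w0 X, src e ∈ X ∨ tgt e ∈ X := by
        intro e he
        rcases (mem_filter.1 he).2 with he | he
        · exact Or.inl (he.1 ▸ hw0)
        · exact Or.inr (he.1 ▸ hw0)
      by_cases hww0 : w = w0
      · simp only [if_pos hww0, mem_singleton] at he
        rw [he]
        exact hout _ hfw0
      · have hwX' : w ∈ X.erase w0 := mem_erase.2 ⟨hww0, hw⟩
        have hin : ∀ e ∈ π' w, src e ∈ X ∨ tgt e ∈ X := by
          intro e he
          rcases h3 w hwX' e he with h5 | h5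
          · exact Or.inl (mem_erase.1 h5).2
          · exact Or.inr (mem_erase.1 h5).2
        simp only [if_neg hww0] at he
        by_cases hwQ : w ∈ Q
        · rw [if_pos hwQ, mem_insert] at he
          rcases he with he | he
          · rw [he]
            exact hout _ (hfQ w hwQ)
          · exact hin e he
        · rw [if_neg hwQ] at he
          exact hin e he

theorem exists_dual {src tgt : E → Wv} {D c0 : ℕ} (h : SG src tgt D c0) (X : Finset Wv)
    (hX : 16 * X.card ≤ Fintype.card Wv) :
    ∃ π : Wv → Finset E,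
      (∀ w ∈ X, ∀ w' ∈ X, (Odd (π w ∩ bd src tgt {w'}).card ↔ w = w')) ∧
      (∀ w ∈ X, ∀ w' ∈ X, w ≠ w' → Disjoint (π w) (π w')) := by
  obtain ⟨π, h1, h2, _⟩ := exists_dual_aux h X.card X rfl hX
  exact ⟨π, h1, h2⟩

end Pool.Agent.H3.Frg2
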