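import Mathlib
import Pool.Agent.H3.Frg2.Defs

set_option autoImplicit false
set_option linter.unusedSectionVars false

/-!
# Module G0 (GRAN): granularity of the top Fourier coefficients of a Boolean function

`W f R = ∑_z f z χ_R(z)` (unnormalised), `rl f z = if f z then 1 else 0`.

`gran`: let `f` have degree `≤ m` (`Dg`), `|R| = m`. For `T : Finset E` let `z_T = (fun e => decide (e ∈ T))`,
and `N = ∑_{T ⊆ R} rl f z_T * χ_R(z_T)` (an integer). By `inversion`,
`2^|E| * rl f z = ∑_S W f S * χ_S z`, so `2^|E| N = ∑_S W f S ∑_{T ⊆ R} χ_S(z_T) χ_R(z_T)`, and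
`∑_{T ⊆ R} χ_S(z_T) χ_R(z_T) = ∏_{e ∈ R} (1 + (if e ∈ S then -1 else 1) * (-1)) = if R ⊆ S then 2^m else 0`
(`Finset.prod_one_add`-like expansion). For `R ⊊ S` one has `|S| > m`, so `W f S = 0`. Hence
`2^|E| N = 2^m W f R`. If `W f R ≠ 0` then `N ≠ 0`, `N² ≥ 1`, `4^|E| ≤ 4^m (W f R)²`.

`gran_moment`: if not `Dg (rl f) t`, take `R` with `W f R ≠ 0` and `m = |R| > t` maximal. Then
`4^|E| ≤ 4^m (W f R)²`, so `8^m (W f R)² ≥ 2^m 4^|E| ≥ 2^(t+1) 4^|E|`.
-/

namespace Pool.Agent.H3.Frg2

open Finset Pool.Agent.H3.Frg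

variable {E : Type} [Fintype E] [DecidableEq E]

theorem gran_chi_ind (A T : Finset E) :
    chi A (fun e => decide (e ∈ T)) = ∏ e ∈ T, (if e ∈ A then (-1 : ℝ) else 1) := by
  rw [chi_eq_univ]
  have h : ∏ e ∈ T, (if e ∈ A then (-1 : ℝ) else 1) =
      ∏ e, (if e ∈ T then (if e ∈ A then (-1 : ℝ) else 1) else 1) := by
    rw [Finset.prod_ite_mem univ T (fun e => if e ∈ A then (-1 : ℝ) else 1), Finset.univ_inter]
  rw [h]
  refine Finset.prod_congr rfl fun e _ => ?_
  by_cases h1 : e ∈ A <;> by_cases h2 : e ∈ T <;> simp [h1, h2, sg]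

theorem gran_inner (S R : Finset E) :
    ∑ T ∈ R.powerset, chi S (fun e => decide (e ∈ T)) * chi R (fun e => decide (e ∈ T)) =
      if R ⊆ S then (2 : ℝ) ^ R.card else 0 := by
  have h1 : ∑ T ∈ R.powerset, chi S (fun e => decide (e ∈ T)) * chi R (fun e => decide (e ∈ T)) =
      ∏ e ∈ R, (1 + (if e ∈ symmDiff S R then (-1 : ℝ) else 1)) := by
    rw [Finset.prod_one_add]
    refine Finset.sum_congr rfl fun T _ => ?_
    rw [chi_mul, gran_chi_ind]
  rw [h1]
  split_ifs with h
  · rw [← Finset.prod_const]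
    refine Finset.prod_congr rfl fun e he => ?_
    have : e ∉ symmDiff S R := by
      simp [Finset.mem_symmDiff, he, h he]
    rw [if_neg this]
    norm_num
  · obtain ⟨e, he, heS⟩ := Finset.not_subset.1 h
    refine Finset.prod_eq_zero he ?_
    have : e ∈ symmDiff S R := by
      simp [Finset.mem_symmDiff, he, heS]
    rw [if_pos this]
    norm_num

theorem gran (f : (E → Bool) → Bool) (m : ℕ) (hdeg : Dg (rl f) m) (R : Finset E)
    (hR : R.card = m) (hW : W (rl f) R ≠ 0) :
    (4:ℝ) ^ Fintype.card E ≤ 4 ^ m * (W (rl f) R) ^ 2 := by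
  set N : ℝ := ∑ T ∈ R.powerset, rl f (fun e => decide (e ∈ T)) *
    chi R (fun e => decide (e ∈ T)) with hN
  have hint : ∃ k : ℤ, N = k := by
    refine ⟨∑ T ∈ R.powerset, (if f (fun e => decide (e ∈ T)) then 1 else 0) *
      ∏ i ∈ R, (if decide (i ∈ T) then -1 else 1), ?_⟩
    rw [hN]
    push_cast
    refine Finset.sum_congr rfl fun T _ => ?_
    rfl
  have hmain : (2 : ℝ) ^ Fintype.card E * N = 2 ^ m * W (rl f) R := by
    calc (2 : ℝ) ^ Fintype.card E * N
        = ∑ T ∈ R.powerset, (∑ S : Finset E, W (rl f) S * chi S (fun e => decide (e ∈ T))) *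
            chi R (fun e => decide (e ∈ T)) := by
          rw [hN, Finset.mul_sum]
          refine Finset.sum_congr rfl fun T _ => ?_
          rw [inversion]
          ring
      _ = ∑ S : Finset E, W (rl f) S * ∑ T ∈ R.powerset, chi S (fun e => decide (e ∈ T)) *
            chi R (fun e => decide (e ∈ T)) := by
          simp only [Finset.sum_mul, Finset.mul_sum]
          rw [Finset.sum_comm]
          refine Finset.sum_congr rfl fun S _ => Finset.sum_congr rfl fun T _ => ?_
          ring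
      _ = ∑ S : Finset E, if S = R then 2 ^ m * W (rl f) R else 0 := by
          refine Finset.sum_congr rfl fun S _ => ?_
          rw [gran_inner]
          by_cases hSR : S = R
          · subst hSR
            simp only [subset_refl, if_true, hR]
            ring
          · rw [if_neg hSR]
            by_cases hsub : R ⊆ S
            · have hlt : R.card < S.card :=
                Finset.card_lt_card (Finset.ssubset_iff_subset_ne.2 ⟨hsub, Ne.symm hSR⟩)
              rw [hdeg S (by omega), zero_mul]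
            · rw [if_neg hsub, mul_zero]
      _ = 2 ^ m * W (rl f) R := by simp
  obtain ⟨k, hk⟩ := hint
  have hN0 : N ≠ 0 := by
    intro h0
    rw [h0, mul_zero] at hmain
    have : (2 : ℝ) ^ m ≠ 0 := by positivity
    exact hW ((mul_eq_zero.1 hmain.symm).resolve_left this)
  have hN1 : 1 ≤ N ^ 2 := by
    have hk0 : k ≠ 0 := by
      rintro rfl
      exact hN0 (by rw [hk]; simp)
    have h1 : 1 ≤ k ^ 2 := by
      have : 0 < k ^ 2 := by positivity
      omega
    rw [hk]
    exact_mod_cast h1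
  have h4 : ∀ j : ℕ, (4 : ℝ) ^ j = (2 ^ j) ^ 2 := by
    intro j
    rw [← pow_mul, mul_comm, pow_mul]
    norm_num
  calc (4:ℝ) ^ Fintype.card E = (2 ^ Fintype.card E) ^ 2 * 1 := by rw [h4, mul_one]
    _ ≤ (2 ^ Fintype.card E) ^ 2 * N ^ 2 := mul_le_mul_of_nonneg_left hN1 (by positivity)
    _ = (2 ^ Fintype.card E * N) ^ 2 := by ring
    _ = (2 ^ m * W (rl f) R) ^ 2 := by rw [hmain]
    _ = 4 ^ m * (W (rl f) R) ^ 2 := by rw [h4]; ring

theorem gran_moment (f : (E → Bool) → Bool) (t : ℕ) (h : ¬ Dg (rl f) t) :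
    (2:ℝ) ^ (t + 1) * 4 ^ Fintype.card E ≤ ∑ R : Finset E, 8 ^ R.card * (W (rl f) R) ^ 2 := by
  classical
  unfold Dg at h
  push Not at h
  obtain ⟨T, hT, hWT⟩ := h
  obtain ⟨R, hR, hmax⟩ := Finset.exists_max_image (univ.filter fun S : Finset E => W (rl f) S ≠ 0)
    Finset.card ⟨T, by simp [hWT]⟩
  have hWR : W (rl f) R ≠ 0 := (Finset.mem_filter.1 hR).2
  have hTR : T.card ≤ R.card := hmax T (by simp [hWT])
  have hdeg : Dg (rl f) R.card := by
    intro S hS
    by_contra hne
    have := hmax S (by simp [hne])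
    omega
  have h1 := gran f R.card hdeg R rfl hWR
  have h2 : (8 : ℝ) ^ R.card * (W (rl f) R) ^ 2 ≤
      ∑ R : Finset E, 8 ^ R.card * (W (rl f) R) ^ 2 :=
    Finset.single_le_sum (f := fun R : Finset E => (8 : ℝ) ^ R.card * (W (rl f) R) ^ 2)
      (fun _ _ => by positivity) (Finset.mem_univ R)
  refine le_trans ?_ h2
  have h8 : (8 : ℝ) ^ R.card = 2 ^ R.card * 4 ^ R.card := by
    rw [← mul_pow]; norm_num
  rw [h8, mul_assoc]
  have h3 : (2 : ℝ) ^ (t + 1) ≤ 2 ^ R.card := pow_le_pow_right₀ (by norm_num) (by omega)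
  exact mul_le_mul h3 h1 (by positivity) (by positivity)

end Pool.Agent.H3.Frg2
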