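import Mathlib
import Pool.Agent.H3.Frg2.Defs

set_option autoImplicit false
set_option linter.unusedSectionVars false

/-!
# Hidden centres and the weight `Φ`
-/

namespace Pool.Agent.H3.Frg2

open Finset Pool.Agent.H3.Frg

variable {E Wv : Type} [Fintype E] [DecidableEq E] [Fintype Wv] [DecidableEq Wv]

section Centre

variable (src tgt : E → Wv) {r : ℕ} (c : Wv → Fin r)

/-- the live variable over an edge -/
def jc (e : E) : E × Fin r × Fin r := (e, c (src e), c (tgt e))

/-- live part -/
abbrev lv (T : Finset (E × Fin r × Fin r)) : Finset E := liveT (jc src tgt c) T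

/-- vertices whose centre is in `X` -/
def cen (X : Finset (Wv × Fin r)) : Finset Wv := univ.filter fun w => (w, c w) ∈ X

/-- the centres over a set of vertices -/
def lif (X : Finset Wv) : Finset (Wv × Fin r) := univ.filter fun v => c v.1 = v.2 ∧ v.1 ∈ X

end Centre

variable {src tgt : E → Wv} {r : ℕ} {c : Wv → Fin r}

theorem mem_lv {T : Finset (E × Fin r × Fin r)} {e : E} :
    e ∈ lv src tgt c T ↔ jc src tgt c e ∈ T := by
  simp [lv, liveT]

theorem mem_cen {X : Finset (Wv × Fin r)} {w : Wv} : w ∈ cen c X ↔ (w, c w) ∈ X := by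
  simp [cen]

theorem mem_lif {X : Finset Wv} {v : Wv × Fin r} : v ∈ lif c X ↔ c v.1 = v.2 ∧ v.1 ∈ X := by
  simp [lif]

theorem lv_symmDiff (S T : Finset (E × Fin r × Fin r)) :
    lv src tgt c (symmDiff S T) = symmDiff (lv src tgt c S) (lv src tgt c T) := by
  ext e
  simp only [mem_lv, Finset.mem_symmDiff]

theorem cen_symmDiff (S T : Finset (Wv × Fin r)) :
    cen c (symmDiff S T) = symmDiff (cen c S) (cen c T) := by
  ext e
  simp only [mem_cen, Finset.mem_symmDiff]

theorem lif_symmDiff (S T : Finset Wv) :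
    lif c (symmDiff S T) = symmDiff (lif c S) (lif c T) := by
  ext e
  simp only [mem_lif, Finset.mem_symmDiff]
  tauto

theorem cen_lif (X : Finset Wv) : cen c (lif c X) = X := by
  ext w; simp [mem_cen, mem_lif]

theorem lif_empty : lif c (∅ : Finset Wv) = ∅ := by
  ext w; simp [mem_lif]

theorem bb_symmDiff (X Y : Finset (Wv × Fin r)) :
    bb src tgt r (symmDiff X Y) = symmDiff (bb src tgt r X) (bb src tgt r Y) :=
  bd_symmDiff _ _ _ _

theorem bb_empty : bb src tgt r ∅ = ∅ := bd_empty _ _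

theorem lv_bb (X : Finset (Wv × Fin r)) :
    lv src tgt c (bb src tgt r X) = bd src tgt (cen c X) := by
  ext e
  rw [mem_lv, mem_bb, mem_bd, mem_cen, mem_cen]
  rfl

/-- distance of the live part from the boundaries of subsets of `Y` -/
def Nc (src tgt : E → Wv) {r : ℕ} (c : Wv → Fin r) (Y : Finset (Wv × Fin r))
    (T : Finset (E × Fin r × Fin r)) : ℕ :=
  Y.powerset.inf' ⟨∅, by simp⟩ fun X => (lv src tgt c (symmDiff T (bb src tgt r X))).card

theorem Nc_le {Y X : Finset (Wv × Fin r)} (hX : X ⊆ Y) (T : Finset (E × Fin r × Fin r)) :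
    Nc src tgt c Y T ≤ (lv src tgt c (symmDiff T (bb src tgt r X))).card :=
  Finset.inf'_le (fun X => (lv src tgt c (symmDiff T (bb src tgt r X))).card)
    (Finset.mem_powerset.mpr hX)

theorem exists_Nc (src tgt : E → Wv) (c : Wv → Fin r) (Y : Finset (Wv × Fin r))
    (T : Finset (E × Fin r × Fin r)) :
    ∃ X ⊆ Y, Nc src tgt c Y T = (lv src tgt c (symmDiff T (bb src tgt r X))).card := by
  obtain ⟨X, hX, h⟩ := Finset.exists_mem_eq_inf' (s := Y.powerset) ⟨∅, by simp⟩
    (fun X => (lv src tgt c (symmDiff T (bb src tgt r X))).card)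
  exact ⟨X, Finset.mem_powerset.mp hX, h⟩

theorem Nc_flip (Y : Finset (Wv × Fin r)) (T : Finset (E × Fin r × Fin r))
    (i : E × Fin r × Fin r) :
    Nc src tgt c Y (symmDiff T {i}) ≤ Nc src tgt c Y T +
      (if c (src i.1) = i.2.1 ∧ c (tgt i.1) = i.2.2 then 1 else 0) := by
  obtain ⟨X, hX, h⟩ := exists_Nc src tgt c Y T
  refine (Nc_le hX _).trans ?_
  rw [h]
  have h1 : symmDiff (symmDiff T {i}) (bb src tgt r X)
      = symmDiff (symmDiff T (bb src tgt r X)) {i} := by
    ext v; simp only [Finset.mem_symmDiff]; tauto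
  rw [h1, lv_symmDiff]
  refine (card_symmDiff_le' _ _).trans (Nat.add_le_add_left ?_ _)
  have h2 : lv src tgt c {i} ⊆ if c (src i.1) = i.2.1 ∧ c (tgt i.1) = i.2.2 then {i.1} else ∅ := by
    intro e he
    rw [mem_lv, Finset.mem_singleton] at he
    have h3 : e = i.1 := by rw [← he]; rfl
    have h4 : c (src i.1) = i.2.1 ∧ c (tgt i.1) = i.2.2 := by
      rw [← h3, ← he]; exact ⟨rfl, rfl⟩
    rw [if_pos h4, h3]; exact Finset.mem_singleton_self _
  refine (Finset.card_le_card h2).trans ?_
  split_ifs <;> simp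

theorem Nc_update {D c0 : ℕ} (h : SG src tgt D c0) (Y : Finset (Wv × Fin r))
    (T : Finset (E × Fin r × Fin r)) (w : Wv) (γ : Fin r) :
    Nc src tgt c Y T ≤ D + Nc src tgt (Function.update c w γ) Y T := by
  obtain ⟨X, hX, h1⟩ := exists_Nc src tgt (Function.update c w γ) Y T
  refine (Nc_le hX _).trans ?_
  rw [h1]
  set S := symmDiff T (bb src tgt r X)
  have h2 : lv src tgt c S ⊆ bd src tgt {w} ∪ lv src tgt (Function.update c w γ) S := by
    intro e he
    rw [Finset.mem_union]
    by_cases h3 : e ∈ bd src tgt {w}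
    · exact Or.inl h3
    · right
      rw [mem_bd, not_not, Finset.mem_singleton, Finset.mem_singleton] at h3
      have h4 : src e ≠ w := fun h5 => h.loopless e (h5.trans (h3.mp h5).symm)
      have h5 : tgt e ≠ w := fun h6 => h4 (h3.mpr h6)
      rw [mem_lv] at he ⊢
      have h6 : jc src tgt (Function.update c w γ) e = jc src tgt c e := by
        unfold jc
        rw [Function.update_of_ne h4, Function.update_of_ne h5]
      rw [h6]; exact he
  exact (Finset.card_le_card h2).trans ((Finset.card_union_le _ _).trans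
    (Nat.add_le_add_right (h.deg w) _))

theorem Nc_bb {Y X : Finset (Wv × Fin r)} (hX : X ⊆ Y) :
    Nc src tgt c Y (bb src tgt r X) = 0 := by
  have h := Nc_le (src := src) (tgt := tgt) (c := c) hX (bb src tgt r X)
  rw [symmDiff_self] at h
  have h2 : (lv src tgt c (⊥ : Finset (E × Fin r × Fin r))).card = 0 := by
    rw [Finset.card_eq_zero]
    ext e; simp [mem_lv]
  omega

/-- the weight -/
noncomputable def Phi (src tgt : E → Wv) {r : ℕ} (u : ℝ) (Y : Finset (Wv × Fin r))
    (T : Finset (E × Fin r × Fin r)) : ℝ :=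
  ∑ c : Wv → Fin r, u ^ Nc src tgt c Y T

theorem Phi_pos {u : ℝ} (hu : 1 ≤ u) (hr : 1 ≤ r) (Y : Finset (Wv × Fin r))
    (T : Finset (E × Fin r × Fin r)) : 0 < Phi src tgt u Y T := by
  have : Nonempty (Fin r) := ⟨⟨0, hr⟩⟩
  exact Finset.sum_pos (fun c _ => by positivity) Finset.univ_nonempty

theorem Phi_bb (u : ℝ) {Y X : Finset (Wv × Fin r)} (hX : X ⊆ Y) :
    Phi src tgt u Y (bb src tgt r X) = (r : ℝ) ^ Fintype.card Wv := by
  unfold Phi
  simp only [Nc_bb hX, pow_zero]
  simp

theorem resample {h : (Wv → Fin r) → ℝ} {K : ℝ} (w : Wv)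
    (hh : ∀ c γ, h c ≤ K * h (Function.update c w γ)) (α : Fin r) :
    (r : ℝ) * ∑ c : Wv → Fin r, (if c w = α then h c else 0) ≤ K * ∑ c : Wv → Fin r, h c := by
  have h1 : (r : ℝ) * ∑ c : Wv → Fin r, (if c w = α then h c else 0)
      = ∑ p ∈ (univ.filter fun c : Wv → Fin r => c w = α) ×ˢ (univ : Finset (Fin r)), h p.1 := by
    rw [Finset.sum_product, ← Finset.sum_filter, Finset.mul_sum]
    refine Finset.sum_congr rfl fun c _ => ?_
    simp
  rw [h1]
  have h2 : ∑ p ∈ (univ.filter fun c : Wv → Fin r => c w = α) ×ˢ (univ : Finset (Fin r)), h p.1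
      ≤ ∑ p ∈ (univ.filter fun c : Wv → Fin r => c w = α) ×ˢ (univ : Finset (Fin r)),
        K * h (Function.update p.1 w p.2) := Finset.sum_le_sum fun p _ => hh p.1 p.2
  refine h2.trans (le_of_eq ?_)
  rw [Finset.mul_sum]
  refine Finset.sum_nbij' (fun p => Function.update p.1 w p.2)
    (fun c => (Function.update c w α, c w)) ?_ ?_ ?_ ?_ ?_
  · intro p _; exact mem_univ _
  · intro c _
    rw [Finset.mem_product, Finset.mem_filter]
    exact ⟨⟨mem_univ _, by simp⟩, mem_univ _⟩
  · intro p hp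
    rw [Finset.mem_product, Finset.mem_filter] at hp
    have h3 : Function.update (Function.update p.1 w p.2) w α = p.1 := by
      rw [Function.update_idem, ← hp.1.2, Function.update_eq_self]
    simp only [h3, Function.update_self]
  · intro c _
    simp only [Function.update_idem, Function.update_eq_self]
  · intro p _; rfl

theorem Phi_lip {D c0 : ℕ} (h : SG src tgt D c0) {u : ℝ} (hu : 1 ≤ u) (hr : 1 ≤ r)
    (Y : Finset (Wv × Fin r)) (T : Finset (E × Fin r × Fin r)) (i : E × Fin r × Fin r) :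
    Phi src tgt u Y (symmDiff T {i})
      ≤ (1 + (u - 1) * u ^ (2 * D) / (r : ℝ) ^ 2) * Phi src tgt u Y T := by
  have hrR : (0:ℝ) < r := by exact_mod_cast hr
  have hu0 : 0 ≤ u := by linarith
  have h1 : Phi src tgt u Y (symmDiff T {i}) ≤ Phi src tgt u Y T +
      (u - 1) * ∑ c : Wv → Fin r, (if c (src i.1) = i.2.1 then
        (if c (tgt i.1) = i.2.2 then u ^ Nc src tgt c Y T else 0) else 0) := by
    unfold Phi
    rw [Finset.mul_sum, ← Finset.sum_add_distrib]
    refine Finset.sum_le_sum fun c _ => ?_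
    have h2 := pow_le_pow_right₀ hu (Nc_flip (src := src) (tgt := tgt) (c := c) Y T i)
    refine h2.trans (le_of_eq ?_)
    by_cases h3 : c (src i.1) = i.2.1
    · by_cases h4 : c (tgt i.1) = i.2.2
      · simp only [h3, h4, and_self, if_true, pow_succ]; ring
      · simp only [h3, h4, and_false, if_true, if_false]; simp
    · simp only [h3, false_and, if_false]; simp
  have h2 : ∀ (w : Wv) (c : Wv → Fin r) (γ : Fin r),
      u ^ Nc src tgt c Y T ≤ u ^ D * u ^ Nc src tgt (Function.update c w γ) Y T := by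
    intro w c γ
    rw [← pow_add]
    exact pow_le_pow_right₀ hu (Nc_update h Y T w γ)
  have h3 := resample (h := fun c : Wv → Fin r =>
      if c (tgt i.1) = i.2.2 then u ^ Nc src tgt c Y T else 0) (K := u ^ D)
      (src i.1) (fun c γ => by
        have h4 : Function.update c (src i.1) γ (tgt i.1) = c (tgt i.1) :=
          Function.update_of_ne (h.loopless i.1).symm _ _
        simp only [h4]
        split_ifs
        · exact h2 _ _ _
        · simp) i.2.1
  have h4 := resample (h := fun c : Wv → Fin r => u ^ Nc src tgt c Y T) (K := u ^ D)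
      (tgt i.1) (fun c γ => h2 _ c γ) i.2.2
  set Q : ℝ := ∑ c : Wv → Fin r, (if c (src i.1) = i.2.1 then
        (if c (tgt i.1) = i.2.2 then u ^ Nc src tgt c Y T else 0) else 0) with hQ
  have h5 : (r:ℝ) ^ 2 * Q ≤ u ^ (2 * D) * Phi src tgt u Y T := by
    calc (r:ℝ) ^ 2 * Q = r * (r * Q) := by ring
      _ ≤ r * (u ^ D * ∑ c : Wv → Fin r,
          (if c (tgt i.1) = i.2.2 then u ^ Nc src tgt c Y T else 0)) :=
          mul_le_mul_of_nonneg_left h3 hrR.le
      _ = u ^ D * (r * ∑ c : Wv → Fin r,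
          (if c (tgt i.1) = i.2.2 then u ^ Nc src tgt c Y T else 0)) := by ring
      _ ≤ u ^ D * (u ^ D * ∑ c : Wv → Fin r, u ^ Nc src tgt c Y T) :=
          mul_le_mul_of_nonneg_left h4 (by positivity)
      _ = u ^ (2 * D) * Phi src tgt u Y T := by
          unfold Phi
          rw [two_mul, pow_add]; ring
  have h6 : Q ≤ u ^ (2 * D) * Phi src tgt u Y T / (r:ℝ) ^ 2 := by
    rw [le_div_iff₀ (by positivity)]
    linarith
  calc Phi src tgt u Y (symmDiff T {i}) ≤ Phi src tgt u Y T + (u - 1) * Q := h1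
    _ ≤ Phi src tgt u Y T + (u - 1) * (u ^ (2 * D) * Phi src tgt u Y T / (r:ℝ) ^ 2) := by
        have := mul_le_mul_of_nonneg_left h6 (show (0:ℝ) ≤ u - 1 by linarith)
        linarith
    _ = _ := by ring

/-- exponential moment of the number of live variables in a set -/
theorem live_tail {D c0 : ℕ} (h : SG src tgt D c0) {u : ℝ} (hu : 1 ≤ u) (hr : 1 ≤ r)
    (S : Finset (E × Fin r × Fin r)) :
    ∑ c : Wv → Fin r, u ^ (lv src tgt c S).card
      ≤ (1 + (u - 1) * u ^ (2 * D) / (r : ℝ) ^ 2) ^ S.card * (r : ℝ) ^ Fintype.card Wv := by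
  have hrR : (0:ℝ) < r := by exact_mod_cast hr
  have hη : 0 ≤ 1 + (u - 1) * u ^ (2 * D) / (r : ℝ) ^ 2 := by
    have : 0 ≤ (u - 1) * u ^ (2 * D) / (r : ℝ) ^ 2 := by
      apply div_nonneg
      · apply mul_nonneg; linarith; positivity
      · positivity
    linarith
  have h1 : ∀ S : Finset (E × Fin r × Fin r), Phi src tgt u ∅ S
      = ∑ c : Wv → Fin r, u ^ (lv src tgt c S).card := by
    intro S
    unfold Phi
    refine Finset.sum_congr rfl fun c _ => ?_
    obtain ⟨X, hX, h2⟩ := exists_Nc src tgt c ∅ S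
    rw [Finset.subset_empty] at hX
    have h3 : symmDiff S (∅ : Finset (E × Fin r × Fin r)) = S := symmDiff_bot S
    rw [h2, hX, bb_empty, h3]
  rw [← h1]
  induction S using Finset.induction_on with
  | empty =>
    rw [Finset.card_empty, pow_zero, one_mul, ← bb_empty (src := src) (tgt := tgt) (r := r),
      Phi_bb u (Finset.Subset.refl _)]
  | insert i S hi ih =>
    have h2 : insert i S = symmDiff S {i} := by
      ext v
      simp only [Finset.mem_insert, Finset.mem_symmDiff, Finset.mem_singleton]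
      constructor
      · rintro (rfl | hv)
        · exact Or.inr ⟨rfl, hi⟩
        · exact Or.inl ⟨hv, fun h3 => hi (h3 ▸ hv)⟩
      · rintro (⟨hv, _⟩ | ⟨hv, _⟩)
        · exact Or.inr hv
        · exact Or.inl hv
    rw [Finset.card_insert_of_notMem hi, h2, pow_succ]
    refine (Phi_lip h hu hr ∅ S i).trans ?_
    calc _ ≤ (1 + (u - 1) * u ^ (2 * D) / (r : ℝ) ^ 2) *
        ((1 + (u - 1) * u ^ (2 * D) / (r : ℝ) ^ 2) ^ S.card * (r : ℝ) ^ Fintype.card Wv) :=
          mul_le_mul_of_nonneg_left ih hη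
      _ = _ := by ring

/-- exponential moment of the number of centres in a set -/
theorem cen_tail {u : ℝ} (hu : 1 ≤ u) (hr : 1 ≤ r) (Y : Finset (Wv × Fin r)) :
    ∑ c : Wv → Fin r, u ^ (cen c Y).card
      ≤ (r : ℝ) ^ Fintype.card Wv * Real.exp ((u - 1) / r * (Y.card : ℝ)) := by
  have hrR : (0:ℝ) < r := by exact_mod_cast hr
  have hf : ∀ w : Wv, (fib (Prod.fst : Wv × Fin r → Wv) w).card = r := by
    intro w
    have : fib (Prod.fst : Wv × Fin r → Wv) w
        = (univ : Finset (Fin r)).map ⟨fun α => (w, α), fun a b hab => by simpa using hab⟩ := by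
      ext v
      rw [mem_fib, Finset.mem_map]
      constructor
      · rintro rfl; exact ⟨v.2, mem_univ _, rfl⟩
      · rintro ⟨α, _, rfl⟩; rfl
    rw [this, Finset.card_map, Finset.card_univ, Fintype.card_fin]
  have h1 := sum_secs (Prod.fst : Wv × Fin r → Wv) Y u hu r hrR (fun w => by rw [hf w])
  simp only [hf, Finset.prod_const, Finset.card_univ] at h1
  refine le_trans (le_of_eq ?_) h1
  refine Finset.sum_nbij' (fun c w => (w, c w)) (fun j w => (j w).2) ?_ ?_ ?_ ?_ ?_
  · intro c _; rw [mem_secs]; intro e; rfl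
  · intro j _; exact mem_univ _
  · intro c _; rfl
  · intro j hj
    rw [mem_secs] at hj
    funext w
    exact Prod.ext (hj w).symm rfl
  · intro c _
    rfl

end Pool.Agent.H3.Frg2
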