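import Mathlib
import Pool.Agent.H3.Frg2.Quad
import Pool.Agent.H3.Frg2.Weight
import Pool.Agent.H3.Frg2.Proj

set_option autoImplicit false
set_option linter.unusedSectionVars false

/-!
# The second moment of the restricted and projected formula
-/

namespace Pool.Agent.H3.Frg2

open Finset Pool.Agent.H3.Frg

variable {E Wv : Type} [Fintype E] [DecidableEq E] [Fintype Wv] [DecidableEq Wv]
  {src tgt : E → Wv} {r : ℕ}

/-- the vertices that are not centres -/
def ncs (c : Wv → Fin r) : Finset (Wv × Fin r) := univ.filter fun v => c v.1 ≠ v.2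

theorem mem_ncs {c : Wv → Fin r} {v : Wv × Fin r} : v ∈ ncs c ↔ c v.1 ≠ v.2 := by simp [ncs]

/-- assignments satisfying the axioms of all non-centres -/
noncomputable def Ac (src tgt : E → Wv) (ε : Wv × Fin r → ℝ) (c : Wv → Fin r) :
    Finset (E × Fin r × Fin r → Bool) := by
  classical
  exact univ.filter fun a => ∀ v ∈ ncs c, chi (bb src tgt r {v}) a = ε v

theorem mem_Ac {ε : Wv × Fin r → ℝ} {c : Wv → Fin r} {a : E × Fin r × Fin r → Bool} :
    a ∈ Ac src tgt ε c ↔ ∀ v ∈ ncs c, chi (bb src tgt r {v}) a = ε v := by simp [Ac]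

theorem sum_Ac (ε : Wv × Fin r → ℝ) (hε : ∀ v, ε v * ε v = 1) (c : Wv → Fin r)
    (f : (E × Fin r × Fin r → Bool) → ℝ) :
    (2:ℝ) ^ (ncs c).card * ∑ a ∈ Ac src tgt ε c, f a
      = ∑ X ∈ (ncs c).powerset, epsX ε X * ∑ a, f a * chi (bb src tgt r X) a := by
  classical
  have h1 : ∀ a : E × Fin r × Fin r → Bool,
      (if a ∈ Ac src tgt ε c then (2:ℝ) ^ (ncs c).card else 0)
      = ∑ X ∈ (ncs c).powerset, epsX ε X * chi (bb src tgt r X) a := by
    intro a
    have h2 : ∑ X ∈ (ncs c).powerset, epsX ε X * chi (bb src tgt r X) a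
        = ∏ v ∈ ncs c, (1 + ε v * chi (bb src tgt r {v}) a) := by
      rw [Finset.prod_one_add]
      refine Finset.sum_congr rfl fun X _ => ?_
      rw [chi_bd, Finset.prod_mul_distrib]
      rfl
    rw [h2]
    by_cases h3 : a ∈ Ac src tgt ε c
    · rw [if_pos h3]
      rw [mem_Ac] at h3
      rw [Finset.prod_congr rfl (fun v hv => by rw [h3 v hv, hε v]), Finset.prod_const]
      norm_num
    · rw [if_neg h3]
      rw [mem_Ac] at h3
      push Not at h3
      obtain ⟨v, hv, h4⟩ := h3
      refine (Finset.prod_eq_zero hv ?_).symm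
      have h5 := sign_cases (chi_mul_self (bb src tgt r {v}) a) (hε v)
      rw [if_pos h4] at h5
      linarith
  have h2 : (2:ℝ) ^ (ncs c).card * ∑ a ∈ Ac src tgt ε c, f a
      = ∑ a, f a * (if a ∈ Ac src tgt ε c then (2:ℝ) ^ (ncs c).card else 0) := by
    rw [Finset.mul_sum]
    simp only [mul_ite, mul_zero]
    rw [Finset.sum_ite_mem, Finset.univ_inter]
    exact Finset.sum_congr rfl fun a _ => by ring
  rw [h2]
  simp only [h1, Finset.mul_sum]
  rw [Finset.sum_comm]
  exact Finset.sum_congr rfl fun X _ => Finset.sum_congr rfl fun a _ => by ring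

/-- sum of a character over `Ac` -/
theorem sum_Ac_chi (ε : Wv × Fin r → ℝ) (hε : ∀ v, ε v * ε v = 1) (c : Wv → Fin r)
    (T : Finset (E × Fin r × Fin r)) :
    (2:ℝ) ^ (ncs c).card * ∑ a ∈ Ac src tgt ε c, chi T a
      = (2:ℝ) ^ Fintype.card (E × Fin r × Fin r) *
        ∑ X ∈ (ncs c).powerset, (if bb src tgt r X = T then epsX ε X else 0) := by
  rw [sum_Ac ε hε, Finset.mul_sum]
  refine Finset.sum_congr rfl fun X _ => ?_
  rw [sum_x_chi_chi]
  by_cases h : bb src tgt r X = T
  · rw [if_pos h.symm, if_pos h]; ring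
  · rw [if_neg (fun h2 => h h2.symm), if_neg h]; ring

/-- a blow-up is connected: only the trivial sets have empty boundary -/
def Conn (src tgt : E → Wv) (r : ℕ) : Prop :=
  ∀ X : Finset (Wv × Fin r), bb src tgt r X = ∅ → X = ∅ ∨ X = univ

theorem card_Ac (hconn : Conn src tgt r) [Nonempty Wv] (ε : Wv × Fin r → ℝ)
    (hε : ∀ v, ε v * ε v = 1) (c : Wv → Fin r) :
    (2:ℝ) ^ (ncs c).card * ((Ac src tgt ε c).card : ℝ)
      = (2:ℝ) ^ Fintype.card (E × Fin r × Fin r) := by
  have h1 := sum_Ac_chi (src := src) (tgt := tgt) ε hε c ∅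
  simp only [chi_empty, Finset.sum_const, nsmul_eq_mul, mul_one] at h1
  rw [h1]
  have h2 : ∑ X ∈ (ncs c).powerset, (if bb src tgt r X = ∅ then epsX ε X else 0) = 1 := by
    rw [Finset.sum_eq_single ∅]
    · rw [if_pos bb_empty]; simp [epsX]
    · intro X hX hne
      rw [if_neg]
      intro h3
      rcases hconn X h3 with h4 | h4
      · exact hne h4
      · obtain ⟨w⟩ := ‹Nonempty Wv›
        rw [Finset.mem_powerset, h4] at hX
        have := hX (mem_univ (w, c w))
        rw [mem_ncs] at this
        exact this rfl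
    · intro h; exact absurd (Finset.empty_mem_powerset _) h
  rw [h2, mul_one]

/-- signs of the restricted axioms -/
noncomputable def eE (src tgt : E → Wv) (ε : Wv × Fin r → ℝ) (c : Wv → Fin r)
    (a : E × Fin r × Fin r → Bool) (w : Wv) : ℝ :=
  ε (w, c w) * chi (deadT Prod.fst (jc src tgt c) (bb src tgt r {(w, c w)})) a

theorem eE_sq {ε : Wv × Fin r → ℝ} (hε : ∀ v, ε v * ε v = 1) (c : Wv → Fin r)
    (a : E × Fin r × Fin r → Bool) (w : Wv) :
    eE src tgt ε c a w * eE src tgt ε c a w = 1 := by
  unfold eE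
  linear_combination (chi (deadT Prod.fst (jc src tgt c) (bb src tgt r {(w, c w)})) a) ^ 2 *
    hε (w, c w) + chi_mul_self (deadT Prod.fst (jc src tgt c) (bb src tgt r {(w, c w)})) a

/-- dead part -/
abbrev dd (src tgt : E → Wv) (c : Wv → Fin r) (T : Finset (E × Fin r × Fin r)) :
    Finset (E × Fin r × Fin r) := deadT Prod.fst (jc src tgt c) T

theorem mem_dd {c : Wv → Fin r} {T : Finset (E × Fin r × Fin r)} {v : E × Fin r × Fin r} :
    v ∈ dd src tgt c T ↔ v ∈ T ∧ ¬ jc src tgt c v.1 = v := by
  simp [dd, deadT]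

theorem dd_symmDiff (c : Wv → Fin r) (S T : Finset (E × Fin r × Fin r)) :
    dd src tgt c (symmDiff S T) = symmDiff (dd src tgt c S) (dd src tgt c T) := by
  ext v
  simp only [mem_dd, Finset.mem_symmDiff]
  tauto

theorem lif_singleton (c : Wv → Fin r) (w : Wv) : lif c {w} = {(w, c w)} := by
  ext v
  rw [mem_lif, Finset.mem_singleton, Finset.mem_singleton]
  constructor
  · rintro ⟨h1, h2⟩
    exact Prod.ext h2 (by rw [← h1, h2])
  · rintro rfl
    exact ⟨rfl, rfl⟩

/-- the signs `eE` multiply to the dead character -/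
theorem epsX_eE {ε : Wv × Fin r → ℝ} (c : Wv → Fin r)
    (a : E × Fin r × Fin r → Bool) (Z : Finset Wv) :
    epsX (eE src tgt ε c a) Z
      = epsX ε (lif c Z) * chi (dd src tgt c (bb src tgt r (lif c Z))) a := by
  induction Z using Finset.induction_on with
  | empty =>
    rw [lif_empty, bb_empty]
    have : dd src tgt c (∅ : Finset (E × Fin r × Fin r)) = ∅ := by
      ext v; simp [mem_dd]
    rw [this]
    simp [epsX, chi_empty]
  | insert w Z hw ih =>
    have h1 : lif c (insert w Z) = insert (w, c w) (lif c Z) := by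
      ext v
      rw [mem_lif, Finset.mem_insert, Finset.mem_insert, mem_lif]
      constructor
      · rintro ⟨h1, h2 | h2⟩
        · left; exact Prod.ext h2 (by rw [← h1, h2])
        · exact Or.inr ⟨h1, h2⟩
      · rintro (rfl | ⟨h1, h2⟩)
        · exact ⟨rfl, Or.inl rfl⟩
        · exact ⟨h1, Or.inr h2⟩
    have h2 : (w, c w) ∉ lif c Z := by
      rw [mem_lif]; exact fun h => hw h.2
    have h3 : bb src tgt r (insert (w, c w) (lif c Z))
        = symmDiff (bb src tgt r {(w, c w)}) (bb src tgt r (lif c Z)) := bd_insert h2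
    have h4 : epsX (eE src tgt ε c a) (insert w Z)
        = eE src tgt ε c a w * epsX (eE src tgt ε c a) Z := by
      unfold epsX; rw [Finset.prod_insert hw]
    have h5 : epsX ε (insert (w, c w) (lif c Z)) = ε (w, c w) * epsX ε (lif c Z) := by
      unfold epsX; rw [Finset.prod_insert h2]
    rw [h4, ih, h1, h3, h5, dd_symmDiff, ← chi_mul]
    unfold eE
    ring

/-- boundaries of sets of non-centres are dead, with the correct sign -/
theorem chi_dd_bb {ε : Wv × Fin r → ℝ} (hε : ∀ v, ε v * ε v = 1) {c : Wv → Fin r}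
    {a : E × Fin r × Fin r → Bool} (ha : a ∈ Ac src tgt ε c) (X : Finset (Wv × Fin r)) :
    chi (dd src tgt c (bb src tgt r X)) a = epsX ε X * epsX (eE src tgt ε c a) (cen c X) := by
  have h1 : X = symmDiff (symmDiff X (lif c (cen c X))) (lif c (cen c X)) :=
    (symmDiff_symmDiff_cancel_right (lif c (cen c X)) X).symm
  set N := symmDiff X (lif c (cen c X)) with hN
  have h2 : N ⊆ ncs c := by
    intro v hv
    rw [mem_ncs]
    intro h3
    rw [hN, Finset.mem_symmDiff, mem_lif, mem_cen] at hv
    have h4 : (v.1, c v.1) = v := Prod.ext rfl h3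
    rw [h4] at hv
    rcases hv with ⟨h5, h6⟩ | ⟨h5, h6⟩
    · exact h6 ⟨h3, h5⟩
    · exact h6 h5.2
  have h3 : chi (bb src tgt r N) a = epsX ε N := by
    have : chi (bd (bsrc src r) (btgt tgt r) N) a
        = ∏ v ∈ N, chi (bd (bsrc src r) (btgt tgt r) {v}) a := chi_bd _ _ N a
    rw [this]
    unfold epsX
    exact Finset.prod_congr rfl fun v hv => mem_Ac.mp ha v (h2 hv)
  have h4 : dd src tgt c (bb src tgt r N) = bb src tgt r N := by
    ext v
    rw [mem_dd]
    refine ⟨fun h => h.1, fun h => ⟨h, fun h5 => ?_⟩⟩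
    have h6 : v.1 ∈ lv src tgt c (bb src tgt r N) := by
      rw [mem_lv, h5]; exact h
    have h7 : cen c N = ∅ := by
      rw [hN, cen_symmDiff, cen_lif, symmDiff_self]; rfl
    rw [lv_bb, h7, bd_empty] at h6
    exact absurd h6 (Finset.notMem_empty _)
  conv_lhs => rw [h1, bb_symmDiff, dd_symmDiff, ← chi_mul, h4, h3]
  conv_rhs => rw [h1, epsX_symmDiff hε]
  have h5 : cen c (symmDiff N (lif c (cen c X))) = cen c X := by
    rw [← h1]
  rw [h5, epsX_eE]
  linear_combination (-(epsX ε N * chi (dd src tgt c (bb src tgt r (lif c (cen c X)))) a)) *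
    epsX_mul_self hε (lif c (cen c X))

section Fixed

variable (src tgt) in
/-- the Boolean function of the restricted and projected formula -/
noncomputable def GG (ε : Wv × Fin r → ℝ) (c : Wv → Fin r) (a : E × Fin r × Fin r → Bool)
    (π : Wv → Finset E) (X : Finset Wv) (A : Fm (E × Fin r × Fin r)) (z : E → Bool) : Bool :=
  A.eval (glue Prod.fst (jc src tgt c) a (PiE src tgt (eE src tgt ε c a) π X z))

variable (src tgt) in
/-- the normal form -/
def star (c : Wv → Fin r) (π : Wv → Finset E) (X : Finset Wv)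
    (S : Finset (E × Fin r × Fin r)) : Finset (E × Fin r × Fin r) :=
  symmDiff S (bb src tgt r (lif c (OO π X (lv src tgt c S))))

theorem lv_star (c : Wv → Fin r) (π : Wv → Finset E) (X : Finset Wv)
    (S : Finset (E × Fin r × Fin r)) :
    lv src tgt c (star src tgt c π X S)
      = symmDiff (lv src tgt c S) (bd src tgt (OO π X (lv src tgt c S))) := by
  rw [star, lv_symmDiff, lv_bb, cen_lif]

theorem jc_fst (c : Wv → Fin r) (e : E) : (jc src tgt c e).1 = e := rfl

theorem W_GG {ε : Wv × Fin r → ℝ} (hε : ∀ v, ε v * ε v = 1) (c : Wv → Fin r)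
    (a : E × Fin r × Fin r → Bool) (π : Wv → Finset E) (X : Finset Wv)
    (A : Fm (E × Fin r × Fin r)) (R : Finset E) :
    (2:ℝ) ^ Fintype.card (E × Fin r × Fin r) * W (rl (GG src tgt ε c a π X A)) R
      = (2:ℝ) ^ Fintype.card E * ∑ S : Finset (E × Fin r × Fin r),
        (if lv src tgt c (star src tgt c π X S) = R then
          epsX ε (lif c (OO π X (lv src tgt c S))) * W (ind A) S else 0) *
          chi (dd src tgt c (star src tgt c π X S)) a := by
  have h1 : W (rl (GG src tgt ε c a π X A)) R
      = ∑ Q : Finset E, (if symmDiff Q (bd src tgt (OO π X Q)) = R then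
          epsX (eE src tgt ε c a) (OO π X Q) *
            W (fun z' => ind A (glue Prod.fst (jc src tgt c) a z')) Q else 0) :=
    W_PiE (eE_sq hε c a) π X (fun z' => ind A (glue Prod.fst (jc src tgt c) a z')) R
  rw [h1, Finset.mul_sum]
  have h2 : ∀ Q : Finset E, (2:ℝ) ^ Fintype.card (E × Fin r × Fin r) *
      (if symmDiff Q (bd src tgt (OO π X Q)) = R then
        epsX (eE src tgt ε c a) (OO π X Q) *
          W (fun z' => ind A (glue Prod.fst (jc src tgt c) a z')) Q else 0)
      = (2:ℝ) ^ Fintype.card E * ∑ S : Finset (E × Fin r × Fin r),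
        (if lv src tgt c S = Q then
          (if lv src tgt c (star src tgt c π X S) = R then
            epsX ε (lif c (OO π X (lv src tgt c S))) * W (ind A) S else 0) *
            chi (dd src tgt c (star src tgt c π X S)) a else 0) := by
    intro Q
    split_ifs with hQ
    · have h3 := W_glue Prod.fst (jc src tgt c) (jc_fst c) a (ind A) Q
      calc (2:ℝ) ^ Fintype.card (E × Fin r × Fin r) *
            (epsX (eE src tgt ε c a) (OO π X Q) *
              W (fun z' => ind A (glue Prod.fst (jc src tgt c) a z')) Q)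
          = epsX (eE src tgt ε c a) (OO π X Q) *
            ((2:ℝ) ^ Fintype.card (E × Fin r × Fin r) *
              W (fun z' => ind A (glue Prod.fst (jc src tgt c) a z')) Q) := by ring
        _ = (2:ℝ) ^ Fintype.card E * ∑ S : Finset (E × Fin r × Fin r),
              epsX (eE src tgt ε c a) (OO π X Q) *
              ((if lv src tgt c S = Q then W (ind A) S else 0) *
                chi (dd src tgt c S) a) := by
            rw [h3, ← Finset.mul_sum]; ring
        _ = _ := by
            congr 1
            refine Finset.sum_congr rfl fun S _ => ?_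
            by_cases h4 : lv src tgt c S = Q
            · rw [if_pos h4, if_pos h4]
              have h5 : lv src tgt c (star src tgt c π X S) = R := by
                rw [lv_star, h4]; exact hQ
              rw [if_pos h5, epsX_eE, h4]
              have h6 : dd src tgt c (star src tgt c π X S)
                  = symmDiff (dd src tgt c S) (dd src tgt c (bb src tgt r (lif c (OO π X Q)))) := by
                rw [star, dd_symmDiff, h4]
              rw [h6, ← chi_mul]
              ring
            · rw [if_neg h4, if_neg h4]; ring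
    · rw [mul_zero]
      symm
      rw [mul_eq_zero]
      right
      refine Finset.sum_eq_zero fun S _ => ?_
      by_cases h4 : lv src tgt c S = Q
      · rw [if_pos h4, if_neg, zero_mul]
        rw [lv_star, h4]; exact hQ
      · rw [if_neg h4]
  rw [Finset.sum_congr rfl (fun Q _ => h2 Q), ← Finset.mul_sum, Finset.sum_comm]
  congr 1
  refine Finset.sum_congr rfl fun S _ => ?_
  rw [Finset.sum_ite_eq]
  simp

end Fixed

end Pool.Agent.H3.Frg2
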