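import Mathlib
import Pool.Agent.H3.Frg2.Mass

set_option autoImplicit false
set_option linter.unusedSectionVars false

/-!
# The second moment, continued
-/

namespace Pool.Agent.H3.Frg2

open Finset Pool.Agent.H3.Frg

variable {E Wv : Type} [Fintype E] [DecidableEq E] [Fintype Wv] [DecidableEq Wv]
  {src tgt : E → Wv} {r : ℕ}

theorem cen_mono {c : Wv → Fin r} {X Y : Finset (Wv × Fin r)} (h : X ⊆ Y) :
    cen c X ⊆ cen c Y := by
  intro w hw
  rw [mem_cen] at hw ⊢
  exact h hw

theorem OO_shift {c : Wv → Fin r} {Y : Finset (Wv × Fin r)} {π : Wv → Finset E}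
    (hπ : IsDual src tgt π (cen c Y)) (S : Finset (E × Fin r × Fin r))
    {X : Finset (Wv × Fin r)} (hX : X ⊆ Y) :
    OO π (cen c Y) (lv src tgt c (symmDiff S (bb src tgt r X)))
      = symmDiff (OO π (cen c Y) (lv src tgt c S)) (cen c X) := by
  rw [lv_symmDiff, lv_bb]
  exact OO_symmDiff_bd hπ _ _ (cen_mono hX)

theorem lv_star_shift {c : Wv → Fin r} {Y : Finset (Wv × Fin r)} {π : Wv → Finset E}
    (hπ : IsDual src tgt π (cen c Y)) (S : Finset (E × Fin r × Fin r))
    {X : Finset (Wv × Fin r)} (hX : X ⊆ Y) :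
    lv src tgt c (star src tgt c π (cen c Y) (symmDiff S (bb src tgt r X)))
      = lv src tgt c (star src tgt c π (cen c Y) S) := by
  rw [lv_star, lv_star, OO_shift hπ S hX, lv_symmDiff, lv_bb, bd_symmDiff]
  ext e
  simp only [Finset.mem_symmDiff]
  tauto

/-- the live part of the normal form is controlled by `Nc` -/
theorem card_lv_star_le {D c0 : ℕ} (h : SG src tgt D c0) {c : Wv → Fin r}
    {Y : Finset (Wv × Fin r)} {π : Wv → Finset E}
    (hπ : IsDual src tgt π (cen c Y)) (S : Finset (E × Fin r × Fin r)) :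
    (lv src tgt c (star src tgt c π (cen c Y) S)).card ≤ (D + 1) * Nc src tgt c Y S := by
  obtain ⟨X, hX, hN⟩ := exists_Nc src tgt c Y S
  rw [hN, ← lv_star_shift hπ S hX, lv_star]
  set L := lv src tgt c (symmDiff S (bb src tgt r X))
  calc (symmDiff L (bd src tgt (OO π (cen c Y) L))).card
      ≤ L.card + (bd src tgt (OO π (cen c Y) L)).card := card_symmDiff_le' _ _
    _ ≤ L.card + D * (OO π (cen c Y) L).card := Nat.add_le_add_left (card_bd_le h _) _
    _ ≤ L.card + D * L.card := Nat.add_le_add_left (Nat.mul_le_mul_left _ (card_OO_le hπ L)) _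
    _ = (D + 1) * L.card := by ring

/-- the closure property -/
def Clo (src tgt : E → Wv) (r : ℕ) (S0 : Finset (E × Fin r × Fin r))
    (Y : Finset (Wv × Fin r)) : Prop :=
  ∀ X : Finset (Wv × Fin r), bb src tgt r X ⊆ S0 → X ⊆ Y ∨ Xᶜ ⊆ Y

theorem pair_sum {ε : Wv × Fin r → ℝ} (hε : ∀ v, ε v * ε v = 1) {c : Wv → Fin r}
    {Y : Finset (Wv × Fin r)} {S0 : Finset (E × Fin r × Fin r)} (hclo : Clo src tgt r S0 Y)
    {w1 : Wv} (hw1 : (w1, c w1) ∉ Y) {π : Wv → Finset E}
    (hπ : IsDual src tgt π (cen c Y)) (R : Finset E) (S1 S2 : Finset (E × Fin r × Fin r))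
    (h1 : S1 ⊆ S0) (h2 : S2 ⊆ S0) :
    (if lv src tgt c (star src tgt c π (cen c Y) S1) = R then
        epsX ε (lif c (OO π (cen c Y) (lv src tgt c S1))) else 0) *
      (if lv src tgt c (star src tgt c π (cen c Y) S2) = R then
        epsX ε (lif c (OO π (cen c Y) (lv src tgt c S2))) else 0) *
      ((2:ℝ) ^ (ncs c).card * ∑ a ∈ Ac src tgt ε c,
        chi (dd src tgt c (star src tgt c π (cen c Y) S1)) a *
        chi (dd src tgt c (star src tgt c π (cen c Y) S2)) a)
    = (if lv src tgt c (star src tgt c π (cen c Y) S1) = R then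
        (2:ℝ) ^ Fintype.card (E × Fin r × Fin r) *
        ∑ X ∈ Y.powerset, (if bb src tgt r X = symmDiff S1 S2 then epsX ε X else 0) else 0) := by
  set O1 := OO π (cen c Y) (lv src tgt c S1) with hO1
  set O2 := OO π (cen c Y) (lv src tgt c S2) with hO2
  by_cases hR1 : lv src tgt c (star src tgt c π (cen c Y) S1) = R
  swap
  · rw [if_neg hR1, if_neg hR1]; ring
  rw [if_pos hR1, if_pos hR1]
  by_cases hR2 : lv src tgt c (star src tgt c π (cen c Y) S2) = R
  swap
  · rw [if_neg hR2]
    have h3 : ∑ X ∈ Y.powerset, (if bb src tgt r X = symmDiff S1 S2 then epsX ε X else 0)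
        = 0 := by
      refine Finset.sum_eq_zero fun X hX => ?_
      rw [Finset.mem_powerset] at hX
      rw [if_neg]
      intro h4
      apply hR2
      rw [← hR1, ← lv_star_shift hπ S1 hX, h4, sd_sd]
    rw [h3]; ring
  rw [if_pos hR2]
  have h3 : ∀ a : E × Fin r × Fin r → Bool,
      chi (dd src tgt c (star src tgt c π (cen c Y) S1)) a *
        chi (dd src tgt c (star src tgt c π (cen c Y) S2)) a
      = chi (symmDiff (star src tgt c π (cen c Y) S1) (star src tgt c π (cen c Y) S2)) a := by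
    intro a
    rw [chi_mul, ← dd_symmDiff]
    congr 1
    ext v
    rw [mem_dd]
    refine ⟨fun h => h.1, fun h => ⟨h, fun h5 => ?_⟩⟩
    have h6 : v.1 ∈ lv src tgt c (symmDiff (star src tgt c π (cen c Y) S1)
        (star src tgt c π (cen c Y) S2)) := by
      rw [mem_lv, h5]; exact h
    rw [lv_symmDiff, hR1, hR2, symmDiff_self] at h6
    exact absurd h6 (Finset.notMem_empty _)
  rw [Finset.sum_congr rfl (fun a _ => h3 a), sum_Ac_chi ε hε]
  have h4 : epsX ε (lif c O1) * epsX ε (lif c O2) *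
      ∑ X ∈ (ncs c).powerset, (if bb src tgt r X
        = symmDiff (star src tgt c π (cen c Y) S1) (star src tgt c π (cen c Y) S2)
        then epsX ε X else 0)
      = ∑ X ∈ Y.powerset, (if bb src tgt r X = symmDiff S1 S2 then epsX ε X else 0) := by
    rw [← Finset.sum_filter, ← Finset.sum_filter, Finset.mul_sum]
    have hinv : ∀ X Z : Finset (Wv × Fin r), symmDiff (symmDiff X Z) Z = X := fun X Z =>
      symmDiff_symmDiff_cancel_right Z X
    have hLeq : lif c (symmDiff O1 O2) = symmDiff (lif c O1) (lif c O2) := lif_symmDiff O1 O2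
    have hstar : symmDiff (star src tgt c π (cen c Y) S1) (star src tgt c π (cen c Y) S2)
        = symmDiff (symmDiff S1 S2) (bb src tgt r (lif c (symmDiff O1 O2))) := by
      rw [hLeq, bb_symmDiff, star, star, ← hO1, ← hO2, symmDiff_symmDiff_symmDiff_comm]
    refine Finset.sum_nbij' (fun X => symmDiff X (lif c (symmDiff O1 O2)))
      (fun X => symmDiff X (lif c (symmDiff O1 O2))) ?_ ?_ ?_ ?_ ?_
    · intro X hX
      rw [Finset.mem_filter, Finset.mem_powerset] at hX ⊢
      have h5 : bb src tgt r (symmDiff X (lif c (symmDiff O1 O2))) = symmDiff S1 S2 := by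
        rw [bb_symmDiff, hX.2, hstar]
        exact symmDiff_symmDiff_cancel_right _ _
      refine ⟨?_, h5⟩
      have h6 : bb src tgt r (symmDiff X (lif c (symmDiff O1 O2))) ⊆ S0 := by
        rw [h5]
        intro v hv
        rw [Finset.mem_symmDiff] at hv
        rcases hv with hv | hv
        · exact h1 hv.1
        · exact h2 hv.1
      rcases hclo _ h6 with h7 | h7
      · exact h7
      · exfalso
        have h8 : (w1, c w1) ∈ symmDiff X (lif c (symmDiff O1 O2)) := by
          by_contra h9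
          exact hw1 (h7 (Finset.mem_compl.mpr h9))
        rw [Finset.mem_symmDiff] at h8
        rcases h8 with ⟨h9, _⟩ | ⟨h9, _⟩
        · have := hX.1 h9
          rw [mem_ncs] at this
          exact this rfl
        · rw [mem_lif, Finset.mem_symmDiff] at h9
          have h10 : w1 ∈ cen c Y := by
            rcases h9.2 with ⟨h11, _⟩ | ⟨h11, _⟩
            · exact (mem_OO.mp h11).1
            · exact (mem_OO.mp h11).1
          exact hw1 (mem_cen.mp h10)
    · intro X hX
      rw [Finset.mem_filter, Finset.mem_powerset] at hX ⊢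
      have h5 : O2 = symmDiff O1 (cen c X) := by
        have h6 := OO_shift hπ S1 hX.1
        rw [hX.2, sd_sd] at h6
        exact h6
      have h6 : symmDiff O1 O2 = cen c X := by
        rw [h5, sd_sd]
      constructor
      · intro v hv
        rw [mem_ncs]
        intro h7
        rw [h6, Finset.mem_symmDiff, mem_lif, mem_cen] at hv
        have h8 : (v.1, c v.1) = v := Prod.ext rfl h7
        rw [h8] at hv
        rcases hv with ⟨h9, h10⟩ | ⟨h9, h10⟩
        · exact h10 ⟨h7, h9⟩
        · exact h10 h9.2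
      · rw [bb_symmDiff, hX.2, hstar]
    · intro X _; exact hinv X _
    · intro X _; exact hinv X _
    · intro X _
      rw [epsX_symmDiff hε, hLeq, epsX_symmDiff hε]
      ring
  rw [← h4]
  ring

/-- sums of transforms over the group generated by `Y` -/
noncomputable def gt (src tgt : E → Wv) (ε : Wv × Fin r → ℝ) (Y : Finset (Wv × Fin r))
    (f : (E × Fin r × Fin r → Bool) → ℝ) (S : Finset (E × Fin r × Fin r)) : ℝ :=
  ∑ X ∈ Y.powerset, epsX ε X * W f (symmDiff S (bb src tgt r X))

theorem moment_R {ε : Wv × Fin r → ℝ} (hε : ∀ v, ε v * ε v = 1) {c : Wv → Fin r}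
    {Y : Finset (Wv × Fin r)} {S0 : Finset (E × Fin r × Fin r)} (hclo : Clo src tgt r S0 Y)
    {w1 : Wv} (hw1 : (w1, c w1) ∉ Y) {π : Wv → Finset E}
    (hπ : IsDual src tgt π (cen c Y)) (A : Fm (E × Fin r × Fin r))
    (hS0 : ∀ S, W (ind A) S ≠ 0 → S ⊆ S0) (R : Finset E) :
    (2:ℝ) ^ (ncs c).card * ∑ a ∈ Ac src tgt ε c,
      ((2:ℝ) ^ Fintype.card (E × Fin r × Fin r) *
        W (rl (GG src tgt ε c a π (cen c Y) A)) R) ^ 2
    = (4:ℝ) ^ Fintype.card E * (2:ℝ) ^ Fintype.card (E × Fin r × Fin r) *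
      ∑ S : Finset (E × Fin r × Fin r),
        (if lv src tgt c (star src tgt c π (cen c Y) S) = R then
          W (ind A) S * gt src tgt ε Y (ind A) S else 0) := by
  set h : Finset (E × Fin r × Fin r) → ℝ := fun S =>
    if lv src tgt c (star src tgt c π (cen c Y) S) = R then
      epsX ε (lif c (OO π (cen c Y) (lv src tgt c S))) else 0 with hh
  set dS : Finset (E × Fin r × Fin r) → Finset (E × Fin r × Fin r) := fun S =>
    dd src tgt c (star src tgt c π (cen c Y) S) with hdS
  have e1 : ∀ a : E × Fin r × Fin r → Bool,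
      ((2:ℝ) ^ Fintype.card (E × Fin r × Fin r) *
        W (rl (GG src tgt ε c a π (cen c Y) A)) R) ^ 2
      = (4:ℝ) ^ Fintype.card E * ∑ S1, ∑ S2, W (ind A) S1 * W (ind A) S2 *
          (h S1 * h S2 * (chi (dS S1) a * chi (dS S2) a)) := by
    intro a
    rw [W_GG hε, mul_pow]
    have : ((2:ℝ) ^ Fintype.card E) ^ 2 = 4 ^ Fintype.card E := by
      rw [← pow_mul, mul_comm, pow_mul]; norm_num
    rw [this, sq, Finset.sum_mul_sum]
    congr 1
    refine Finset.sum_congr rfl fun S1 _ => Finset.sum_congr rfl fun S2 _ => ?_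
    rw [hh, hdS]
    simp only
    split_ifs <;> ring
  have e2 : ∀ S1 S2 : Finset (E × Fin r × Fin r), W (ind A) S1 * W (ind A) S2 *
      (h S1 * h S2 * ((2:ℝ) ^ (ncs c).card * ∑ a ∈ Ac src tgt ε c,
        chi (dS S1) a * chi (dS S2) a))
      = (2:ℝ) ^ Fintype.card (E × Fin r × Fin r) * (W (ind A) S1 *
        ∑ X ∈ Y.powerset, (if bb src tgt r X = symmDiff S1 S2 then
          (if lv src tgt c (star src tgt c π (cen c Y) S1) = R then
          epsX ε X * W (ind A) S2 else 0) else 0)) := by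
    intro S1 S2
    by_cases hS1 : W (ind A) S1 = 0
    · rw [hS1]; ring
    by_cases hS2 : W (ind A) S2 = 0
    · rw [hS2]
      simp
    rw [hh, hdS]
    simp only
    rw [pair_sum hε hclo hw1 hπ R S1 S2 (hS0 _ hS1) (hS0 _ hS2)]
    by_cases hR : lv src tgt c (star src tgt c π (cen c Y) S1) = R
    · simp only [if_pos hR]
      rw [Finset.mul_sum, Finset.mul_sum, Finset.mul_sum, Finset.mul_sum]
      refine Finset.sum_congr rfl fun X _ => ?_
      split_ifs <;> ring
    · simp only [if_neg hR]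
      simp
  calc (2:ℝ) ^ (ncs c).card * ∑ a ∈ Ac src tgt ε c,
      ((2:ℝ) ^ Fintype.card (E × Fin r × Fin r) *
        W (rl (GG src tgt ε c a π (cen c Y) A)) R) ^ 2
      = (4:ℝ) ^ Fintype.card E * ∑ S1, ∑ S2, W (ind A) S1 * W (ind A) S2 *
        (h S1 * h S2 * ((2:ℝ) ^ (ncs c).card * ∑ a ∈ Ac src tgt ε c,
          chi (dS S1) a * chi (dS S2) a)) := by
        simp only [e1]
        rw [← Finset.mul_sum, Finset.sum_comm]
        rw [show (2:ℝ) ^ (ncs c).card * ((4:ℝ) ^ Fintype.card E *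
            ∑ y, ∑ x ∈ Ac src tgt ε c, ∑ S2, W (ind A) y * W (ind A) S2 *
              (h y * h S2 * (chi (dS y) x * chi (dS S2) x)))
            = (4:ℝ) ^ Fintype.card E * ∑ y, ((2:ℝ) ^ (ncs c).card *
              ∑ x ∈ Ac src tgt ε c, ∑ S2, W (ind A) y * W (ind A) S2 *
              (h y * h S2 * (chi (dS y) x * chi (dS S2) x))) from by
              rw [← Finset.mul_sum]; ring]
        congr 1
        refine Finset.sum_congr rfl fun S1 _ => ?_
        rw [Finset.sum_comm, Finset.mul_sum]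
        refine Finset.sum_congr rfl fun S2 _ => ?_
        rw [← Finset.mul_sum, ← Finset.mul_sum]
        ring
    _ = (4:ℝ) ^ Fintype.card E * ∑ S1, ∑ S2, (2:ℝ) ^ Fintype.card (E × Fin r × Fin r) *
        (W (ind A) S1 * ∑ X ∈ Y.powerset, (if bb src tgt r X = symmDiff S1 S2 then
          (if lv src tgt c (star src tgt c π (cen c Y) S1) = R then
          epsX ε X * W (ind A) S2 else 0) else 0)) := by
        congr 1
        exact Finset.sum_congr rfl fun S1 _ => Finset.sum_congr rfl fun S2 _ => e2 S1 S2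
    _ = _ := by
        rw [mul_assoc]
        congr 1
        rw [Finset.mul_sum]
        refine Finset.sum_congr rfl fun S1 _ => ?_
        rw [← Finset.mul_sum]
        congr 1
        rw [← Finset.mul_sum, Finset.sum_comm]
        by_cases hR : lv src tgt c (star src tgt c π (cen c Y) S1) = R
        · simp only [if_pos hR]
          congr 1
          unfold gt
          refine Finset.sum_congr rfl fun X _ => ?_
          rw [Finset.sum_eq_single (symmDiff S1 (bb src tgt r X))]
          · rw [if_pos (sd_sd _ _).symm]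
          · intro S2 _ hne
            rw [if_neg]
            intro h5
            apply hne
            rw [h5, sd_sd]
          · intro h5; exact absurd (mem_univ _) h5
        · simp only [if_neg hR]
          simp

/-- weighted sum over all `R` -/
theorem moment_all {ε : Wv × Fin r → ℝ} (hε : ∀ v, ε v * ε v = 1) {c : Wv → Fin r}
    {Y : Finset (Wv × Fin r)} {S0 : Finset (E × Fin r × Fin r)} (hclo : Clo src tgt r S0 Y)
    {w1 : Wv} (hw1 : (w1, c w1) ∉ Y) {π : Wv → Finset E}
    (hπ : IsDual src tgt π (cen c Y)) (A : Fm (E × Fin r × Fin r))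
    (hS0 : ∀ S, W (ind A) S ≠ 0 → S ⊆ S0) :
    (2:ℝ) ^ (ncs c).card * ∑ a ∈ Ac src tgt ε c, ∑ R : Finset E, 8 ^ R.card *
      (2:ℝ) ^ Fintype.card (E × Fin r × Fin r) *
        W (rl (GG src tgt ε c a π (cen c Y) A)) R ^ 2
    = (4:ℝ) ^ Fintype.card E *
      ∑ S : Finset (E × Fin r × Fin r),
        8 ^ (lv src tgt c (star src tgt c π (cen c Y) S)).card *
          (W (ind A) S * gt src tgt ε Y (ind A) S) := by
  have hV : (2:ℝ) ^ Fintype.card (E × Fin r × Fin r) ≠ 0 := by positivity
  refine mul_left_cancel₀ hV ?_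
  have h1 := fun R => moment_R hε hclo hw1 hπ A hS0 R
  calc (2:ℝ) ^ Fintype.card (E × Fin r × Fin r) *
      ((2:ℝ) ^ (ncs c).card * ∑ a ∈ Ac src tgt ε c, ∑ R : Finset E, 8 ^ R.card *
      (2:ℝ) ^ Fintype.card (E × Fin r × Fin r) *
        W (rl (GG src tgt ε c a π (cen c Y) A)) R ^ 2)
      = ∑ R : Finset E, 8 ^ R.card * ((2:ℝ) ^ (ncs c).card * ∑ a ∈ Ac src tgt ε c,
      ((2:ℝ) ^ Fintype.card (E × Fin r × Fin r) *
        W (rl (GG src tgt ε c a π (cen c Y) A)) R) ^ 2) := by
        rw [Finset.sum_comm, Finset.mul_sum, Finset.mul_sum]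
        refine Finset.sum_congr rfl fun R _ => ?_
        rw [Finset.mul_sum, Finset.mul_sum, Finset.mul_sum, Finset.mul_sum]
        refine Finset.sum_congr rfl fun a _ => ?_
        ring
    _ = ∑ R : Finset E, 8 ^ R.card * ((4:ℝ) ^ Fintype.card E *
        (2:ℝ) ^ Fintype.card (E × Fin r × Fin r) *
      ∑ S : Finset (E × Fin r × Fin r),
        (if lv src tgt c (star src tgt c π (cen c Y) S) = R then
          W (ind A) S * gt src tgt ε Y (ind A) S else 0)) :=
        Finset.sum_congr rfl fun R _ => by rw [h1 R]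
    _ = _ := by
        have h2 : ∀ R : Finset E, 8 ^ R.card * ((4:ℝ) ^ Fintype.card E *
            (2:ℝ) ^ Fintype.card (E × Fin r × Fin r) *
            ∑ S : Finset (E × Fin r × Fin r),
            (if lv src tgt c (star src tgt c π (cen c Y) S) = R then
              W (ind A) S * gt src tgt ε Y (ind A) S else 0))
            = (4:ℝ) ^ Fintype.card E * (2:ℝ) ^ Fintype.card (E × Fin r × Fin r) *
            ∑ S : Finset (E × Fin r × Fin r),
            (if lv src tgt c (star src tgt c π (cen c Y) S) = R then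
              8 ^ R.card * (W (ind A) S * gt src tgt ε Y (ind A) S) else 0) := by
          intro R
          rw [← mul_assoc, mul_comm ((8:ℝ) ^ R.card), mul_assoc]
          congr 1
          rw [Finset.mul_sum]
          refine Finset.sum_congr rfl fun S _ => ?_
          split_ifs <;> ring
        simp only [h2]
        rw [← Finset.mul_sum, Finset.sum_comm]
        simp only [Finset.sum_ite_eq, mem_univ, if_true]
        ring

theorem gt_shift {ε : Wv × Fin r → ℝ} (hε : ∀ v, ε v * ε v = 1)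
    {Y : Finset (Wv × Fin r)} (f : (E × Fin r × Fin r → Bool) → ℝ)
    (S : Finset (E × Fin r × Fin r)) {X : Finset (Wv × Fin r)} (hX : X ⊆ Y) :
    gt src tgt ε Y f (symmDiff S (bb src tgt r X)) = epsX ε X * gt src tgt ε Y f S := by
  unfold gt
  rw [Finset.mul_sum]
  have hsub : ∀ Z : Finset (Wv × Fin r), Z ⊆ Y → symmDiff Z X ⊆ Y := by
    intro Z hZ v hv
    rw [Finset.mem_symmDiff] at hv
    rcases hv with hv | hv
    · exact hZ hv.1
    · exact hX hv.1
  refine Finset.sum_nbij' (fun Z => symmDiff Z X) (fun Z => symmDiff Z X) ?_ ?_ ?_ ?_ ?_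
  · intro Z hZ
    rw [Finset.mem_powerset] at hZ ⊢
    exact hsub Z hZ
  · intro Z hZ
    rw [Finset.mem_powerset] at hZ ⊢
    exact hsub Z hZ
  · intro Z _; exact symmDiff_symmDiff_cancel_right X Z
  · intro Z _; exact symmDiff_symmDiff_cancel_right X Z
  · intro Z _
    rw [epsX_symmDiff hε, bb_symmDiff]
    have h1 : symmDiff S (symmDiff (bb src tgt r Z) (bb src tgt r X))
        = symmDiff (symmDiff S (bb src tgt r X)) (bb src tgt r Z) := by
      ext e
      simp only [Finset.mem_symmDiff]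
      tauto
    rw [h1]
    linear_combination (-(epsX ε Z * W f (symmDiff (symmDiff S (bb src tgt r X))
      (bb src tgt r Z)))) * epsX_mul_self hε X

/-- the shift permutation of sets -/
def shiftP {α : Type} [DecidableEq α] (B : Finset α) : Equiv.Perm (Finset α) :=
  Function.Involutive.toPerm (fun S => symmDiff S B) (fun S =>
    symmDiff_symmDiff_cancel_right B S)

theorem sum_shift {α : Type} [DecidableEq α] [Fintype α] (B : Finset α) (f : Finset α → ℝ) :
    ∑ S, f (symmDiff S B) = ∑ S, f S :=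
  Equiv.sum_comp (shiftP B) f

theorem gt_average {ε : Wv × Fin r → ℝ} (hε : ∀ v, ε v * ε v = 1)
    {Y : Finset (Wv × Fin r)} (f : (E × Fin r × Fin r → Bool) → ℝ)
    (w : Finset (E × Fin r × Fin r) → ℝ)
    (hw : ∀ S, ∀ X ⊆ Y, w (symmDiff S (bb src tgt r X)) = w S) :
    (2:ℝ) ^ Y.card * ∑ S, w S * (W f S * gt src tgt ε Y f S)
      = ∑ S, w S * gt src tgt ε Y f S ^ 2 := by
  have h1 : ∀ S, w S * gt src tgt ε Y f S ^ 2
      = ∑ X ∈ Y.powerset, w S * gt src tgt ε Y f S *
        (epsX ε X * W f (symmDiff S (bb src tgt r X))) := by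
    intro S
    rw [← Finset.mul_sum]
    have : ∑ X ∈ Y.powerset, epsX ε X * W f (symmDiff S (bb src tgt r X))
        = gt src tgt ε Y f S := rfl
    rw [this]; ring
  simp only [h1]
  rw [Finset.sum_comm]
  have h2 : ∀ X ∈ Y.powerset, ∑ S, w S * gt src tgt ε Y f S *
        (epsX ε X * W f (symmDiff S (bb src tgt r X)))
      = ∑ S, w S * (W f S * gt src tgt ε Y f S) := by
    intro X hX
    rw [Finset.mem_powerset] at hX
    rw [← sum_shift (bb src tgt r X) (fun S => w S * (W f S * gt src tgt ε Y f S))]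
    refine Finset.sum_congr rfl fun S _ => ?_
    rw [hw S X hX, gt_shift hε f S hX]
    ring
  rw [Finset.sum_congr rfl h2, Finset.sum_const, Finset.card_powerset, nsmul_eq_mul]
  push_cast
  ring

/-- the function whose transform is `gt` -/
noncomputable def phiY (src tgt : E → Wv) (ε : Wv × Fin r → ℝ) (Y : Finset (Wv × Fin r))
    (x : E × Fin r × Fin r → Bool) : ℝ :=
  ∑ X ∈ Y.powerset, epsX ε X * chi (bb src tgt r X) x

theorem W_mul_phiY (ε : Wv × Fin r → ℝ) (Y : Finset (Wv × Fin r))
    (f : (E × Fin r × Fin r → Bool) → ℝ) (S : Finset (E × Fin r × Fin r)) :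
    W (fun x => f x * phiY src tgt ε Y x) S = gt src tgt ε Y f S := by
  unfold gt phiY W
  simp only [Finset.mul_sum, Finset.sum_mul]
  rw [Finset.sum_comm]
  refine Finset.sum_congr rfl fun X _ => Finset.sum_congr rfl fun x _ => ?_
  rw [← chi_mul]; ring

theorem NP_phiY (hconn : Conn src tgt r) {ε : Wv × Fin r → ℝ} (hε : ∀ v, ε v * ε v = 1)
    {Y : Finset (Wv × Fin r)} (hY : Y ≠ univ) (Φ : Finset (E × Fin r × Fin r) → ℝ) :
    NP Φ (phiY src tgt ε Y)
      = (4:ℝ) ^ Fintype.card (E × Fin r × Fin r) *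
        ∑ X ∈ Y.powerset, Φ (bb src tgt r X) := by
  have hinj : ∀ X ∈ Y.powerset, ∀ X' ∈ Y.powerset, bb src tgt r X = bb src tgt r X' →
      X = X' := by
    intro X hX X' hX' h
    rw [Finset.mem_powerset] at hX hX'
    have h1 : bb src tgt r (symmDiff X X') = ∅ := by
      rw [bb_symmDiff, h, symmDiff_self]; rfl
    rcases hconn _ h1 with h2 | h2
    · rw [← Finset.bot_eq_empty, symmDiff_eq_bot] at h2
      exact h2
    · exfalso
      apply hY
      refine Finset.eq_univ_of_forall fun v => ?_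
      have h3 : v ∈ symmDiff X X' := by rw [h2]; exact mem_univ v
      rw [Finset.mem_symmDiff] at h3
      rcases h3 with h3 | h3
      · exact hX h3.1
      · exact hX' h3.1
  have h1 : ∀ S, W (phiY src tgt ε Y) S
      = ∑ X ∈ Y.powerset, epsX ε X * (if bb src tgt r X = S then
        (2:ℝ) ^ Fintype.card (E × Fin r × Fin r) else 0) := by
    intro S
    unfold phiY
    unfold W
    simp only [Finset.sum_mul]
    rw [Finset.sum_comm]
    refine Finset.sum_congr rfl fun X _ => ?_
    simp only [mul_assoc]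
    rw [← Finset.mul_sum, sum_x_chi_chi]
  have h4V : (4:ℝ) ^ Fintype.card (E × Fin r × Fin r)
      = (2:ℝ) ^ Fintype.card (E × Fin r × Fin r) * (2:ℝ) ^ Fintype.card (E × Fin r × Fin r) := by
    rw [← mul_pow]; norm_num
  unfold NP
  calc ∑ S, Φ S * W (phiY src tgt ε Y) S ^ 2
      = ∑ S, ∑ X ∈ Y.powerset, ∑ X' ∈ Y.powerset,
        (if bb src tgt r X = S then (if bb src tgt r X' = S then Φ S * (epsX ε X * epsX ε X' *
          (4:ℝ) ^ Fintype.card (E × Fin r × Fin r)) else 0) else 0) := by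
        refine Finset.sum_congr rfl fun S _ => ?_
        rw [h1, sq, Finset.sum_mul_sum, Finset.mul_sum]
        refine Finset.sum_congr rfl fun X _ => ?_
        rw [Finset.mul_sum]
        refine Finset.sum_congr rfl fun X' _ => ?_
        rw [h4V]
        split_ifs <;> ring
    _ = ∑ X ∈ Y.powerset, ∑ X' ∈ Y.powerset,
        (if bb src tgt r X' = bb src tgt r X then Φ (bb src tgt r X) * (epsX ε X * epsX ε X' *
          (4:ℝ) ^ Fintype.card (E × Fin r × Fin r)) else 0) := by
        rw [Finset.sum_comm]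
        refine Finset.sum_congr rfl fun X _ => ?_
        rw [Finset.sum_comm]
        refine Finset.sum_congr rfl fun X' _ => ?_
        rw [Finset.sum_ite_eq]
        simp
    _ = ∑ X ∈ Y.powerset, (4:ℝ) ^ Fintype.card (E × Fin r × Fin r) * Φ (bb src tgt r X) := by
        refine Finset.sum_congr rfl fun X hX => ?_
        rw [Finset.sum_eq_single X]
        · rw [if_pos rfl]
          linear_combination (Φ (bb src tgt r X) *
            (4:ℝ) ^ Fintype.card (E × Fin r × Fin r)) * epsX_mul_self hε X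
        · intro X' hX' hne
          rw [if_neg]
          intro h
          exact hne (hinj X' hX' X hX h)
        · intro h; exact absurd hX h
    _ = _ := by rw [Finset.mul_sum]

theorem card_ncs (c : Wv → Fin r) : (ncs c).card + Fintype.card Wv = Fintype.card Wv * r := by
  have h1 : (univ.filter fun v : Wv × Fin r => ¬ c v.1 ≠ v.2).card = Fintype.card Wv := by
    have : (univ.filter fun v : Wv × Fin r => ¬ c v.1 ≠ v.2)
        = (univ : Finset Wv).map ⟨fun w => (w, c w), fun a b hab => by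
          exact (Prod.ext_iff.mp hab).1⟩ := by
      ext v
      rw [Finset.mem_filter, Finset.mem_map, not_not]
      constructor
      · rintro ⟨_, h⟩
        exact ⟨v.1, mem_univ _, Prod.ext rfl h⟩
      · rintro ⟨w, _, rfl⟩
        exact ⟨mem_univ _, rfl⟩
    rw [this, Finset.card_map, Finset.card_univ]
  have h2 := Finset.card_filter_add_card_filter_not (s := (univ : Finset (Wv × Fin r)))
    (fun v => c v.1 ≠ v.2)
  rw [h1, Finset.card_univ, Fintype.card_prod, Fintype.card_fin] at h2
  exact h2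

/-- **Main moment bound.** `good` is a set of centre choices, `πs c` a dual family on `cen c Y`. -/
theorem main_moment {D c0 : ℕ} (h : SG src tgt D c0) (hr : 1 ≤ r) (hconn : Conn src tgt r)
    {ε : Wv × Fin r → ℝ} (hε : ∀ v, ε v * ε v = 1)
    {Y : Finset (Wv × Fin r)} (hY : Y ≠ univ)
    {S0 : Finset (E × Fin r × Fin r)} (hclo : Clo src tgt r S0 Y)
    (good : Finset (Wv → Fin r)) (πs : (Wv → Fin r) → Wv → Finset E)
    (hgood : ∀ c ∈ good, (∃ w1, (w1, c w1) ∉ Y) ∧ IsDual src tgt (πs c) (cen c Y))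
    (A : Fm (E × Fin r × Fin r)) (hS0 : ∀ S, W (ind A) S ≠ 0 → S ⊆ S0)
    (u η : ℝ) (hu : u = 8 ^ (D + 1)) (hη : η = (u - 1) * u ^ (2 * D) / (r:ℝ) ^ 2) :
    (2:ℝ) ^ (Fintype.card Wv * r - Fintype.card Wv) *
      ∑ c ∈ good, ∑ a ∈ Ac src tgt ε c, ∑ R : Finset E, 8 ^ R.card *
        W (rl (GG src tgt ε c a (πs c) (cen c Y) A)) R ^ 2
    ≤ (4:ℝ) ^ Fintype.card E * (2:ℝ) ^ Fintype.card (E × Fin r × Fin r) *
      (1 + η ^ 2 / 4) ^ A.leaves * (r:ℝ) ^ Fintype.card Wv := by
  have hu1 : 1 ≤ u := by rw [hu]; exact one_le_pow₀ (by norm_num)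
  have hη0 : 0 ≤ η := by
    rw [hη]
    apply div_nonneg
    · apply mul_nonneg; linarith; positivity
    · positivity
  set NV : ℝ := (2:ℝ) ^ Fintype.card (E × Fin r × Fin r) with hNV
  have hNVpos : 0 < NV := by rw [hNV]; positivity
  have hYpos : (0:ℝ) < 2 ^ Y.card := by positivity
  -- one centre choice
  have h1 : ∀ c ∈ good, (2:ℝ) ^ Y.card * (NV * ((2:ℝ) ^ (Fintype.card Wv * r - Fintype.card Wv) *
      ∑ a ∈ Ac src tgt ε c, ∑ R : Finset E, 8 ^ R.card *
        W (rl (GG src tgt ε c a (πs c) (cen c Y) A)) R ^ 2))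
      ≤ (4:ℝ) ^ Fintype.card E * ∑ S, u ^ Nc src tgt c Y S * gt src tgt ε Y (ind A) S ^ 2 := by
    intro c hc
    obtain ⟨⟨w1, hw1⟩, hπ⟩ := hgood c hc
    have h2 := moment_all hε hclo hw1 hπ A hS0
    have h3 : (ncs c).card = Fintype.card Wv * r - Fintype.card Wv := by
      have := card_ncs c; omega
    rw [h3] at h2
    have h4 : NV * ((2:ℝ) ^ (Fintype.card Wv * r - Fintype.card Wv) *
      ∑ a ∈ Ac src tgt ε c, ∑ R : Finset E, 8 ^ R.card *
        W (rl (GG src tgt ε c a (πs c) (cen c Y) A)) R ^ 2)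
        = (2:ℝ) ^ (Fintype.card Wv * r - Fintype.card Wv) *
        ∑ a ∈ Ac src tgt ε c, ∑ R : Finset E, 8 ^ R.card *
          (2:ℝ) ^ Fintype.card (E × Fin r × Fin r) *
          W (rl (GG src tgt ε c a (πs c) (cen c Y) A)) R ^ 2 := by
      rw [Finset.mul_sum, Finset.mul_sum, Finset.mul_sum]
      refine Finset.sum_congr rfl fun a _ => ?_
      rw [Finset.mul_sum, Finset.mul_sum, Finset.mul_sum]
      refine Finset.sum_congr rfl fun R _ => ?_
      rw [hNV]; ring
    rw [h4, h2]
    have h5 := gt_average (src := src) (tgt := tgt) hε (Y := Y) (ind A)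
      (fun S => (8:ℝ) ^ (lv src tgt c (star src tgt c (πs c) (cen c Y) S)).card)
      (fun S X hX => by
        show (8:ℝ) ^ _ = (8:ℝ) ^ _
        rw [lv_star_shift hπ S hX])
    calc (2:ℝ) ^ Y.card * ((4:ℝ) ^ Fintype.card E *
          ∑ S : Finset (E × Fin r × Fin r),
          8 ^ (lv src tgt c (star src tgt c (πs c) (cen c Y) S)).card *
            (W (ind A) S * gt src tgt ε Y (ind A) S))
        = (4:ℝ) ^ Fintype.card E * ((2:ℝ) ^ Y.card *
          ∑ S : Finset (E × Fin r × Fin r),
          8 ^ (lv src tgt c (star src tgt c (πs c) (cen c Y) S)).card *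
            (W (ind A) S * gt src tgt ε Y (ind A) S)) := by ring
      _ = (4:ℝ) ^ Fintype.card E * ∑ S : Finset (E × Fin r × Fin r),
          8 ^ (lv src tgt c (star src tgt c (πs c) (cen c Y) S)).card *
            gt src tgt ε Y (ind A) S ^ 2 := by rw [h5]
      _ ≤ _ := by
          refine mul_le_mul_of_nonneg_left ?_ (by positivity)
          refine Finset.sum_le_sum fun S _ => ?_
          refine mul_le_mul_of_nonneg_right ?_ (sq_nonneg _)
          calc (8:ℝ) ^ (lv src tgt c (star src tgt c (πs c) (cen c Y) S)).card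
              ≤ 8 ^ ((D + 1) * Nc src tgt c Y S) :=
                pow_le_pow_right₀ (by norm_num) (card_lv_star_le h hπ S)
            _ = u ^ Nc src tgt c Y S := by rw [hu, ← pow_mul]
  -- sum over the centre choices
  have hpos := fun S => Phi_pos (src := src) (tgt := tgt) hu1 hr Y S
  have h2 : ∑ c ∈ good, (4:ℝ) ^ Fintype.card E *
      ∑ S, u ^ Nc src tgt c Y S * gt src tgt ε Y (ind A) S ^ 2
      ≤ (4:ℝ) ^ Fintype.card E * NP (Phi src tgt u Y) (fun x => ind A x * phiY src tgt ε Y x) := by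
    rw [← Finset.mul_sum]
    refine mul_le_mul_of_nonneg_left ?_ (by positivity)
    refine (Finset.sum_le_sum_of_subset_of_nonneg (Finset.subset_univ good)
      (fun c _ _ => Finset.sum_nonneg fun S _ => by positivity)).trans (le_of_eq ?_)
    rw [Finset.sum_comm]
    unfold NP
    refine Finset.sum_congr rfl fun S _ => ?_
    rw [W_mul_phiY]
    unfold Phi
    rw [Finset.sum_mul]
  have h3 := weighted_moment hpos hη0 (fun S i => by rw [hη]; exact Phi_lip h hu1 hr Y S i) A
    (phiY src tgt ε Y)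
  rw [NP_phiY hconn hε hY] at h3
  have h4 : ∑ X ∈ Y.powerset, Phi src tgt u Y (bb src tgt r X)
      = (2:ℝ) ^ Y.card * (r:ℝ) ^ Fintype.card Wv := by
    rw [Finset.sum_congr rfl (fun X hX => Phi_bb u (Finset.mem_powerset.mp hX)),
      Finset.sum_const, Finset.card_powerset, nsmul_eq_mul]
    push_cast
    ring
  rw [h4] at h3
  have h4V : (4:ℝ) ^ Fintype.card (E × Fin r × Fin r) = NV * NV := by
    rw [hNV, ← mul_pow]; norm_num
  rw [h4V] at h3
  have h5 : (2:ℝ) ^ Y.card * (NV * ((2:ℝ) ^ (Fintype.card Wv * r - Fintype.card Wv) *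
      ∑ c ∈ good, ∑ a ∈ Ac src tgt ε c, ∑ R : Finset E, 8 ^ R.card *
        W (rl (GG src tgt ε c a (πs c) (cen c Y) A)) R ^ 2))
      ≤ (4:ℝ) ^ Fintype.card E * ((1 + η ^ 2 / 4) ^ A.leaves * (NV * NV *
        ((2:ℝ) ^ Y.card * (r:ℝ) ^ Fintype.card Wv))) := by
    calc (2:ℝ) ^ Y.card * (NV * ((2:ℝ) ^ (Fintype.card Wv * r - Fintype.card Wv) *
        ∑ c ∈ good, ∑ a ∈ Ac src tgt ε c, ∑ R : Finset E, 8 ^ R.card *
          W (rl (GG src tgt ε c a (πs c) (cen c Y) A)) R ^ 2))
        = ∑ c ∈ good, (2:ℝ) ^ Y.card * (NV *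
          ((2:ℝ) ^ (Fintype.card Wv * r - Fintype.card Wv) *
          ∑ a ∈ Ac src tgt ε c, ∑ R : Finset E, 8 ^ R.card *
            W (rl (GG src tgt ε c a (πs c) (cen c Y) A)) R ^ 2)) := by
          rw [Finset.mul_sum, Finset.mul_sum, Finset.mul_sum]
      _ ≤ ∑ c ∈ good, (4:ℝ) ^ Fintype.card E *
          ∑ S, u ^ Nc src tgt c Y S * gt src tgt ε Y (ind A) S ^ 2 := Finset.sum_le_sum h1
      _ ≤ _ := h2
      _ ≤ _ := mul_le_mul_of_nonneg_left h3 (by positivity)
  have hfac : (0:ℝ) < 2 ^ Y.card * NV := by positivity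
  refine le_of_mul_le_mul_left ?_ hfac
  calc _ = (2:ℝ) ^ Y.card * (NV * ((2:ℝ) ^ (Fintype.card Wv * r - Fintype.card Wv) *
      ∑ c ∈ good, ∑ a ∈ Ac src tgt ε c, ∑ R : Finset E, 8 ^ R.card *
        W (rl (GG src tgt ε c a (πs c) (cen c Y) A)) R ^ 2)) := by ring
    _ ≤ _ := h5
    _ = _ := by ring

end Pool.Agent.H3.Frg2
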