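import Mathlib
import Pool.Agent.H3.Frg2.Proj

set_option autoImplicit false
set_option linter.unusedSectionVars false

/-!
# The pseudo-expectation as an instance of `PA`
-/

namespace Pool.Agent.H3.Frg2

open Finset Pool.Agent.H3.Frg

variable {E Wv : Type} [Fintype E] [DecidableEq E] [Fintype Wv] [DecidableEq Wv]
  {src tgt : E → Wv}

theorem expd_of_SG {D c0 d : ℕ} (h : SG src tgt D c0) (hd : 3 * c0 * d < Fintype.card Wv)
    (h3 : 3 ≤ Fintype.card Wv) : Expd src tgt d := by
  refine ⟨fun X h1 h2 => ?_, fun X h1 h2 => ?_, h3⟩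
  · have h4 := h.cheeger X
    by_contra h5
    push Not at h5
    have h6 : c0 * (bd src tgt X).card ≤ c0 * d := Nat.mul_le_mul_left _ h5
    have h7 : 3 * c0 * d = 3 * (c0 * d) := by ring
    have hle : X.card ≤ Fintype.card Wv := Finset.card_le_univ X
    rcases le_total X.card (Fintype.card Wv - X.card) with h8 | h8
    · rw [min_eq_left h8] at h4; omega
    · rw [min_eq_right h8] at h4; omega
  · have h4 := h.cheeger X
    rw [h2, Finset.card_empty, mul_zero] at h4
    have hle : X.card ≤ Fintype.card Wv := Finset.card_le_univ X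
    rcases le_total X.card (Fintype.card Wv - X.card) with h8 | h8
    · rw [min_eq_left h8] at h4
      exact Finset.card_eq_zero.mp (by omega)
    · rw [min_eq_right h8] at h4; omega

/-- pseudo-equal to zero -/
def ZZ (src tgt : E → Wv) (d M : ℕ) (ε : Wv → ℝ) (p : (E → Bool) → ℝ) : Prop :=
  ∀ S : Finset E, S.card ≤ M → Et src tgt d ε (fun z => chi S z * p z) = 0

theorem Et_zero (src tgt : E → Wv) (d : ℕ) (ε : Wv → ℝ) : Et src tgt d ε (fun _ => 0) = 0 := by
  unfold Et W
  simp

theorem Dg_zero (c : ℝ) : Dg (fun _ : E → Bool => c) 0 := by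
  intro T hT
  have h1 : (fun _ : E → Bool => c) = fun z => c * chi ∅ z := by
    funext z; rw [chi_empty, mul_one]
  rw [h1, W_smul, W_chi, if_neg, mul_zero]
  rintro rfl
  simp at hT

/-- the pseudo-evaluation structure of a Tseitin system on an expander -/
noncomputable def pa (d M : ℕ) (hx : Expd src tgt d) (hM : 2 * M ≤ d) (ε : Wv → ℝ)
    (hε : ∀ w, ε w * ε w = 1) : PA (E → Bool) where
  Dg := Dg
  Z := ZZ src tgt d M ε
  M := M
  dg_mono := fun h hab => Dg_mono h hab
  dg_const := Dg_zero
  dg_add := by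
    intro p q a hp hq T hT
    rw [W_add, hp T hT, hq T hT, add_zero]
  dg_smul := by
    intro p a c hp T hT
    rw [W_smul, hp T hT, mul_zero]
  dg_mul := fun h1 h2 => Dg_mul h1 h2
  z_zero := by
    intro S _
    simp only [mul_zero]
    exact Et_zero _ _ _ _
  z_add := by
    intro p q hp hq S hS
    have : (fun z => chi S z * (p z + q z)) = fun z => chi S z * p z + chi S z * q z := by
      funext z; ring
    rw [this, Et_add, hp S hS, hq S hS, add_zero]
  z_smul := by
    intro p c hp S hS
    have : (fun z => chi S z * (c * p z)) = fun z => c * (chi S z * p z) := by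
      funext z; ring
    rw [this, Et_smul, hp S hS, mul_zero]
  z_mul := by
    intro p h a b hp hpa hhb hab R hR
    have h1 : (fun z => chi R z * (h z * p z)) = fun z => h z * (chi R z * p z) := by
      funext z; ring
    rw [h1]
    refine Et_mul_zero hhb fun S hS => ?_
    have h2 : (fun z => chi S z * (chi R z * p z)) = fun z => chi (symmDiff S R) z * p z := by
      funext z; rw [← chi_mul]; ring
    rw [h2]
    have h3 := card_symmDiff_le' S R
    exact transfer hx hε (k := a) (by omega) hpa (fun T hT => hp T (by omega)) _ (by omega)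
  z_one := by
    intro h
    have h1 := h ∅ (by simp)
    simp only [mul_one] at h1
    rw [Et_one hx] at h1
    exact absurd h1 (by positivity)

/-- the set version of `Et_shift` -/
theorem Et_shift_set {d : ℕ} (hx : Expd src tgt d) {ε : Wv → ℝ}
    (hε : ∀ w, ε w * ε w = 1) (O : Finset Wv) (hO : 3 * O.card ≤ Fintype.card Wv) (S : Finset E)
    (h1 : S.card ≤ d) (h2 : (symmDiff S (bd src tgt O)).card ≤ d) :
    Et src tgt d ε (chi S) = epsX ε O * Et src tgt d ε (chi (symmDiff S (bd src tgt O))) := by
  rw [Et_chi, Et_chi, Finset.mul_sum]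
  have hinv : ∀ X : Finset Wv, symmDiff (symmDiff X O) O = X := fun X =>
    symmDiff_symmDiff_cancel_right O X
  have hcl : ∀ X ∈ smallL src tgt d, (bd src tgt (symmDiff X O)).card ≤ d →
      symmDiff X O ∈ smallL src tgt d := by
    intro X hX h
    rw [mem_smallL] at hX
    refine mem_smallL_of hx ?_ h
    have h3 := card_symmDiff_le' X O
    omega
  refine Finset.sum_nbij' (fun X => symmDiff X O) (fun X => symmDiff X O) ?_ ?_ ?_ ?_ ?_
  · intro X hX
    rw [Finset.mem_filter] at hX ⊢
    have h3 : bd src tgt (symmDiff X O) = symmDiff S (bd src tgt O) := by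
      rw [bd_symmDiff, ← hX.2]
    exact ⟨hcl X hX.1 (by rw [h3]; exact h2), h3.symm⟩
  · intro Y hY
    rw [Finset.mem_filter] at hY ⊢
    have h3 : bd src tgt (symmDiff Y O) = S := by
      rw [bd_symmDiff, ← hY.2]; exact symmDiff_symmDiff_cancel_right _ _
    exact ⟨hcl Y hY.1 (by rw [h3]; exact h1), h3.symm⟩
  · intro X _; exact hinv X
  · intro X _; exact hinv X
  · intro X _
    rw [epsX_symmDiff hε]
    linear_combination (-(epsX ε X * 2 ^ Fintype.card E)) * epsX_mul_self hε O

/-- a function of few variables is pseudo-equal to its projection -/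
theorem ZZ_proj {D c0 d M K : ℕ} (h : SG src tgt D c0) (hx : Expd src tgt d) {ε : Wv → ℝ}
    (hε : ∀ w, ε w * ε w = 1) (π : Wv → Finset E) (X : Finset Wv)
    (hπ : IsDual src tgt π X) (f : (E → Bool) → ℝ) (hf : Dg f K)
    (hK : 3 * K ≤ Fintype.card Wv) (hd : M + K + D * K ≤ d) :
    ZZ src tgt d M ε (fun z => f (PiE src tgt ε π X z) - f z) := by
  intro R hR
  have hE : (2:ℝ) ^ Fintype.card E ≠ 0 := by positivity
  refine (mul_eq_zero.mp ?_).resolve_left hE
  rw [← Et_smul]
  have h1 : (fun z => (2:ℝ) ^ Fintype.card E *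
      (chi R z * (f (PiE src tgt ε π X z) - f z)))
      = fun z => ∑ Q : Finset E, W f Q *
        (epsX ε (OO π X Q) * chi (symmDiff (symmDiff R Q) (bd src tgt (OO π X Q))) z
          + (-1) * chi (symmDiff R Q) z) := by
    funext z
    have h2 : (2:ℝ) ^ Fintype.card E * (chi R z * (f (PiE src tgt ε π X z) - f z))
        = chi R z * ((2:ℝ) ^ Fintype.card E * f (PiE src tgt ε π X z))
          - chi R z * ((2:ℝ) ^ Fintype.card E * f z) := by ring
    rw [h2, ← inversion, ← inversion, Finset.mul_sum, Finset.mul_sum, ← Finset.sum_sub_distrib]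
    refine Finset.sum_congr rfl fun Q _ => ?_
    rw [chi_PiE hε, symmDiff_assoc, ← chi_mul R, ← chi_mul R]
    ring
  rw [h1, Et_sum]
  refine Finset.sum_eq_zero fun Q _ => ?_
  by_cases hQ : K < Q.card
  · rw [hf Q hQ, zero_mul]
  · have h2 : (OO π X Q).card ≤ K := (card_OO_le hπ Q).trans (by omega)
    have h3 := card_symmDiff_le' R Q
    have h4 := card_symmDiff_le' (symmDiff R Q) (bd src tgt (OO π X Q))
    have h5 := card_bd_le h (OO π X Q)
    have h6 : D * (OO π X Q).card ≤ D * K := Nat.mul_le_mul_left _ h2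
    have h7 := Et_shift_set hx hε (OO π X Q) (by omega) (symmDiff R Q) (by omega) (by omega)
    have h8 : Et src tgt d ε (fun z =>
        epsX ε (OO π X Q) * chi (symmDiff (symmDiff R Q) (bd src tgt (OO π X Q))) z
          + (-1) * chi (symmDiff R Q) z)
        = epsX ε (OO π X Q) * Et src tgt d ε
            (chi (symmDiff (symmDiff R Q) (bd src tgt (OO π X Q))))
          + (-1) * Et src tgt d ε (chi (symmDiff R Q)) := by
      rw [Et_add, Et_smul, Et_smul]
    rw [h8, ← h7]
    ring

end Pool.Agent.H3.Frg2
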