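import Mathlib
import Pool.Agent.H3.Frg2.Mass2
import Pool.Agent.H3.Frg2.Pseudo

set_option autoImplicit false
set_option linter.unusedSectionVars false

/-!
# Small formulas: support, honest values, the axioms
-/

namespace Pool.Agent.H3.Frg2

open Finset Pool.Agent.H3.Frg

section Vars

variable {V : Type} [DecidableEq V]

/-- the variables of a formula -/
def _root_.Pool.Agent.H3.Frg.Fm.vars : Fm V → Finset V
  | Fm.var i => {i}
  | Fm.neg A => A.vars
  | Fm.imp A B => A.vars ∪ B.vars

theorem card_vars_le (A : Fm V) : A.vars.card ≤ A.len := by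
  induction A with
  | var i => simp [Fm.vars, Fm.len]
  | neg A ih => simp only [Fm.vars, Fm.len]; omega
  | imp A B ihA ihB =>
    simp only [Fm.vars, Fm.len]
    have := Finset.card_union_le A.vars B.vars
    omega

theorem leaves_le_len (A : Fm V) : A.leaves ≤ A.len := by
  induction A with
  | var i => simp [Fm.leaves, Fm.len]
  | neg A ih => simp only [Fm.leaves, Fm.len]; omega
  | imp A B ihA ihB => simp only [Fm.leaves, Fm.len]; omega

theorem eval_congr (A : Fm V) {x y : V → Bool} (h : ∀ i ∈ A.vars, x i = y i) :
    A.eval x = A.eval y := by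
  induction A with
  | var i => exact h i (by simp [Fm.vars])
  | neg A ih => simp only [Fm.eval]; rw [ih h]
  | imp A B ihA ihB =>
    simp only [Fm.eval]
    rw [ihA fun i hi => h i (by simp [Fm.vars, hi]), ihB fun i hi => h i (by simp [Fm.vars, hi])]

theorem mem_subs_self (A : Fm V) : A ∈ A.subs := by
  cases A <;> simp [Fm.subs]

theorem vars_subs (A : Fm V) : ∀ B ∈ A.subs, B.vars ⊆ A.vars := by
  induction A with
  | var i => intro B hB; simp only [Fm.subs, List.mem_singleton] at hB; rw [hB]
  | neg A ih =>
    intro B hB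
    simp only [Fm.subs, List.mem_cons] at hB
    rcases hB with rfl | hB
    · exact Finset.Subset.refl _
    · exact ih B hB
  | imp A B ihA ihB =>
    intro C hC
    simp only [Fm.subs, List.mem_cons, List.mem_append] at hC
    rcases hC with rfl | hC | hC
    · exact Finset.Subset.refl _
    · exact (ihA C hC).trans Finset.subset_union_left
    · exact (ihB C hC).trans Finset.subset_union_right

variable [Fintype V]

theorem W_ind_supp (A : Fm V) (S : Finset V) (h : W (ind A) S ≠ 0) : S ⊆ A.vars := by
  intro i hi
  by_contra hn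
  apply h
  let φ : Equiv.Perm (V → Bool) := Function.Involutive.toPerm
    (fun x => Function.update x i (!x i)) (fun x => by
      simp only [Function.update_self, Bool.not_not, Function.update_idem,
        Function.update_eq_self])
  have h1 : W (ind A) S = ∑ x : V → Bool, ind A (φ x) * chi S (φ x) :=
    (Equiv.sum_comp φ (fun x => ind A x * chi S x)).symm
  have h2 : ∀ x : V → Bool, ind A (φ x) = ind A x := by
    intro x
    unfold ind
    have : A.eval (φ x) = A.eval x := by
      refine eval_congr A fun j hj => ?_
      show Function.update x i (!x i) j = x j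
      rw [Function.update_of_ne]
      rintro rfl; exact hn hj
    rw [this]
  have h3 : ∀ x : V → Bool, chi S (φ x) = - chi S x := by
    intro x
    unfold chi
    rw [← Finset.mul_prod_erase S _ hi, ← Finset.mul_prod_erase S _ hi, ← neg_mul]
    congr 1
    · show sg (Function.update x i (!x i) i) = _
      rw [Function.update_self, sg_not]
    · refine Finset.prod_congr rfl fun j hj => ?_
      show sg (Function.update x i (!x i) j) = _
      rw [Function.update_of_ne (Finset.ne_of_mem_erase hj)]
  have h4 : W (ind A) S = - W (ind A) S := by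
    nth_rewrite 1 [h1]
    unfold W
    rw [← Finset.sum_neg_distrib]
    refine Finset.sum_congr rfl fun x _ => ?_
    rw [h2, h3]; ring
  linarith

end Vars

variable {E Wv : Type} [Fintype E] [DecidableEq E] [Fintype Wv] [DecidableEq Wv]
  {src tgt : E → Wv} {r : ℕ}

/-- the value of a variable after the restriction -/
def Fv (src tgt : E → Wv) {r : ℕ} (c : Wv → Fin r) (a : E × Fin r × Fin r → Bool)
    (v : E × Fin r × Fin r) (z : E → Bool) : Bool := glue Prod.fst (jc src tgt c) a z v

theorem rl_hv (c : Wv → Fin r) (a : E × Fin r × Fin r → Bool) (A : Fm (E × Fin r × Fin r)) :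
    rl (hv (Fv src tgt c a) A) = fun z => ind A (glue Prod.fst (jc src tgt c) a z) := rfl

theorem dg_hv (c : Wv → Fin r) (a : E × Fin r × Fin r → Bool) (A : Fm (E × Fin r × Fin r))
    (K : ℕ) (hK : (lv src tgt c A.vars).card ≤ K) : Dg (rl (hv (Fv src tgt c a) A)) K := by
  intro T hT
  rw [rl_hv]
  have h1 := W_glue Prod.fst (jc src tgt c) (jc_fst c) a (ind A) T
  have h2 : ∑ S : Finset (E × Fin r × Fin r), (if liveT (jc src tgt c) S = T then W (ind A) S
      else 0) * chi (deadT Prod.fst (jc src tgt c) S) a = 0 := by
    refine Finset.sum_eq_zero fun S _ => ?_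
    by_cases h3 : liveT (jc src tgt c) S = T
    · rw [if_pos h3]
      by_cases h4 : W (ind A) S = 0
      · rw [h4, zero_mul]
      · exfalso
        have h5 := W_ind_supp A S h4
        have h6 : (liveT (jc src tgt c) S).card ≤ (lv src tgt c A.vars).card := by
          refine Finset.card_le_card fun e he => ?_
          have he' : e ∈ lv src tgt c S := he
          rw [mem_lv] at he' ⊢
          exact h5 he'
        rw [h3] at h6
        omega
    · rw [if_neg h3, zero_mul]
  rw [h2, mul_zero] at h1
  exact (mul_eq_zero.mp h1).resolve_left (by positivity)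

theorem good_of {D c0 d M K t : ℕ} (h : SG src tgt D c0) (hx : Expd src tgt d)
    (hM : 2 * M ≤ d) {ε : Wv × Fin r → ℝ} (hε : ∀ v, ε v * ε v = 1) (c : Wv → Fin r)
    (a : E × Fin r × Fin r → Bool) (π : Wv → Finset E) (X : Finset Wv)
    (hπ : IsDual src tgt π X) (A : Fm (E × Fin r × Fin r))
    (hA : (lv src tgt c A.vars).card ≤ K) (hdeg : Dg (rl (GG src tgt ε c a π X A)) t)
    (hK : 3 * K ≤ Fintype.card Wv) (hd : M + K + D * K ≤ d) :
    Good (pa d M hx hM (eE src tgt ε c a) (eE_sq hε c a)) (Fv src tgt c a) K t A := by
  refine ⟨dg_hv c a A K hA, GG src tgt ε c a π X A, hdeg, ?_⟩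
  exact ZZ_proj h hx (eE_sq hε c a) π X hπ
    (fun z => ind A (glue Prod.fst (jc src tgt c) a z)) (dg_hv c a A K hA) hK hd

/-- the restricted axioms are pseudo-true -/
theorem ax_true {d M : ℕ} (hx : Expd src tgt d)
    (hM : 2 * M ≤ d) {ε : Wv × Fin r → ℝ} (hε : ∀ v, ε v * ε v = 1) {c : Wv → Fin r}
    {a : E × Fin r × Fin r → Bool} (ha : a ∈ Ac src tgt ε c) (v : Wv × Fin r)
    (hd : ∀ w, M + (bd src tgt {w}).card ≤ d) (h3 : 3 ≤ Fintype.card Wv)
    (A : Fm (E × Fin r × Fin r))
    (hA : ∀ x, A.eval x = true ↔ chi (bb src tgt r {v}) x = ε v) :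
    (pa d M hx hM (eE src tgt ε c a) (eE_sq hε c a)).Z
      (fun z => rl (hv (Fv src tgt c a) A) z - 1) := by
  set O := cen c {v} with hO
  have hOw : O = ∅ ∨ ∃ w, O = {w} := by
    by_cases h1 : c v.1 = v.2
    · right
      refine ⟨v.1, ?_⟩
      ext w
      rw [hO, mem_cen, Finset.mem_singleton, Finset.mem_singleton]
      constructor
      · intro h2; rw [← h2]
      · rintro rfl; exact Prod.ext rfl h1
    · left
      ext w
      rw [hO, mem_cen, Finset.mem_singleton]
      constructor
      · intro h2
        exfalso; apply h1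
        rw [← h2]
      · intro h2; exact absurd h2 (Finset.notMem_empty _)
  have hOc : O.card ≤ 1 := by
    rcases hOw with h | ⟨w, h⟩ <;> simp [h]
  have hOb : M + (bd src tgt O).card ≤ d := by
    rcases hOw with h | ⟨w, h⟩
    · rw [h, bd_empty, Finset.card_empty]; omega
    · rw [h]; exact hd w
  set s := epsX (eE src tgt ε c a) O with hs
  have hss : s * s = 1 := epsX_mul_self (eE_sq hε c a) O
  have hval : ∀ z, rl (hv (Fv src tgt c a) A) z - 1
      = (1 / 2) * (s * chi (bd src tgt O) z) + (-(1/2)) * chi ∅ z := by
    intro z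
    have h1 : chi (bb src tgt r {v}) (glue Prod.fst (jc src tgt c) a z)
        = ε v * (s * chi (bd src tgt O) z) := by
      rw [chi_glue Prod.fst (jc src tgt c) (jc_fst c)]
      have h2 : chi (deadT Prod.fst (jc src tgt c) (bb src tgt r {v})) a = ε v * s := by
        have := chi_dd_bb (src := src) (tgt := tgt) hε ha {v}
        have h3 : epsX ε {v} = ε v := by simp [epsX]
        rw [h3] at this
        exact this
      have h3 : liveT (jc src tgt c) (bb src tgt r {v}) = bd src tgt O := lv_bb {v}
      rw [h2, h3]; ring
    have h2 := hA (glue Prod.fst (jc src tgt c) a z)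
    rw [h1] at h2
    have h4 : (s * chi (bd src tgt O) z) * (s * chi (bd src tgt O) z) = 1 := by
      linear_combination (chi (bd src tgt O) z) ^ 2 * hss + chi_mul_self (bd src tgt O) z
    set y := s * chi (bd src tgt O) z with hy
    rw [chi_empty]
    have h5 : rl (hv (Fv src tgt c a) A) z
        = if A.eval (glue Prod.fst (jc src tgt c) a z) = true then (1:ℝ) else 0 := rfl
    rw [h5]
    have h6 : (y - 1) * (y + 1) = 0 := by linear_combination h4
    rcases mul_eq_zero.mp h6 with h7 | h7
    · have h8 : y = 1 := by linarith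
      rw [if_pos (h2.mpr (by rw [h8, mul_one])), h8]; ring
    · have h8 : y = -1 := by linarith
      rw [if_neg, h8]
      · ring
      · intro h9
        have h10 := h2.mp h9
        rw [h8] at h10
        have h11 : ε v = 0 := by linarith
        have := hε v
        rw [h11] at this
        norm_num at this
  intro R hR
  have h1 : (fun z => chi R z * (rl (hv (Fv src tgt c a) A) z - 1))
      = fun z => (1 / 2) * (s * chi (symmDiff R (bd src tgt O)) z) + (-(1/2)) * chi R z := by
    funext z
    rw [hval, ← chi_mul, chi_empty]; ring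
  have h2 : (fun z => (1 / 2) * (s * chi (symmDiff R (bd src tgt O)) z) + (-(1/2)) * chi R z)
      = fun z => ((1 / 2) * s) * chi (symmDiff R (bd src tgt O)) z + (-(1/2)) * chi R z := by
    funext z; ring
  rw [h1, h2, Et_add, Et_smul, Et_smul]
  have h3' := card_symmDiff_le' R (bd src tgt O)
  have h4 := Et_shift_set hx (eE_sq (src := src) (tgt := tgt) hε c a) O (by omega) R
    (by omega) (by omega)
  have h5 : Et src tgt d (eE src tgt ε c a) (chi R)
      = s * Et src tgt d (eE src tgt ε c a) (chi (symmDiff R (bd src tgt O))) := h4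
  rw [h5]
  ring

end Pool.Agent.H3.Frg2
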