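import Mathlib
import Pool.Agent.H3.Frg2.Small
import Pool.Agent.H3.Frg2.Blowup
import Pool.Agent.H3.Frg2.Dual
import Pool.Agent.H3.Frg2.Gran

set_option autoImplicit false
set_option linter.unusedSectionVars false

/-!
# Most restrictions are good for a small formula
-/

namespace Pool.Agent.H3.Frg2

open Finset Pool.Agent.H3.Frg

variable {E Wv : Type} [Fintype E] [DecidableEq E] [Fintype Wv] [DecidableEq Wv]
  {src tgt : E → Wv} {r : ℕ}

/-- the sample space of restrictions -/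
noncomputable def Om (src tgt : E → Wv) {r : ℕ} (ε : Wv × Fin r → ℝ) :
    Finset ((Wv → Fin r) × (E × Fin r × Fin r → Bool)) := by
  classical
  exact univ.filter fun ω => ω.2 ∈ Ac src tgt ε ω.1

theorem mem_Om {ε : Wv × Fin r → ℝ} {ω : (Wv → Fin r) × (E × Fin r × Fin r → Bool)} :
    ω ∈ Om src tgt ε ↔ ω.2 ∈ Ac src tgt ε ω.1 := by simp [Om]

theorem conn_of_SG {D c0 : ℕ} (h : SG src tgt D c0) (hW : 2 ≤ Fintype.card Wv) (hr : 1 ≤ r) :
    Conn src tgt r := by
  intro X hX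
  have h1 := blow_cheeger h hW X
  rw [hX, Finset.card_empty, mul_zero] at h1
  have hle : X.card ≤ Fintype.card (Wv × Fin r) := Finset.card_le_univ X
  have hcard : Fintype.card (Wv × Fin r) = Fintype.card Wv * r := by
    rw [Fintype.card_prod, Fintype.card_fin]
  have h2 : min X.card (Fintype.card Wv * r - X.card) = 0 := by
    rcases Nat.eq_zero_or_pos (min X.card (Fintype.card Wv * r - X.card)) with h3 | h3
    · exact h3
    · have : 1 * 1 ≤ r * min X.card (Fintype.card Wv * r - X.card) := Nat.mul_le_mul hr h3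
      omega
  rcases le_total X.card (Fintype.card Wv * r - X.card) with h8 | h8
  · rw [min_eq_left h8] at h2
    exact Or.inl (Finset.card_eq_zero.mp h2)
  · rw [min_eq_right h8] at h2
    right
    rw [← Finset.card_eq_iff_eq_univ]
    omega

/-- counting pairs -/
theorem card_pairs (P : Finset (Wv → Fin r))
    (B : (Wv → Fin r) → Finset (E × Fin r × Fin r → Bool))
    (S : Finset ((Wv → Fin r) × (E × Fin r × Fin r → Bool)))
    (hS : ∀ ω ∈ S, ω.1 ∈ P ∧ ω.2 ∈ B ω.1) : S.card ≤ ∑ c ∈ P, (B c).card := by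
  classical
  have h1 : S ⊆ P.biUnion fun c => (B c).map ⟨fun a => (c, a), fun a b hab => by
      simpa using hab⟩ := by
    intro ω hω
    obtain ⟨h2, h3⟩ := hS ω hω
    rw [Finset.mem_biUnion]
    refine ⟨ω.1, h2, ?_⟩
    rw [Finset.mem_map]
    exact ⟨ω.2, h3, rfl⟩
  refine (Finset.card_le_card h1).trans (Finset.card_biUnion_le.trans ?_)
  exact Finset.sum_le_sum fun c _ => by rw [Finset.card_map]

theorem card_Om {ε : Wv × Fin r → ℝ} :
    (Om src tgt ε).card = ∑ c : Wv → Fin r, (Ac src tgt ε c).card := by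
  classical
  have h1 : Om src tgt ε = (univ : Finset (Wv → Fin r)).biUnion fun c =>
      (Ac src tgt ε c).map ⟨fun a => (c, a), fun a b hab => by simpa using hab⟩ := by
    ext ω
    rw [Finset.mem_biUnion, mem_Om]
    constructor
    · intro h
      exact ⟨ω.1, mem_univ _, Finset.mem_map.mpr ⟨ω.2, h, rfl⟩⟩
    · rintro ⟨c, _, h⟩
      obtain ⟨a, ha, rfl⟩ := Finset.mem_map.mp h
      exact ha
  rw [h1, Finset.card_biUnion]
  · exact Finset.sum_congr rfl fun c _ => by rw [Finset.card_map]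
  · intro c _ c' _ hne
    rw [Function.onFun, Finset.disjoint_left]
    intro ω h2 h3
    obtain ⟨a, _, rfl⟩ := Finset.mem_map.mp h2
    obtain ⟨a', _, h4⟩ := Finset.mem_map.mp h3
    exact hne (Prod.ext_iff.mp h4).1.symm

theorem bad_bound {D c0 d M K t h : ℕ} (hG : SG src tgt D c0) (hx : Expd src tgt d)
    (hM : 2 * M ≤ d) (hr : 1 ≤ r) {ε : Wv × Fin r → ℝ} (hε : ∀ v, ε v * ε v = 1)
    (hW : 3 ≤ Fintype.card Wv) (u η : ℝ) (hu : u = 8 ^ (D + 1))
    (hη : η = (u - 1) * u ^ (2 * D) / (r:ℝ) ^ 2)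
    (hC0 : 8 * (1 + c0) * (4 * h) ≤ r * (Fintype.card Wv * r))
    (hC1 : (1 + η) ^ (4 * h) * 2 ^ t ≤ u ^ (K + 1))
    (hC2 : Real.exp (2 * (1 + (c0:ℝ)) * (4 * h) / (r:ℝ) ^ 2) * 2 ^ t
      ≤ 2 ^ (Fintype.card Wv / 16 + 1))
    (hC3 : (1 + η ^ 2 / 4) ^ (4 * h) ≤ 2)
    (hK : 3 * K ≤ Fintype.card Wv) (hd : M + K + D * K ≤ d)
    (A : Fm (E × Fin r × Fin r)) (hA : A.len ≤ 4 * h)
    (B : Finset ((Wv → Fin r) × (E × Fin r × Fin r → Bool)))
    (hB : ∀ ω ∈ B, ω ∈ Om src tgt ε ∧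
      ¬ Good (pa d M hx hM (eE src tgt ε ω.1 ω.2) (eE_sq hε ω.1 ω.2)) (Fv src tgt ω.1 ω.2) K t A) :
    (B.card : ℝ) * 2 ^ t ≤ 3 * ((Om src tgt ε).card : ℝ) := by
  classical
  have hrR : (0:ℝ) < r := by exact_mod_cast hr
  have hu1 : 1 ≤ u := by rw [hu]; exact one_le_pow₀ (by norm_num)
  have hη0 : 0 ≤ η := by
    rw [hη]
    apply div_nonneg
    · apply mul_nonneg; linarith; positivity
    · positivity
  have hne : Nonempty Wv := Fintype.card_pos_iff.mp (by omega)
  have hconn : Conn src tgt r := conn_of_SG hG (by omega) hr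
  -- the closure
  have hS0 : A.vars.card ≤ 4 * h := (card_vars_le A).trans hA
  obtain ⟨Y, -, hYc, hclo⟩ := exists_closure hG (by omega) hr A.vars
    ((Nat.mul_le_mul_left _ hS0).trans hC0)
  have hYc' : r * Y.card ≤ 2 * (1 + c0) * (4 * h) := hYc.trans (Nat.mul_le_mul_left _ hS0)
  have hpos : 0 < r * (Fintype.card Wv * r) := Nat.mul_pos hr (Nat.mul_pos (by omega) hr)
  have hY : Y ≠ univ := by
    intro h1
    rw [h1, Finset.card_univ, Fintype.card_prod, Fintype.card_fin] at hYc'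
    have h2 : 8 * (1 + c0) * (4 * h) = 4 * (2 * (1 + c0) * (4 * h)) := by ring
    omega
  -- `α`
  set m := Fintype.card Wv * r - Fintype.card Wv with hm
  set NV : ℝ := (2:ℝ) ^ Fintype.card (E × Fin r × Fin r) with hNV
  set α : ℝ := NV / 2 ^ m with hα
  have hαpos : 0 < α := by rw [hα, hNV]; positivity
  have hAc : ∀ c : Wv → Fin r, ((Ac src tgt ε c).card : ℝ) = α := by
    intro c
    have h1 := card_Ac (src := src) (tgt := tgt) hconn ε hε c
    have h3 : (ncs c).card = m := by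
      have := card_ncs c; omega
    rw [h3] at h1
    rw [hα, eq_div_iff (by positivity), mul_comm]
    exact h1
  have hOm : ((Om src tgt ε).card : ℝ) = (r:ℝ) ^ Fintype.card Wv * α := by
    rw [card_Om]
    push_cast
    rw [Finset.sum_congr rfl (fun c _ => hAc c), Finset.sum_const, Finset.card_univ,
      Fintype.card_fun, Fintype.card_fin, nsmul_eq_mul]
    push_cast
    ring
  -- the three kinds of bad restrictions
  set P1 : Finset (Wv → Fin r) := univ.filter fun c => K < (lv src tgt c A.vars).card with hP1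
  set P2 : Finset (Wv → Fin r) := univ.filter fun c => Fintype.card Wv < 16 * (cen c Y).card
    with hP2
  set P3 : Finset (Wv → Fin r) := univ.filter fun c => 16 * (cen c Y).card ≤ Fintype.card Wv
    with hP3
  have hdual : ∀ c : Wv → Fin r, ∃ π : Wv → Finset E, c ∈ P3 → IsDual src tgt π (cen c Y) := by
    intro c
    by_cases hc : c ∈ P3
    · obtain ⟨π, h1, h2⟩ := exists_dual hG (cen c Y) (Finset.mem_filter.mp hc).2
      exact ⟨π, fun _ => ⟨h1, h2⟩⟩
    · exact ⟨fun _ => ∅, fun h => absurd h hc⟩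
  choose πs hπs using hdual
  have hgood : ∀ c ∈ P3, (∃ w1, (w1, c w1) ∉ Y) ∧ IsDual src tgt (πs c) (cen c Y) := by
    intro c hc
    refine ⟨?_, hπs c hc⟩
    by_contra h1
    push Not at h1
    have h2 : cen c Y = univ := Finset.eq_univ_of_forall fun w => mem_cen.mpr (h1 w)
    have h3 := (Finset.mem_filter.mp hc).2
    rw [h2, Finset.card_univ] at h3
    omega
  set B3 : (Wv → Fin r) → Finset (E × Fin r × Fin r → Bool) := fun c =>
    (Ac src tgt ε c).filter fun a => ¬ Dg (rl (GG src tgt ε c a (πs c) (cen c Y) A)) t with hB3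
  have hcover : B ⊆ (B.filter fun ω => ω.1 ∈ P1) ∪ ((B.filter fun ω => ω.1 ∈ P2) ∪
      (B.filter fun ω => ω.1 ∈ P3 ∧ ω.2 ∈ B3 ω.1)) := by
    intro ω hω
    obtain ⟨h1, h2⟩ := hB ω hω
    by_cases h3 : ω.1 ∈ P1
    · exact Finset.mem_union_left _ (Finset.mem_filter.mpr ⟨hω, h3⟩)
    by_cases h4 : ω.1 ∈ P2
    · exact Finset.mem_union_right _ (Finset.mem_union_left _
        (Finset.mem_filter.mpr ⟨hω, h4⟩))
    refine Finset.mem_union_right _ (Finset.mem_union_right _ (Finset.mem_filter.mpr ?_))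
    have h5 : ω.1 ∈ P3 := by
      rw [hP3, Finset.mem_filter]
      rw [hP2, Finset.mem_filter] at h4
      push Not at h4
      exact ⟨mem_univ _, h4 (mem_univ _)⟩
    refine ⟨hω, h5, ?_⟩
    rw [hB3, Finset.mem_filter]
    refine ⟨mem_Om.mp h1, fun h6 => h2 ?_⟩
    rw [hP1, Finset.mem_filter] at h3
    push Not at h3
    exact good_of hG hx hM hε ω.1 ω.2 (πs ω.1) (cen ω.1 Y) (hgood _ h5).2 A
      (h3 (mem_univ _)) h6 hK hd
  -- first kind
  have hN1 : ((B.filter fun ω => ω.1 ∈ P1).card : ℝ) * 2 ^ t ≤ (r:ℝ) ^ Fintype.card Wv * α := by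
    have h1 : ((B.filter fun ω => ω.1 ∈ P1).card : ℝ) ≤ (P1.card : ℝ) * α := by
      have h2 := card_pairs P1 (fun c => Ac src tgt ε c) (B.filter fun ω => ω.1 ∈ P1)
        (fun ω hω => by
          rw [Finset.mem_filter] at hω
          exact ⟨hω.2, mem_Om.mp (hB ω hω.1).1⟩)
      calc ((B.filter fun ω => ω.1 ∈ P1).card : ℝ) ≤ ((∑ c ∈ P1, (Ac src tgt ε c).card : ℕ) : ℝ) :=
            by exact_mod_cast h2
        _ = (P1.card : ℝ) * α := by
            push_cast
            rw [Finset.sum_congr rfl (fun c _ => hAc c), Finset.sum_const, nsmul_eq_mul]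
    have h3 : (P1.card : ℝ) * u ^ (K + 1) ≤ (1 + η) ^ (4 * h) * (r:ℝ) ^ Fintype.card Wv := by
      calc (P1.card : ℝ) * u ^ (K + 1) = ∑ c ∈ P1, u ^ (K + 1) := by
            rw [Finset.sum_const, nsmul_eq_mul]
        _ ≤ ∑ c ∈ P1, u ^ (lv src tgt c A.vars).card := by
            refine Finset.sum_le_sum fun c hc => ?_
            exact pow_le_pow_right₀ hu1 (Finset.mem_filter.mp hc).2
        _ ≤ ∑ c : Wv → Fin r, u ^ (lv src tgt c A.vars).card :=
            Finset.sum_le_sum_of_subset_of_nonneg (Finset.subset_univ _)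
              fun c _ _ => by positivity
        _ ≤ (1 + (u - 1) * u ^ (2 * D) / (r : ℝ) ^ 2) ^ A.vars.card *
            (r : ℝ) ^ Fintype.card Wv := live_tail hG hu1 hr A.vars
        _ ≤ _ := by
            rw [← hη]
            exact mul_le_mul_of_nonneg_right (pow_le_pow_right₀ (by linarith) hS0)
              (by positivity)
    have h4 : (P1.card : ℝ) * 2 ^ t ≤ (r:ℝ) ^ Fintype.card Wv := by
      have hup : 0 < u ^ (K + 1) := by positivity
      refine le_of_mul_le_mul_left ?_ hup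
      calc u ^ (K + 1) * ((P1.card : ℝ) * 2 ^ t) = ((P1.card : ℝ) * u ^ (K + 1)) * 2 ^ t := by
            ring
        _ ≤ ((1 + η) ^ (4 * h) * (r:ℝ) ^ Fintype.card Wv) * 2 ^ t :=
            mul_le_mul_of_nonneg_right h3 (by positivity)
        _ = ((1 + η) ^ (4 * h) * 2 ^ t) * (r:ℝ) ^ Fintype.card Wv := by ring
        _ ≤ _ := mul_le_mul_of_nonneg_right hC1 (by positivity)
    calc ((B.filter fun ω => ω.1 ∈ P1).card : ℝ) * 2 ^ t ≤ ((P1.card : ℝ) * α) * 2 ^ t :=
          mul_le_mul_of_nonneg_right h1 (by positivity)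
      _ = ((P1.card : ℝ) * 2 ^ t) * α := by ring
      _ ≤ _ := mul_le_mul_of_nonneg_right h4 hαpos.le
  -- second kind
  have hN2 : ((B.filter fun ω => ω.1 ∈ P2).card : ℝ) * 2 ^ t ≤ (r:ℝ) ^ Fintype.card Wv * α := by
    have h1 : ((B.filter fun ω => ω.1 ∈ P2).card : ℝ) ≤ (P2.card : ℝ) * α := by
      have h2 := card_pairs P2 (fun c => Ac src tgt ε c) (B.filter fun ω => ω.1 ∈ P2)
        (fun ω hω => by
          rw [Finset.mem_filter] at hω
          exact ⟨hω.2, mem_Om.mp (hB ω hω.1).1⟩)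
      calc ((B.filter fun ω => ω.1 ∈ P2).card : ℝ) ≤ ((∑ c ∈ P2, (Ac src tgt ε c).card : ℕ) : ℝ) :=
            by exact_mod_cast h2
        _ = (P2.card : ℝ) * α := by
            push_cast
            rw [Finset.sum_congr rfl (fun c _ => hAc c), Finset.sum_const, nsmul_eq_mul]
    have h3 : (P2.card : ℝ) * 2 ^ (Fintype.card Wv / 16 + 1)
        ≤ (r:ℝ) ^ Fintype.card Wv * Real.exp (2 * (1 + (c0:ℝ)) * (4 * h) / (r:ℝ) ^ 2) := by
      calc (P2.card : ℝ) * 2 ^ (Fintype.card Wv / 16 + 1)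
          = ∑ c ∈ P2, (2:ℝ) ^ (Fintype.card Wv / 16 + 1) := by
            rw [Finset.sum_const, nsmul_eq_mul]
        _ ≤ ∑ c ∈ P2, (2:ℝ) ^ (cen c Y).card := by
            refine Finset.sum_le_sum fun c hc => ?_
            have h5 := (Finset.mem_filter.mp hc).2
            exact pow_le_pow_right₀ (by norm_num) (by omega)
        _ ≤ ∑ c : Wv → Fin r, (2:ℝ) ^ (cen c Y).card :=
            Finset.sum_le_sum_of_subset_of_nonneg (Finset.subset_univ _)
              fun c _ _ => by positivity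
        _ ≤ (r:ℝ) ^ Fintype.card Wv * Real.exp ((2 - 1) / r * (Y.card : ℝ)) :=
            cen_tail (by norm_num) hr Y
        _ ≤ _ := by
            refine mul_le_mul_of_nonneg_left (Real.exp_le_exp.mpr ?_) (by positivity)
            rw [le_div_iff₀ (by positivity)]
            have h6 : (r:ℝ) * (Y.card : ℝ) ≤ 2 * (1 + (c0:ℝ)) * (4 * h) := by
              exact_mod_cast hYc'
            calc (2 - 1) / (r:ℝ) * (Y.card : ℝ) * (r:ℝ) ^ 2 = (r:ℝ) * (Y.card : ℝ) := by
                  field_simp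
                  ring
              _ ≤ _ := h6
    have h4 : (P2.card : ℝ) * 2 ^ t ≤ (r:ℝ) ^ Fintype.card Wv := by
      have hup : (0:ℝ) < 2 ^ (Fintype.card Wv / 16 + 1) := by positivity
      refine le_of_mul_le_mul_left ?_ hup
      calc (2:ℝ) ^ (Fintype.card Wv / 16 + 1) * ((P2.card : ℝ) * 2 ^ t)
          = ((P2.card : ℝ) * 2 ^ (Fintype.card Wv / 16 + 1)) * 2 ^ t := by ring
        _ ≤ ((r:ℝ) ^ Fintype.card Wv *
            Real.exp (2 * (1 + (c0:ℝ)) * (4 * h) / (r:ℝ) ^ 2)) * 2 ^ t :=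
            mul_le_mul_of_nonneg_right h3 (by positivity)
        _ = (Real.exp (2 * (1 + (c0:ℝ)) * (4 * h) / (r:ℝ) ^ 2) * 2 ^ t) *
            (r:ℝ) ^ Fintype.card Wv := by ring
        _ ≤ _ := mul_le_mul_of_nonneg_right hC2 (by positivity)
    calc ((B.filter fun ω => ω.1 ∈ P2).card : ℝ) * 2 ^ t ≤ ((P2.card : ℝ) * α) * 2 ^ t :=
          mul_le_mul_of_nonneg_right h1 (by positivity)
      _ = ((P2.card : ℝ) * 2 ^ t) * α := by ring
      _ ≤ _ := mul_le_mul_of_nonneg_right h4 hαpos.le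
  -- third kind
  have hN3 : ((B.filter fun ω => ω.1 ∈ P3 ∧ ω.2 ∈ B3 ω.1).card : ℝ) * 2 ^ t
      ≤ (r:ℝ) ^ Fintype.card Wv * α := by
    have h1 : ((B.filter fun ω => ω.1 ∈ P3 ∧ ω.2 ∈ B3 ω.1).card : ℝ)
        ≤ ∑ c ∈ P3, ((B3 c).card : ℝ) := by
      have h2 := card_pairs P3 B3 (B.filter fun ω => ω.1 ∈ P3 ∧ ω.2 ∈ B3 ω.1)
        (fun ω hω => (Finset.mem_filter.mp hω).2)
      exact_mod_cast h2
    have hmain := main_moment hG hr hconn hε hY hclo P3 πs hgood A
      (fun S hS => W_ind_supp A S hS) u η hu hη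
    have h2 : (2:ℝ) ^ (t + 1) * 4 ^ Fintype.card E * ∑ c ∈ P3, ((B3 c).card : ℝ)
        ≤ ∑ c ∈ P3, ∑ a ∈ Ac src tgt ε c, ∑ R : Finset E, 8 ^ R.card *
          W (rl (GG src tgt ε c a (πs c) (cen c Y) A)) R ^ 2 := by
      rw [Finset.mul_sum]
      refine Finset.sum_le_sum fun c _ => ?_
      calc (2:ℝ) ^ (t + 1) * 4 ^ Fintype.card E * ((B3 c).card : ℝ)
          = ∑ a ∈ B3 c, (2:ℝ) ^ (t + 1) * 4 ^ Fintype.card E := by
            rw [Finset.sum_const, nsmul_eq_mul]; ring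
        _ ≤ ∑ a ∈ B3 c, ∑ R : Finset E, 8 ^ R.card *
            W (rl (GG src tgt ε c a (πs c) (cen c Y) A)) R ^ 2 := by
            refine Finset.sum_le_sum fun a ha => ?_
            exact gran_moment _ t (Finset.mem_filter.mp ha).2
        _ ≤ _ := Finset.sum_le_sum_of_subset_of_nonneg (Finset.filter_subset _ _)
            fun a _ _ => Finset.sum_nonneg fun R _ => by positivity
    have hleaf : (1 + η ^ 2 / 4) ^ A.leaves ≤ 2 := by
      refine le_trans ?_ hC3
      exact pow_le_pow_right₀ (by nlinarith [sq_nonneg η]) ((leaves_le_len A).trans hA)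
    have h3 : (2:ℝ) ^ m * ((2:ℝ) ^ (t + 1) * 4 ^ Fintype.card E * ∑ c ∈ P3, ((B3 c).card : ℝ))
        ≤ (4:ℝ) ^ Fintype.card E * NV * 2 * (r:ℝ) ^ Fintype.card Wv := by
      calc (2:ℝ) ^ m * ((2:ℝ) ^ (t + 1) * 4 ^ Fintype.card E * ∑ c ∈ P3, ((B3 c).card : ℝ))
          ≤ (2:ℝ) ^ m * ∑ c ∈ P3, ∑ a ∈ Ac src tgt ε c, ∑ R : Finset E, 8 ^ R.card *
            W (rl (GG src tgt ε c a (πs c) (cen c Y) A)) R ^ 2 :=
            mul_le_mul_of_nonneg_left h2 (by positivity)
        _ ≤ (4:ℝ) ^ Fintype.card E * NV * (1 + η ^ 2 / 4) ^ A.leaves *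
            (r:ℝ) ^ Fintype.card Wv := hmain
        _ ≤ _ := by
            refine mul_le_mul_of_nonneg_right ?_ (by positivity)
            exact mul_le_mul_of_nonneg_left hleaf (by positivity)
    have h4 : (∑ c ∈ P3, ((B3 c).card : ℝ)) * 2 ^ t ≤ (r:ℝ) ^ Fintype.card Wv * α := by
      have hfac : (0:ℝ) < 2 ^ m * (2 * 4 ^ Fintype.card E) := by positivity
      refine le_of_mul_le_mul_left ?_ hfac
      calc (2:ℝ) ^ m * (2 * 4 ^ Fintype.card E) * ((∑ c ∈ P3, ((B3 c).card : ℝ)) * 2 ^ t)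
          = (2:ℝ) ^ m * ((2:ℝ) ^ (t + 1) * 4 ^ Fintype.card E *
            ∑ c ∈ P3, ((B3 c).card : ℝ)) := by rw [pow_succ]; ring
        _ ≤ (4:ℝ) ^ Fintype.card E * NV * 2 * (r:ℝ) ^ Fintype.card Wv := h3
        _ = _ := by
            rw [hα]
            field_simp
    exact (mul_le_mul_of_nonneg_right h1 (by positivity)).trans h4
  -- conclusion
  have hfin : (B.card : ℝ) ≤ ((B.filter fun ω => ω.1 ∈ P1).card : ℝ) +
      (((B.filter fun ω => ω.1 ∈ P2).card : ℝ) +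
      ((B.filter fun ω => ω.1 ∈ P3 ∧ ω.2 ∈ B3 ω.1).card : ℝ)) := by
    have h1 := (Finset.card_le_card hcover).trans ((Finset.card_union_le _ _).trans
      (Nat.add_le_add_left (Finset.card_union_le _ _) _))
    exact_mod_cast h1
  have h2t : (0:ℝ) < 2 ^ t := by positivity
  rw [hOm]
  calc (B.card : ℝ) * 2 ^ t ≤ (((B.filter fun ω => ω.1 ∈ P1).card : ℝ) +
      (((B.filter fun ω => ω.1 ∈ P2).card : ℝ) +
      ((B.filter fun ω => ω.1 ∈ P3 ∧ ω.2 ∈ B3 ω.1).card : ℝ))) * 2 ^ t :=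
        mul_le_mul_of_nonneg_right hfin h2t.le
    _ = ((B.filter fun ω => ω.1 ∈ P1).card : ℝ) * 2 ^ t +
        (((B.filter fun ω => ω.1 ∈ P2).card : ℝ) * 2 ^ t +
        ((B.filter fun ω => ω.1 ∈ P3 ∧ ω.2 ∈ B3 ω.1).card : ℝ) * 2 ^ t) := by ring
    _ ≤ _ := by linarith

end Pool.Agent.H3.Frg2
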