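import Mathlib
import Pool.Agent.H3.Frg2.Count
import Pool.Agent.H3.Frg2.Eval
import Pool.Agent.H3.Frg2.Decomp

set_option autoImplicit false
set_option linter.unusedSectionVars false

/-!
# The lower bound for a fixed super graph
-/

namespace Pool.Agent.H3.Frg2

open Finset Pool.Agent.H3.Frg

variable {E Wv : Type} [Fintype E] [DecidableEq E] [Fintype Wv] [DecidableEq Wv]
  {src tgt : E → Wv} {r : ℕ}

theorem Om_nonempty (hconn : Conn src tgt r) [Nonempty Wv] (hr : 1 ≤ r)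
    {ε : Wv × Fin r → ℝ} (hε : ∀ v, ε v * ε v = 1) : (Om src tgt ε).Nonempty := by
  have c : Wv → Fin r := fun _ => ⟨0, hr⟩
  have h1 := card_Ac (src := src) (tgt := tgt) hconn ε hε c
  have h2 : 0 < (Ac src tgt ε c).card := by
    by_contra h3
    have h4 : (Ac src tgt ε c).card = 0 := by omega
    rw [h4] at h1
    simp only [Nat.cast_zero, mul_zero] at h1
    have : (0:ℝ) < 2 ^ Fintype.card (E × Fin r × Fin r) := by positivity
    linarith
  obtain ⟨a, ha⟩ := Finset.card_pos.mp h2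
  exact ⟨(c, a), mem_Om.mpr ha⟩

theorem exists_restriction {D c0 d M K t h : ℕ} (hG : SG src tgt D c0) (hx : Expd src tgt d)
    (hM : 2 * M ≤ d) (hr : 1 ≤ r) {ε : Wv × Fin r → ℝ} (hε : ∀ v, ε v * ε v = 1)
    (hW : 3 ≤ Fintype.card Wv) (u η : ℝ) (hu : u = 8 ^ (D + 1))
    (hη : η = (u - 1) * u ^ (2 * D) / (r:ℝ) ^ 2)
    (hC0 : 8 * (1 + c0) * (4 * h) ≤ r * (Fintype.card Wv * r))
    (hC1 : (1 + η) ^ (4 * h) * 2 ^ t ≤ u ^ (K + 1))
    (hC2 : Real.exp (2 * (1 + (c0:ℝ)) * (4 * h) / (r:ℝ) ^ 2) * 2 ^ t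
      ≤ 2 ^ (Fintype.card Wv / 16 + 1))
    (hC3 : (1 + η ^ 2 / 4) ^ (4 * h) ≤ 2)
    (hK : 3 * K ≤ Fintype.card Wv) (hd : M + K + D * K ≤ d)
    (v0 : E × Fin r × Fin r) {L s : ℕ} (pf : Fin L → Fm (E × Fin r × Fin r))
    (hs : ∀ i, (pf i).len ≤ s) (hL : 9 * L * s ^ 2 < 2 ^ t) :
    ∃ ω ∈ Om src tgt ε, ∀ i, ∀ B ∈ allInst v0 (pf i), B.len ≤ 4 * h →
      Good (pa d M hx hM (eE src tgt ε ω.1 ω.2) (eE_sq hε ω.1 ω.2))
        (Fv src tgt ω.1 ω.2) K t B := by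
  classical
  by_contra hcon
  push Not at hcon
  have hne : Nonempty Wv := Fintype.card_pos_iff.mp (by omega)
  have hconn : Conn src tgt r := conn_of_SG hG (by omega) hr
  have hOm := Om_nonempty hconn hr hε
  let ι := (i : Fin L) × Fin (allInst v0 (pf i)).length
  let Bf : ι → Fm (E × Fin r × Fin r) := fun x => (allInst v0 (pf x.1))[x.2]
  let bad : ι → Finset ((Wv → Fin r) × (E × Fin r × Fin r → Bool)) := fun x =>
    (Om src tgt ε).filter fun ω => (Bf x).len ≤ 4 * h ∧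
      ¬ Good (pa d M hx hM (eE src tgt ε ω.1 ω.2) (eE_sq hε ω.1 ω.2))
        (Fv src tgt ω.1 ω.2) K t (Bf x)
  have h1 : Om src tgt ε ⊆ (univ : Finset ι).biUnion bad := by
    intro ω hω
    obtain ⟨i, B, hB, hlen, hgood⟩ := hcon ω hω
    obtain ⟨j, hj, hjB⟩ := List.mem_iff_getElem.mp hB
    rw [Finset.mem_biUnion]
    refine ⟨⟨i, ⟨j, hj⟩⟩, mem_univ _, ?_⟩
    refine Finset.mem_filter.mpr ⟨hω, ?_⟩
    have h2 : Bf ⟨i, ⟨j, hj⟩⟩ = B := hjB
    rw [h2]
    exact ⟨hlen, hgood⟩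
  have h2 : ∀ x, ((bad x).card : ℝ) * 2 ^ t ≤ 3 * ((Om src tgt ε).card : ℝ) := by
    intro x
    by_cases hx' : (Bf x).len ≤ 4 * h
    · refine bad_bound hG hx hM hr hε hW u η hu hη hC0 hC1 hC2 hC3 hK hd (Bf x) hx' (bad x)
        fun ω hω => ?_
      have h3 := Finset.mem_filter.mp hω
      exact ⟨h3.1, h3.2.2⟩
    · have h3 : bad x = ∅ := by
        refine Finset.eq_empty_of_forall_notMem fun ω hω => ?_
        exact hx' (Finset.mem_filter.mp hω).2.1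
      rw [h3, Finset.card_empty, Nat.cast_zero, zero_mul]
      positivity
  have h3 : Fintype.card ι ≤ L * (3 * s ^ 2) := by
    have h4 : Fintype.card ι = ∑ i : Fin L, (allInst v0 (pf i)).length := by
      rw [Fintype.card_sigma]
      simp
    rw [h4]
    calc ∑ i : Fin L, (allInst v0 (pf i)).length ≤ ∑ _i : Fin L, 3 * s ^ 2 := by
          refine Finset.sum_le_sum fun i _ => ?_
          refine (length_allInst v0 (pf i)).trans ?_
          exact Nat.mul_le_mul_left _ (Nat.pow_le_pow_left (hs i) 2)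
      _ = L * (3 * s ^ 2) := by simp
  have h4 : ((Om src tgt ε).card : ℝ) * 2 ^ t
      ≤ (L * (3 * s ^ 2) : ℕ) * (3 * ((Om src tgt ε).card : ℝ)) := by
    calc ((Om src tgt ε).card : ℝ) * 2 ^ t ≤ (∑ x : ι, ((bad x).card : ℝ)) * 2 ^ t := by
          refine mul_le_mul_of_nonneg_right ?_ (by positivity)
          exact_mod_cast (Finset.card_le_card h1).trans Finset.card_biUnion_le
      _ = ∑ x : ι, ((bad x).card : ℝ) * 2 ^ t := by rw [Finset.sum_mul]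
      _ ≤ ∑ _x : ι, 3 * ((Om src tgt ε).card : ℝ) := Finset.sum_le_sum fun x _ => h2 x
      _ = (Fintype.card ι : ℝ) * (3 * ((Om src tgt ε).card : ℝ)) := by
          rw [Finset.sum_const, nsmul_eq_mul, Finset.card_univ]
      _ ≤ _ := by
          refine mul_le_mul_of_nonneg_right ?_ (by positivity)
          exact_mod_cast h3
  have hOmpos : (0:ℝ) < ((Om src tgt ε).card : ℝ) := by
    exact_mod_cast Finset.card_pos.mpr hOm
  have h5 : (9 * L * s ^ 2 : ℝ) < 2 ^ t := by exact_mod_cast hL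
  push_cast at h4
  have h6 : ((Om src tgt ε).card : ℝ) * 2 ^ t ≤ ((Om src tgt ε).card : ℝ) * (9 * L * s ^ 2) := by
    calc ((Om src tgt ε).card : ℝ) * 2 ^ t
        ≤ L * (3 * (s:ℝ) ^ 2) * (3 * ((Om src tgt ε).card : ℝ)) := h4
      _ = _ := by ring
  have h7 := le_of_mul_le_mul_left h6 hOmpos
  linarith

/-- **Lower bound for a fixed graph.** -/
theorem lower {D c0 d M K t h k ℓ : ℕ} (hG : SG src tgt D c0) (hx : Expd src tgt d)
    (hM : 2 * M ≤ d) (hr : 1 ≤ r) {ε : Wv × Fin r → ℝ} (hε : ∀ v, ε v * ε v = 1)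
    (hW : 3 ≤ Fintype.card Wv) (u η : ℝ) (hu : u = 8 ^ (D + 1))
    (hη : η = (u - 1) * u ^ (2 * D) / (r:ℝ) ^ 2)
    (hC0 : 8 * (1 + c0) * (4 * h) ≤ r * (Fintype.card Wv * r))
    (hC1 : (1 + η) ^ (4 * h) * 2 ^ t ≤ u ^ (K + 1))
    (hC2 : Real.exp (2 * (1 + (c0:ℝ)) * (4 * h) / (r:ℝ) ^ 2) * 2 ^ t
      ≤ 2 ^ (Fintype.card Wv / 16 + 1))
    (hC3 : (1 + η ^ 2 / 4) ^ (4 * h) ≤ 2)
    (hK : 3 * K ≤ Fintype.card Wv) (hd : M + K + D * K ≤ d)
    (hh : 4 ≤ h) (htk : t ≤ k) (hk : 1 ≤ k) (hkM : 20 * (k + K) ≤ M)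
    (hkM' : 10 * (ℓ + 2) * (k + K) ≤ M) (hDK : D + 1 ≤ K)
    {Sch : Set (Fm ℕ)} (htaut : ∀ ψ ∈ Sch, ∀ x : ℕ → Bool, ψ.eval x = true)
    (hlen : ∀ ψ ∈ Sch, ψ.len ≤ ℓ)
    (v0 : E × Fin r × Fin r) {L s : ℕ} (hsize : t * (h + 2 * s) ≤ h * k)
    (pf : Fin L → Fm (E × Fin r × Fin r)) (hpf : IsProof Sch pf)
    (hs : ∀ i, (pf i).len ≤ s) (hL : 9 * L * s ^ 2 < 2 ^ t)
    (As : List (Fm (E × Fin r × Fin r)))
    (hAs : ∀ A ∈ As, ∃ v : Wv × Fin r, A.vars ⊆ insert v0 (bb src tgt r {v}) ∧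
      ∀ x, A.eval x = true ↔ chi (bb src tgt r {v}) x = ε v)
    (hfin : ∃ i, pf i = As.foldr Fm.imp (bot v0)) : False := by
  obtain ⟨ω, hω, hgood⟩ := exists_restriction hG hx hM hr hε hW u η hu hη hC0 hC1 hC2 hC3 hK hd
    v0 pf hs hL
  have hac := mem_Om.mp hω
  refine no_proof (pa d M hx hM (eE src tgt ε ω.1 ω.2) (eE_sq hε ω.1 ω.2))
    (Fv src tgt ω.1 ω.2) k K ℓ hk hkM' Sch htaut hlen pf hpf (fun i => ?_) v0 As
    (fun A hA => ?_) hfin
  · refine exists_ce _ _ k K t h hh htk hkM v0 (pf i) ?_ (hgood i)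
    refine le_trans ?_ hsize
    have := hs i
    exact Nat.mul_le_mul_left _ (by omega)
  · obtain ⟨v, hv, hev⟩ := hAs A hA
    refine ⟨fun B hB => ?_, ?_⟩
    · refine dg_hv ω.1 ω.2 B K ?_
      have h1 : lv src tgt ω.1 B.vars ⊆ insert v0.1 (bd src tgt (cen ω.1 {v})) := by
        intro e he
        rw [mem_lv] at he
        have h2 := hv (vars_subs A B hB he)
        rw [Finset.mem_insert] at h2 ⊢
        rcases h2 with h2 | h2
        · left; rw [← h2]; rfl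
        · right
          rw [← lv_bb, mem_lv]; exact h2
      refine (Finset.card_le_card h1).trans ((Finset.card_insert_le _ _).trans ?_)
      have h3 : (cen ω.1 {v}).card ≤ 1 := by
        refine Finset.card_le_one.mpr fun a ha b hb => ?_
        rw [mem_cen, Finset.mem_singleton] at ha hb
        rw [← hb] at ha
        exact (Prod.ext_iff.mp ha).1
      have h4 := card_bd_le hG (cen ω.1 {v})
      have h5 : D * (cen ω.1 {v}).card ≤ D * 1 := Nat.mul_le_mul_left _ h3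
      omega
    · refine ax_true hx hM hε hac v (fun w => ?_) hW A hev
      have h1 := hG.deg w
      have h2 : D ≤ K := by omega
      omega

end Pool.Agent.H3.Frg2
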