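import Mathlib
import Pool.Agent.H3.Frg2.Lower

set_option autoImplicit false
set_option linter.unusedSectionVars false

/-!
# The tautology
-/

namespace Pool.Agent.H3.Frg2

open Finset Pool.Agent.H3.Frg

section Ren

variable {V V' : Type}

/-- renaming of variables -/
def _root_.Pool.Agent.H3.Frg.Fm.ren (f : V → V') : Fm V → Fm V'
  | Fm.var i => Fm.var (f i)
  | Fm.neg A => Fm.neg (A.ren f)
  | Fm.imp A B => Fm.imp (A.ren f) (B.ren f)

theorem len_ren (f : V → V') (A : Fm V) : (A.ren f).len = A.len := by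
  induction A with
  | var i => rfl
  | neg A ih => simp only [Fm.ren, Fm.len, ih]
  | imp A B ihA ihB => simp only [Fm.ren, Fm.len, ihA, ihB]

theorem eval_ren (f : V → V') (A : Fm V) (x : V' → Bool) :
    (A.ren f).eval x = A.eval (fun i => x (f i)) := by
  induction A with
  | var i => rfl
  | neg A ih => simp only [Fm.ren, Fm.eval, ih]
  | imp A B ihA ihB => simp only [Fm.ren, Fm.eval, ihA, ihB]

theorem ren_bind (f : V → V') (σ : ℕ → Fm V) (A : Fm ℕ) :
    (A.bind σ).ren f = A.bind fun i => (σ i).ren f := by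
  induction A with
  | var i => rfl
  | neg A ih => simp only [Fm.bind, Fm.ren, ih]
  | imp A B ihA ihB => simp only [Fm.bind, Fm.ren, ihA, ihB]

theorem ren_ren {V'' : Type} (f : V → V') (g : V' → V'') (A : Fm V) :
    (A.ren f).ren g = A.ren (fun i => g (f i)) := by
  induction A with
  | var i => rfl
  | neg A ih => simp only [Fm.ren, ih]
  | imp A B ihA ihB => simp only [Fm.ren, ihA, ihB]

theorem ren_id (A : Fm V) : A.ren (fun i => i) = A := by
  induction A with
  | var i => rfl
  | neg A ih => simp only [Fm.ren, ih]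
  | imp A B ihA ihB => simp only [Fm.ren, ihA, ihB]

theorem isProof_ren {Sch : Set (Fm ℕ)} {L : ℕ} {pf : Fin L → Fm V} (h : IsProof Sch pf)
    (f : V → V') : IsProof Sch (fun i => (pf i).ren f) := by
  intro i
  rcases h i with ⟨ψ, hψ, σ, h1⟩ | ⟨j, k, hj, hk, h1⟩
  · refine Or.inl ⟨ψ, hψ, fun i => (σ i).ren f, ?_⟩
    show (pf i).ren f = _
    rw [h1, ren_bind]
  · refine Or.inr ⟨j, k, hj, hk, ?_⟩
    show (pf k).ren f = _
    rw [h1]; rfl

end Ren

section Len

variable {V : Type}

theorem len_xr (A B : Fm V) : (A.xr B).len = 2 * (A.len + B.len) + 4 := by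
  simp only [Fm.xr, Fm.len]; ring

theorem len_par (c : ℕ) : ∀ (k : ℕ) (g : ℕ → Fm V), (∀ i, (g i).len ≤ c) →
    (par k g).len + 2 ≤ 4 ^ k * (c + 2) := by
  intro k
  induction k with
  | zero => intro g h; simpa [par] using h 0
  | succ k ih =>
    intro g h
    rw [par, len_xr]
    have h1 := ih g h
    have h2 := ih (fun i => g (2 ^ k + i)) (fun i => h _)
    have h3 : 4 ^ (k + 1) * (c + 2) = 4 * (4 ^ k * (c + 2)) := by ring
    rw [h3]
    omega

theorem len_bot (v : V) : (bot v).len = 4 := rfl

theorem len_feed (v : V) (l : List V) (i : ℕ) : (feed v l i).len ≤ 4 := by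
  unfold feed
  split_ifs
  · simp [Fm.len]
  · rw [len_bot]

variable [DecidableEq V]

theorem vars_xr (A B : Fm V) : (A.xr B).vars = A.vars ∪ B.vars := by
  simp only [Fm.xr, Fm.vars]
  ext x; simp only [mem_union]; tauto

theorem vars_par (S : Finset V) : ∀ (k : ℕ) (g : ℕ → Fm V), (∀ i, (g i).vars ⊆ S) →
    (par k g).vars ⊆ S := by
  intro k
  induction k with
  | zero => intro g h; exact h 0
  | succ k ih =>
    intro g h
    rw [par, vars_xr]
    exact Finset.union_subset (ih g h) (ih _ fun i => h _)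

theorem vars_feed (v : V) (l : List V) (i : ℕ) : (feed v l i).vars ⊆ insert v l.toFinset := by
  unfold feed
  split_ifs with h
  · simp only [Fm.vars]
    intro x hx
    rw [Finset.mem_singleton] at hx
    rw [hx]
    exact Finset.mem_insert_of_mem (List.mem_toFinset.mpr (List.getElem_mem h))
  · intro x hx
    simp only [bot, Fm.vars, Finset.union_idempotent, Finset.mem_singleton] at hx
    rw [hx]; exact Finset.mem_insert_self _ _

theorem vars_parAx (v : V) (M : ℕ) (S : Finset V) (c : Bool) :
    (parAx v M S c).vars ⊆ insert v S := by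
  have h1 : (par (Nat.clog 2 M) (feed v S.toList)).vars ⊆ insert v S := by
    refine vars_par _ _ _ fun i => ?_
    have := vars_feed v S.toList i
    rwa [Finset.toList_toFinset] at this
  unfold parAx
  split_ifs
  · exact h1
  · exact h1

theorem len_parAx (v : V) (M : ℕ) (hM : 1 ≤ M) (S : Finset V) (c : Bool) :
    (parAx v M S c).len ≤ 24 * M ^ 2 := by
  have h1 : (par (Nat.clog 2 M) (feed v S.toList)).len + 2 ≤ 24 * M ^ 2 := by
    refine (len_par 4 _ _ (len_feed v S.toList)).trans ?_
    have h2 : 2 ^ Nat.clog 2 M ≤ 2 * M := by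
      rcases Nat.lt_or_ge 1 M with h | h
      · have h3 : 2 ^ (Nat.clog 2 M - 1) < M := by
          have := Nat.pow_pred_clog_lt_self (b := 2) (by norm_num) h
          simpa using this
        have h4 : 0 < Nat.clog 2 M := Nat.clog_pos (by norm_num) h
        calc 2 ^ Nat.clog 2 M = 2 * 2 ^ (Nat.clog 2 M - 1) := by
              rw [← pow_succ']; congr 1; omega
          _ ≤ 2 * M := by omega
      · have h3 : M = 1 := by omega
        subst h3
        simp
    calc 4 ^ Nat.clog 2 M * (4 + 2) = (2 ^ Nat.clog 2 M) ^ 2 * 6 := by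
          rw [← pow_mul, Nat.mul_comm (Nat.clog 2 M) 2, pow_mul]; norm_num
      _ ≤ (2 * M) ^ 2 * 6 := Nat.mul_le_mul_right _ (Nat.pow_le_pow_left h2 2)
      _ = _ := by ring
  unfold parAx
  split_ifs
  · omega
  · simp only [Fm.len]; omega

theorem len_foldr (b : Fm V) (c : ℕ) (l : List (Fm V)) (h : ∀ A ∈ l, A.len ≤ c) :
    (l.foldr Fm.imp b).len ≤ l.length * (c + 1) + b.len := by
  induction l with
  | nil => simp
  | cons A l ih =>
    simp only [List.foldr_cons, Fm.len, List.length_cons]
    have h1 := h A (by simp)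
    have h2 := ih fun B hB => h B (by simp [hB])
    have h3 : (l.length + 1) * (c + 1) = l.length * (c + 1) + (c + 1) := by ring
    omega

theorem length_le_len_foldr (b : Fm V) (l : List (Fm V)) :
    l.length ≤ (l.foldr Fm.imp b).len := by
  induction l with
  | nil => simp
  | cons A l ih =>
    simp only [List.foldr_cons, Fm.len, List.length_cons]
    omega

theorem eval_foldr (b : Fm V) (x : V → Bool) (l : List (Fm V))
    (h : (∀ A ∈ l, A.eval x = true) → b.eval x = true) : (l.foldr Fm.imp b).eval x = true := by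
  induction l with
  | nil => exact h (by simp)
  | cons A l ih =>
    simp only [List.foldr_cons, Fm.eval, Bool.or_eq_true, Bool.not_eq_true']
    by_cases h1 : A.eval x = true
    · right
      refine ih fun h2 => h ?_
      intro B hB
      rcases List.mem_cons.mp hB with rfl | hB
      · exact h1
      · exact h2 B hB
    · left
      simpa using h1

end Len

variable {E Wv : Type} [Fintype E] [DecidableEq E] [Fintype Wv] [DecidableEq Wv]

/-- the sign pattern: one vertex is odd -/
def sgn {r : ℕ} (v1 v : Wv × Fin r) : Bool := decide (v = v1)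

/-- the axiom of the vertex `v` of the blow-up -/
noncomputable def axm (src tgt : E → Wv) (r : ℕ) (v0 : E × Fin r × Fin r) (v1 : Wv × Fin r)
    (v : Wv × Fin r) : Fm (E × Fin r × Fin r) :=
  parAx v0 (80 * r) (bb src tgt r {v}) (sgn v1 v)

/-- the list of axioms -/
noncomputable def axl (src tgt : E → Wv) (r : ℕ) (v0 : E × Fin r × Fin r) (v1 : Wv × Fin r) :
    List (Fm (E × Fin r × Fin r)) :=
  (univ : Finset (Wv × Fin r)).toList.map (axm src tgt r v0 v1)

/-- the tautology over `V` -/
noncomputable def tau (src tgt : E → Wv) (r : ℕ) (v0 : E × Fin r × Fin r) (v1 : Wv × Fin r) :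
    Fm (E × Fin r × Fin r) :=
  (axl src tgt r v0 v1).foldr Fm.imp (bot v0)

theorem eval_axm {src tgt : E → Wv} {c0 : ℕ} (h : SG src tgt 80 c0) {r : ℕ}
    (v0 : E × Fin r × Fin r) (v1 v : Wv × Fin r) (x : E × Fin r × Fin r → Bool) :
    (axm src tgt r v0 v1 v).eval x = true ↔ chi (bb src tgt r {v}) x = sg (sgn v1 v) :=
  eval_parAx v0 (80 * r) _ (card_bb_singleton h v) _ x

theorem tau_taut {src tgt : E → Wv} {c0 : ℕ} (h : SG src tgt 80 c0) {r : ℕ}
    (v0 : E × Fin r × Fin r) (v1 : Wv × Fin r) (x : E × Fin r × Fin r → Bool) :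
    (tau src tgt r v0 v1).eval x = true := by
  refine eval_foldr _ x _ fun h1 => ?_
  exfalso
  have h2 : ∀ v, chi (bb src tgt r {v}) x = sg (sgn v1 v) := by
    intro v
    rw [← eval_axm h]
    refine h1 _ ?_
    rw [axl, List.mem_map]
    exact ⟨v, by simp, rfl⟩
  have h3 : chi (bb src tgt r univ) x = ∏ v, chi (bb src tgt r {v}) x := chi_bd _ _ univ x
  have h4 : bb src tgt r univ = ∅ := by
    ext e; rw [mem_bb]; simp
  rw [h4, chi_empty, Finset.prod_congr rfl (fun v _ => h2 v)] at h3
  have h5 : ∏ v : Wv × Fin r, sg (sgn v1 v) = -1 := by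
    rw [Finset.prod_eq_single v1]
    · simp [sgn, sg]
    · intro v _ hv
      simp [sgn, sg, hv]
    · intro h; exact absurd (mem_univ _) h
  rw [h5] at h3
  norm_num at h3

theorem len_tau_le {src tgt : E → Wv} {r : ℕ} (hr : 1 ≤ r)
    (v0 : E × Fin r × Fin r) (v1 : Wv × Fin r) :
    (tau src tgt r v0 v1).len ≤ (Fintype.card Wv * r) * (24 * (80 * r) ^ 2 + 1) + 4 := by
  have h1 := len_foldr (bot v0) (24 * (80 * r) ^ 2) (axl src tgt r v0 v1) (fun A hA => by
    rw [axl, List.mem_map] at hA
    obtain ⟨v, _, rfl⟩ := hA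
    exact len_parAx v0 (80 * r) (by omega) _ _)
  rw [len_bot] at h1
  have h2 : (axl src tgt r v0 v1).length = Fintype.card Wv * r := by
    rw [axl, List.length_map, Finset.length_toList, Finset.card_univ, Fintype.card_prod,
      Fintype.card_fin]
  rw [h2] at h1
  exact h1

theorem le_len_tau {src tgt : E → Wv} {r : ℕ}
    (v0 : E × Fin r × Fin r) (v1 : Wv × Fin r) :
    Fintype.card Wv * r ≤ (tau src tgt r v0 v1).len := by
  have h1 := length_le_len_foldr (bot v0) (axl src tgt r v0 v1)
  have h2 : (axl src tgt r v0 v1).length = Fintype.card Wv * r := by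
    rw [axl, List.length_map, Finset.length_toList, Finset.card_univ, Fintype.card_prod,
      Fintype.card_fin]
  rw [h2] at h1
  exact h1

theorem axl_spec {src tgt : E → Wv} {c0 : ℕ} (h : SG src tgt 80 c0) {r : ℕ}
    (v0 : E × Fin r × Fin r) (v1 : Wv × Fin r) :
    ∀ A ∈ axl src tgt r v0 v1, ∃ v : Wv × Fin r, A.vars ⊆ insert v0 (bb src tgt r {v}) ∧
      ∀ x, A.eval x = true ↔ chi (bb src tgt r {v}) x = sg (sgn v1 v) := by
  intro A hA
  rw [axl, List.mem_map] at hA
  obtain ⟨v, _, rfl⟩ := hA
  exact ⟨v, vars_parAx _ _ _ _, eval_axm h v0 v1 v⟩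

theorem len_le_enc (A : Fm ℕ) : A.len ≤ A.enc.length := by
  induction A with
  | var i => simp [Fm.len, Fm.enc]
  | neg A ih => simp only [Fm.len, Fm.enc, List.length_cons]; omega
  | imp A B ihA ihB =>
    simp only [Fm.len, Fm.enc, List.length_cons, List.length_append]; omega

theorem enc_le {V : Type} (f : V → ℕ) (B : ℕ) (hf : ∀ v, f v < B) (A : Fm V) :
    (A.ren f).enc.length ≤ A.len * (2 * Nat.size B + 2) := by
  induction A with
  | var i =>
    simp only [Fm.len, Fm.ren, Fm.enc, List.length_cons, List.length_append, List.length_flatMap,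
      List.length_nil]
    have h1 : (Nat.bits (f i)).length = Nat.size (f i) := Nat.size_eq_bits_len _
    have h2 : Nat.size (f i) ≤ Nat.size B := Nat.size_le_size (hf i).le
    have h3 : (List.map (fun _ : Bool => 0 + 1 + 1) (Nat.bits (f i))).sum
        = 2 * (Nat.bits (f i)).length := by
      simp [mul_comm]
    rw [h3, h1]
    omega
  | neg A ih =>
    simp only [Fm.len, Fm.ren, Fm.enc, List.length_cons]
    have h3 : (A.len + 1) * (2 * Nat.size B + 2) = A.len * (2 * Nat.size B + 2)
      + (2 * Nat.size B + 2) := by ring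
    omega
  | imp A B' ihA ihB =>
    simp only [Fm.len, Fm.ren, Fm.enc, List.length_cons, List.length_append]
    have h3 : (A.len + B'.len + 1) * (2 * Nat.size B + 2) = A.len * (2 * Nat.size B + 2)
      + B'.len * (2 * Nat.size B + 2) + (2 * Nat.size B + 2) := by ring
    omega

end Pool.Agent.H3.Frg2
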