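import Mathlib
import Pool.Agent.H3.Frg2.Taut
import Pool.Agent.H3.Frg2.SuperGraph

set_option autoImplicit false
set_option linter.unusedSectionVars false

/-!
# Numerics
-/

namespace Pool.Agent.H3.Frg2

open Finset Pool.Agent.H3.Frg

/-- the threshold for `q` -/
def thr (κ ℓ : ℕ) : ℕ := 4 * (8 * κ ^ 2 * 12002 * 80 * (ℓ + 2))

theorem thr_ge (κ ℓ : ℕ) (hκ : 1 ≤ κ) :
    61450240 ≤ thr κ ℓ ∧ 16 * κ ^ 2 ≤ thr κ ℓ ∧ 6001 * 80 * (ℓ + 2) ≤ thr κ ℓ := by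
  have h1 : 1 ≤ κ ^ 2 := Nat.one_le_pow _ _ hκ
  unfold thr
  refine ⟨?_, ?_, ?_⟩
  · calc 61450240 = 4 * (8 * 1 * 12002 * 80 * 2) := by norm_num
      _ ≤ 4 * (8 * κ ^ 2 * 12002 * 80 * (ℓ + 2)) := by gcongr; omega
  · have h2 : κ ^ 2 * 1 ≤ κ ^ 2 * (ℓ + 2) := Nat.mul_le_mul_left _ (by omega)
    calc 16 * κ ^ 2 = 16 * (κ ^ 2 * 1) := by ring
      _ ≤ 16 * (κ ^ 2 * (ℓ + 2)) := Nat.mul_le_mul_left _ h2
      _ ≤ 30725120 * (κ ^ 2 * (ℓ + 2)) := Nat.mul_le_mul_right _ (by norm_num)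
      _ = _ := by ring
  · have h2 : 1 * (ℓ + 2) ≤ κ ^ 2 * (ℓ + 2) := Nat.mul_le_mul_right _ h1
    calc 6001 * 80 * (ℓ + 2) = 480080 * (1 * (ℓ + 2)) := by ring
      _ ≤ 480080 * (κ ^ 2 * (ℓ + 2)) := Nat.mul_le_mul_left _ h2
      _ ≤ 30725120 * (κ ^ 2 * (ℓ + 2)) := Nat.mul_le_mul_right _ (by norm_num)
      _ = _ := by ring

/-- all natural number inequalities -/
theorem nums {κ ℓ q r t : ℕ} (hκ : 1 ≤ κ) (hq : thr κ ℓ ≤ q) (hr : q ≤ r)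
    (ht : t ≤ r ^ 2) :
    ∃ n M h k : ℕ, n = q * r ^ 2 ∧ 3 * 1000 * (2 * M) < n ∧
      4 * h * κ ^ 2 ≤ r ^ 4 ∧
      8 * (1 + 1000) * (4 * h) ≤ r * (n * r) ∧
      4005 * r ^ 2 ≤ n / 16 ∧ 3 * r ^ 2 ≤ n ∧ M + r ^ 2 + 80 * r ^ 2 ≤ 2 * M ∧
      4 ≤ h ∧ t ≤ k ∧ 1 ≤ k ∧ 20 * (k + r ^ 2) ≤ M ∧ 10 * (ℓ + 2) * (k + r ^ 2) ≤ M ∧
      81 ≤ r ^ 2 ∧ (∀ s, t * s ≤ r ^ 6 → t * (h + 2 * s) ≤ h * k) := by
  obtain ⟨h1, h2, h3⟩ := thr_ge κ ℓ hκ
  have hq1 : 61450240 ≤ q := h1.trans hq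
  have hq2 : 16 * κ ^ 2 ≤ q := h2.trans hq
  have hq3 : 6001 * 80 * (ℓ + 2) ≤ q := h3.trans hq
  have hr1 : 61450240 ≤ r := hq1.trans hr
  have hκ2 : 1 ≤ κ ^ 2 := Nat.one_le_pow _ _ hκ
  have hrr : r ≤ r ^ 2 := by nlinarith
  obtain ⟨R, hR⟩ : ∃ R, R = r ^ 2 := ⟨_, rfl⟩
  have hR4 : r ^ 4 = R * R := by rw [hR]; ring
  have hR6 : r ^ 6 = R * R * R := by rw [hR]; ring
  rw [hR4, hR6, ← hR]
  rw [← hR] at hrr ht
  have hRq : q ≤ R := hr.trans hrr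
  set n := q * R with hn
  set M := n / 6001 with hM
  set h := R * R / (4 * κ ^ 2) with hh
  set k := M / (40 * (ℓ + 2)) with hk
  have hnpos : 0 < n := Nat.mul_pos (by omega) (by omega)
  have hM1 : 6001 * M ≤ n := Nat.mul_div_le n 6001
  have hM2 : n < 6001 * (M + 1) := by
    have := Nat.lt_mul_div_succ n (show 0 < 6001 by norm_num)
    exact this
  have hRR : R * q ≤ R * R := Nat.mul_le_mul_left _ hRq
  have h4h : 4 * κ ^ 2 * h ≤ R * R := Nat.mul_div_le _ _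
  have h4h' : R * R < 4 * κ ^ 2 * (h + 1) := Nat.lt_mul_div_succ _ (by omega)
  have h40 : 40 * (ℓ + 2) * k ≤ M := Nat.mul_div_le _ _
  have h40' : M < 40 * (ℓ + 2) * (k + 1) := Nat.lt_mul_div_succ _ (by omega)
  have hMR : 6001 * 80 * (ℓ + 2) * R ≤ n := by
    rw [hn]; exact Nat.mul_le_mul_right _ hq3
  have hMR2 : 80 * (ℓ + 2) * R ≤ M := by
    rw [hM, Nat.le_div_iff_mul_le (by norm_num)]
    calc 80 * (ℓ + 2) * R * 6001 = 6001 * 80 * (ℓ + 2) * R := by ring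
      _ ≤ n := hMR
  have hkR : 2 * R ≤ k := by
    rw [hk, Nat.le_div_iff_mul_le (by omega)]
    calc 2 * R * (40 * (ℓ + 2)) = 80 * (ℓ + 2) * R := by ring
      _ ≤ M := hMR2
  have hh4 : 4 ≤ h := by
    rw [hh, Nat.le_div_iff_mul_le (by omega)]
    calc 4 * (4 * κ ^ 2) = 16 * κ ^ 2 := by ring
      _ ≤ q := hq2
      _ ≤ R := hRq
      _ ≤ R * R := Nat.le_mul_of_pos_left _ (by omega)
  have hnR : 61450240 * R ≤ n := by rw [hn]; exact Nat.mul_le_mul_right _ hq1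
  refine ⟨n, M, h, k, rfl, by omega, ?_, ?_, ?_, by omega, ?_, hh4, by omega, by omega, ?_, ?_,
    by omega, ?_⟩
  · calc 4 * h * κ ^ 2 = 4 * κ ^ 2 * h := by ring
      _ ≤ R * R := h4h
  · have h5 : 4 * h ≤ R * R := by
      calc 4 * h = 4 * 1 * h := by ring
        _ ≤ 4 * κ ^ 2 * h := by gcongr
        _ ≤ R * R := h4h
    calc 8 * (1 + 1000) * (4 * h) ≤ 8 * (1 + 1000) * (R * R) := Nat.mul_le_mul_left _ h5
      _ ≤ q * (R * R) := Nat.mul_le_mul_right _ (by omega)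
      _ = r * (n * r) := by rw [hn, hR]; ring
  · rw [Nat.le_div_iff_mul_le (by norm_num)]; omega
  · have : 81 * R ≤ M := by
      rw [hM, Nat.le_div_iff_mul_le (by norm_num)]; omega
    omega
  · have h5 : 40 * k ≤ 40 * (ℓ + 2) * k := Nat.mul_le_mul_right _ (by omega)
    omega
  · calc 10 * (ℓ + 2) * (k + R) ≤ 10 * (ℓ + 2) * (k + k) := Nat.mul_le_mul_left _ (by omega)
      _ = 20 * (ℓ + 2) * k := by ring
      _ ≤ 40 * (ℓ + 2) * k := by gcongr; norm_num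
      _ ≤ M := h40
  · intro s hs
    -- `4 R^3 ≤ h k`
    have e1 : R * R ≤ 8 * κ ^ 2 * h := by
      have : 4 * κ ^ 2 * (h + 1) ≤ 8 * κ ^ 2 * h := by
        calc 4 * κ ^ 2 * (h + 1) ≤ 4 * κ ^ 2 * (2 * h) := Nat.mul_le_mul_left _ (by omega)
          _ = _ := by ring
      omega
    have e2 : n ≤ 12002 * M := by omega
    have e3 : M ≤ 80 * (ℓ + 2) * k := by
      have : 40 * (ℓ + 2) * (k + 1) ≤ 80 * (ℓ + 2) * k := by
        calc 40 * (ℓ + 2) * (k + 1) ≤ 40 * (ℓ + 2) * (2 * k) :=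
              Nat.mul_le_mul_left _ (by omega)
          _ = _ := by ring
      omega
    have e4 : (R * R) * n ≤ (8 * κ ^ 2 * 12002 * 80 * (ℓ + 2)) * (h * k) := by
      calc (R * R) * n ≤ (8 * κ ^ 2 * h) * (12002 * (80 * (ℓ + 2) * k)) :=
            Nat.mul_le_mul e1 (e2.trans (Nat.mul_le_mul_left _ e3))
        _ = _ := by ring
    have hCpos : 0 < 8 * κ ^ 2 * 12002 * 80 * (ℓ + 2) := by positivity
    have e5 : 4 * (R * R * R) ≤ h * k := by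
      refine Nat.le_of_mul_le_mul_left ?_ hCpos
      calc (8 * κ ^ 2 * 12002 * 80 * (ℓ + 2)) * (4 * (R * R * R))
          = thr κ ℓ * (R * R * R) := by unfold thr; ring
        _ ≤ q * (R * R * R) := Nat.mul_le_mul_right _ hq
        _ = (R * R) * n := by rw [hn]; ring
        _ ≤ _ := e4
    have e6 : 2 * (t * h) ≤ h * k := by
      calc 2 * (t * h) = h * (2 * t) := by ring
        _ ≤ h * k := Nat.mul_le_mul_left _ (by omega)
    calc t * (h + 2 * s) = t * h + 2 * (t * s) := by ring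
      _ ≤ t * h + 2 * (R * R * R) := Nat.add_le_add_left (Nat.mul_le_mul_left _ hs) _
      _ ≤ h * k := by omega

/-- the constant -/
def kap : ℕ := (8 ^ 81) ^ 161

theorem one_le_kap : 1 ≤ kap := Nat.one_le_pow _ _ (Nat.one_le_pow _ _ (by norm_num))

theorem kap_ge (u : ℝ) (hu : u = 8 ^ (80 + 1)) : (u - 1) * u ^ (2 * 80) ≤ (kap : ℝ) := by
  have h1 : (kap : ℝ) = u * u ^ (2 * 80) := by
    have : ((kap : ℕ) : ℝ) = ((8:ℝ) ^ 81) ^ 161 := by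
      rw [kap, Nat.cast_pow, Nat.cast_pow, Nat.cast_ofNat]
    rw [this, hu, ← pow_succ']
  rw [h1]
  have hu1 : 1 ≤ u := by rw [hu]; exact one_le_pow₀ (by norm_num)
  exact mul_le_mul_of_nonneg_right (by linarith) (by positivity)

theorem exp_le_four_pow (x : ℝ) (m : ℕ) (h : x ≤ m) : Real.exp x ≤ 4 ^ m := by
  have h1 : Real.exp 1 ≤ 4 := by
    have := Real.exp_one_lt_d9
    linarith
  calc Real.exp x ≤ Real.exp (m * 1) := Real.exp_le_exp.mpr (by rwa [mul_one])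
    _ = (Real.exp 1) ^ m := by rw [Real.exp_nat_mul]
    _ ≤ 4 ^ m := pow_le_pow_left₀ (Real.exp_pos 1).le h1 m

/-- the analytic inequalities -/
theorem real_nums {t r n h : ℕ} (hr : 1 ≤ r) (u η : ℝ) (hu : u = 8 ^ (80 + 1))
    (hη : η = (u - 1) * u ^ (2 * 80) / (r:ℝ) ^ 2)
    (h1 : 4 * h * kap ^ 2 ≤ r ^ 4) (h2 : 4005 * r ^ 2 ≤ n / 16) (h3 : t ≤ r ^ 2) :
    (1 + η) ^ (4 * h) * 2 ^ t ≤ u ^ (r ^ 2 + 1) ∧
    Real.exp (2 * (1 + ((1000 : ℕ):ℝ)) * (4 * h) / (r:ℝ) ^ 2) * 2 ^ t ≤ 2 ^ (n / 16 + 1) ∧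
    (1 + η ^ 2 / 4) ^ (4 * h) ≤ 2 := by
  have hrR : (0:ℝ) < r := by exact_mod_cast hr
  have hu1 : 1 ≤ u := by rw [hu]; exact one_le_pow₀ (by norm_num)
  have hη0 : 0 ≤ η := by
    rw [hη]
    apply div_nonneg
    · apply mul_nonneg; linarith; positivity
    · positivity
  have hκ := kap_ge u hu
  have hκ1 : (1:ℝ) ≤ (kap:ℝ) := by exact_mod_cast one_le_kap
  have hηκ : η ≤ (kap:ℝ) / (r:ℝ) ^ 2 := by
    rw [hη]; exact div_le_div_of_nonneg_right hκ (by positivity)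
  generalize (kap:ℕ) = κ at *
  have h1R : 4 * (h:ℝ) * (κ:ℝ) ^ 2 ≤ (r:ℝ) ^ 4 := by exact_mod_cast h1
  have hh0 : (0:ℝ) ≤ h := by positivity
  have h4h : 4 * (h:ℝ) * (κ:ℝ) ≤ (r:ℝ) ^ 4 := by
    have : 4 * (h:ℝ) * (κ:ℝ) ≤ 4 * (h:ℝ) * (κ:ℝ) ^ 2 := by
      refine mul_le_mul_of_nonneg_left ?_ (by positivity)
      nlinarith
    linarith
  have h4h' : 4 * (h:ℝ) ≤ (r:ℝ) ^ 4 := by
    have : 4 * (h:ℝ) * 1 ≤ 4 * (h:ℝ) * (κ:ℝ) :=
      mul_le_mul_of_nonneg_left hκ1 (by positivity)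
    linarith
  refine ⟨?_, ?_, ?_⟩
  · have e1 : (1 + η) ^ (4 * h) ≤ 4 ^ (r ^ 2) := by
      calc (1 + η) ^ (4 * h) ≤ (Real.exp η) ^ (4 * h) :=
            pow_le_pow_left₀ (by positivity) (by linarith [Real.add_one_le_exp η]) _
        _ = Real.exp ((4 * h : ℕ) * η) := by rw [← Real.exp_nat_mul]
        _ ≤ 4 ^ (r ^ 2) := by
            refine exp_le_four_pow _ _ ?_
            push_cast
            calc 4 * (h:ℝ) * η ≤ 4 * (h:ℝ) * ((κ:ℝ) / (r:ℝ) ^ 2) :=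
                  mul_le_mul_of_nonneg_left hηκ (by positivity)
              _ = (4 * (h:ℝ) * (κ:ℝ)) / (r:ℝ) ^ 2 := by ring
              _ ≤ (r:ℝ) ^ 4 / (r:ℝ) ^ 2 := div_le_div_of_nonneg_right h4h (by positivity)
              _ = (r:ℝ) ^ 2 := by field_simp
    calc (1 + η) ^ (4 * h) * 2 ^ t ≤ 4 ^ (r ^ 2) * 2 ^ (r ^ 2) :=
          mul_le_mul e1 (pow_le_pow_right₀ (by norm_num) h3) (by positivity) (by positivity)
      _ = 8 ^ (r ^ 2) := by rw [← mul_pow]; norm_num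
      _ ≤ u ^ (r ^ 2) := by
          refine pow_le_pow_left₀ (by norm_num) ?_ _
          rw [hu]
          calc (8:ℝ) = 8 ^ 1 := by norm_num
            _ ≤ 8 ^ (80 + 1) := pow_le_pow_right₀ (by norm_num) (by norm_num)
      _ ≤ u ^ (r ^ 2 + 1) := pow_le_pow_right₀ hu1 (by omega)
  · have e1 : Real.exp (2 * (1 + ((1000 : ℕ):ℝ)) * (4 * h) / (r:ℝ) ^ 2) ≤ 4 ^ (2002 * r ^ 2) := by
      refine exp_le_four_pow _ _ ?_
      push_cast
      rw [div_le_iff₀ (by positivity)]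
      calc 2 * (1 + 1000) * (4 * (h:ℝ)) ≤ 2 * (1 + 1000) * (r:ℝ) ^ 4 :=
            mul_le_mul_of_nonneg_left h4h' (by norm_num)
        _ = _ := by ring
    calc Real.exp (2 * (1 + ((1000 : ℕ):ℝ)) * (4 * h) / (r:ℝ) ^ 2) * 2 ^ t
        ≤ 4 ^ (2002 * r ^ 2) * 2 ^ (r ^ 2) :=
          mul_le_mul e1 (pow_le_pow_right₀ (by norm_num) h3) (by positivity) (by positivity)
      _ = 2 ^ (4005 * r ^ 2) := by
          rw [show (4:ℝ) = 2 ^ 2 by norm_num, ← pow_mul, ← pow_add]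
          congr 1; ring
      _ ≤ 2 ^ (n / 16 + 1) := pow_le_pow_right₀ (by norm_num) (by omega)
  · have e2 : (h:ℝ) * η ^ 2 ≤ 1 / 4 := by
      calc (h:ℝ) * η ^ 2 ≤ (h:ℝ) * ((κ:ℝ) / (r:ℝ) ^ 2) ^ 2 :=
            mul_le_mul_of_nonneg_left (pow_le_pow_left₀ hη0 hηκ 2) hh0
        _ = (4 * (h:ℝ) * (κ:ℝ) ^ 2) / (4 * (r:ℝ) ^ 4) := by field_simp
        _ ≤ (r:ℝ) ^ 4 / (4 * (r:ℝ) ^ 4) := div_le_div_of_nonneg_right h1R (by positivity)
        _ = 1 / 4 := by field_simp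
    calc (1 + η ^ 2 / 4) ^ (4 * h) ≤ (Real.exp (η ^ 2 / 4)) ^ (4 * h) :=
          pow_le_pow_left₀ (by positivity) (by linarith [Real.add_one_le_exp (η ^ 2 / 4)]) _
      _ = Real.exp ((h:ℝ) * η ^ 2) := by
          rw [← Real.exp_nat_mul]; congr 1; push_cast; ring
      _ ≤ Real.exp (1 / 4) := Real.exp_le_exp.mpr e2
      _ ≤ 2 := by
          have h5 : (1:ℝ) / 4 ≤ Real.log 2 := by
            have := Real.log_two_gt_d9; linarith
          calc Real.exp (1 / 4) ≤ Real.exp (Real.log 2) := Real.exp_le_exp.mpr h5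
            _ = 2 := Real.exp_log (by norm_num)

/-- the tautology and the lower bound for fixed `q` -/
theorem fixed (b q : ℕ) (hb : 1 ≤ b) (hq : 1000 ≤ q) :
    ∃ τ : Fm ℕ, (∀ x, τ.eval x = true) ∧ q ≤ τ.enc.length ∧
      τ.enc.length ≤ 153605 * (q * (q ^ b) ^ 5) * (2 * Nat.size (40 * (q * (q ^ b) ^ 4) + 1) + 2) ∧
      ∀ ℓ : ℕ, thr kap ℓ ≤ q → ∀ Sch : Set (Fm ℕ),
        (∀ ψ ∈ Sch, ∀ x : ℕ → Bool, ψ.eval x = true) → (∀ ψ ∈ Sch, ψ.len ≤ ℓ) →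
        ∀ t s : ℕ, t ≤ (q ^ b) ^ 2 → t * s ≤ (q ^ b) ^ 6 →
        ∀ (L : ℕ) (pf : Fin L → Fm ℕ), IsProof Sch pf → (∃ i, pf i = τ) →
        (∀ i, (pf i).len ≤ s) → 2 ^ t ≤ 9 * L * s ^ 2 := by
  obtain ⟨r, hr⟩ : ∃ r, r = q ^ b := ⟨_, rfl⟩
  have hqr : q ≤ r := by
    rw [hr]; exact Nat.le_self_pow (by omega) q
  have hr1 : 1 ≤ r := by omega
  obtain ⟨n, hn⟩ : ∃ n, n = q * r ^ 2 := ⟨_, rfl⟩
  have hn1000 : 1000 ≤ n := by
    rw [hn]
    calc 1000 ≤ q * 1 := by omega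
      _ ≤ q * r ^ 2 := Nat.mul_le_mul_left _ (Nat.one_le_pow _ _ hr1)
  obtain ⟨E, iE, iD, src, tgt, hG, hE⟩ := exists_super n hn1000
  have : NeZero n := ⟨by omega⟩
  have hcardW : Fintype.card (Fin n) = n := Fintype.card_fin n
  -- a variable
  have hEne : Nonempty E := by
    by_contra hne
    rw [not_nonempty_iff] at hne
    have h1 := hG.cheeger {0}
    have h2 : bd src tgt {0} = ∅ := by
      ext e; exact (hne.false e).elim
    rw [h2, Finset.card_empty, mul_zero, Finset.card_singleton, hcardW] at h1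
    have : min 1 (n - 1) = 1 := min_eq_left (by omega)
    omega
  obtain ⟨e0⟩ := hEne
  set v0 : E × Fin r × Fin r := (e0, ⟨0, hr1⟩, ⟨0, hr1⟩) with hv0
  set v1 : Fin n × Fin r := (0, ⟨0, hr1⟩) with hv1
  set φ := Fintype.equivFin (E × Fin r × Fin r) with hφ
  set f : E × Fin r × Fin r → ℕ := fun v => (φ v : ℕ) with hf
  have hcardV : Fintype.card (E × Fin r × Fin r) ≤ 40 * (q * r ^ 4) := by
    rw [Fintype.card_prod, Fintype.card_prod, Fintype.card_fin]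
    calc Fintype.card E * (r * r) ≤ (40 * n) * (r * r) := Nat.mul_le_mul_right _ hE
      _ = 40 * (q * r ^ 4) := by rw [hn]; ring
  have hfB : ∀ v, f v < 40 * (q * r ^ 4) + 1 := by
    intro v
    have := (φ v).isLt
    show (φ v : ℕ) < _
    omega
  set g : ℕ → E × Fin r × Fin r := fun i =>
    if h : i < Fintype.card (E × Fin r × Fin r) then φ.symm ⟨i, h⟩ else v0 with hg
  have hgf : ∀ v, g (f v) = v := by
    intro v
    have h1 : f v < Fintype.card (E × Fin r × Fin r) := (φ v).isLt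
    rw [hg]
    simp only [h1, dif_pos]
    exact φ.symm_apply_apply v
  refine ⟨(tau src tgt r v0 v1).ren f, fun x => ?_, ?_, ?_, ?_⟩
  · rw [eval_ren]; exact tau_taut hG v0 v1 _
  · refine le_trans ?_ (len_le_enc _)
    rw [len_ren]
    refine le_trans ?_ (le_len_tau v0 v1)
    rw [hcardW, hn]
    calc q = q * 1 * 1 := by ring
      _ ≤ q * r ^ 2 * r := Nat.mul_le_mul (Nat.mul_le_mul_left _ (Nat.one_le_pow _ _ hr1)) hr1
  · refine (enc_le f _ hfB _).trans ?_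
    rw [← hr]
    refine Nat.mul_le_mul_right _ ((len_tau_le hr1 v0 v1).trans ?_)
    rw [hcardW, hn]
    have e1 : 1 ≤ r ^ 2 := Nat.one_le_pow _ _ hr1
    have e2 : 24 * (80 * r) ^ 2 + 1 ≤ 153601 * r ^ 2 := by
      calc 24 * (80 * r) ^ 2 + 1 = 153600 * r ^ 2 + 1 := by ring
        _ ≤ _ := by omega
    have e3 : 1 ≤ q * r ^ 5 := Nat.mul_pos (by omega) (Nat.one_le_pow _ _ hr1)
    calc q * r ^ 2 * r * (24 * (80 * r) ^ 2 + 1) + 4
        ≤ q * r ^ 2 * r * (153601 * r ^ 2) + 4 :=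
          Nat.add_le_add_right (Nat.mul_le_mul_left _ e2) _
      _ = 153601 * (q * r ^ 5) + 4 := by ring
      _ ≤ 153605 * (q * r ^ 5) := by omega
  · intro ℓ hℓ Sch htaut hlen t s ht hts L pf hpf hfin hs
    rw [← hr] at ht hts
    by_contra hL
    push Not at hL
    obtain ⟨n', M, h, k, hn', g1, g2, g3, g4, g5, g6, g7, g8, g9, g10, g11, g12, g14⟩ :=
      nums one_le_kap hℓ hqr ht
    rw [← hn] at hn'
    subst hn'
    obtain ⟨u, hu⟩ : ∃ u : ℝ, u = 8 ^ (80 + 1) := ⟨_, rfl⟩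
    obtain ⟨η, hη⟩ : ∃ η : ℝ, η = (u - 1) * u ^ (2 * 80) / (r:ℝ) ^ 2 := ⟨_, rfl⟩
    obtain ⟨a1, a2, a3⟩ := real_nums hr1 u η hu hη g2 g4 ht
    have hx : Expd src tgt (2 * M) :=
      expd_of_SG hG (by rw [hcardW]; exact g1) (by rw [hcardW]; omega)
    obtain ⟨i0, hi0⟩ := hfin
    refine lower (K := r ^ 2) (t := t) (h := h) (k := k) (ℓ := ℓ) hG hx le_rfl hr1
      (ε := fun v => sg (sgn v1 v)) (fun v => sg_mul_self _) (by rw [hcardW]; omega) u η hu hη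
      (by rw [hcardW]; exact g3) a1 (by rw [hcardW]; exact a2) a3 (by rw [hcardW]; exact g5) g6
      g7 g8 g9 g10 g11 g12 htaut hlen v0 (s := s) (g14 _ hts)
      (fun i => (pf i).ren g) (isProof_ren hpf g) (fun i => by rw [len_ren]; exact hs i) hL
      (axl src tgt r v0 v1) (axl_spec hG v0 v1) ⟨i0, ?_⟩
    show (pf i0).ren g = tau src tgt r v0 v1
    rw [hi0, ren_ren]
    simp only [hgf]
    exact ren_id _

end Pool.Agent.H3.Frg2
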