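import Mathlib
import Pool.Agent.H3.Frg2.Numerics

set_option autoImplicit false
set_option linter.unusedSectionVars false

/-!
# Final assembly
-/

namespace Pool.Agent.H3.Frg2

open Finset Filter Topology Pool.Agent.H3.Frg

theorem size_bound (b q : ℕ) (hq : 1 ≤ q) :
    Nat.size (40 * (q * (q ^ b) ^ 4) + 1) ≤ 6 + (4 * b + 1) * Nat.size q := by
  rw [Nat.size_le]
  have h1 : q < 2 ^ Nat.size q := Nat.lt_size_self q
  have h2 : q * (q ^ b) ^ 4 = q ^ (4 * b + 1) := by ring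
  have h3 : q ^ (4 * b + 1) ≤ 2 ^ ((4 * b + 1) * Nat.size q) := by
    calc q ^ (4 * b + 1) ≤ (2 ^ Nat.size q) ^ (4 * b + 1) := Nat.pow_le_pow_left h1.le _
      _ = 2 ^ ((4 * b + 1) * Nat.size q) := by rw [← pow_mul]; congr 1; ring
  have h4 : 1 ≤ q ^ (4 * b + 1) := Nat.one_le_pow _ _ hq
  rw [h2, pow_add 2 6]
  calc 40 * q ^ (4 * b + 1) + 1 < 64 * q ^ (4 * b + 1) := by omega
    _ ≤ 2 ^ 6 * 2 ^ ((4 * b + 1) * Nat.size q) := by
        norm_num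
        exact h3

theorem size_le_log (q : ℕ) (hq : 1 ≤ q) : (Nat.size q : ℝ) ≤ 2 * Real.log q + 1 := by
  have h1 : 0 < Nat.size q := Nat.size_pos.mpr hq
  have h2 : 2 ^ (Nat.size q - 1) ≤ q := Nat.lt_size.mp (by omega)
  have h3 : ((2:ℝ) ^ (Nat.size q - 1)) ≤ q := by exact_mod_cast h2
  have h4 := Real.log_le_log (by positivity) h3
  rw [Real.log_pow] at h4
  have h5 := Real.log_two_gt_d9
  have h6 : ((Nat.size q - 1 : ℕ) : ℝ) = (Nat.size q : ℝ) - 1 := by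
    rw [Nat.cast_sub h1]; simp
  rw [h6] at h4
  have h7 : (1:ℝ) ≤ Nat.size q := by exact_mod_cast h1
  nlinarith

theorem eventually_size (b : ℕ) : ∀ᶠ q : ℕ in atTop,
    153605 * (q * (q ^ b) ^ 5) * (2 * Nat.size (40 * (q * (q ^ b) ^ 4) + 1) + 2)
      ≤ q ^ (5 * b + 2) := by
  set C1 : ℝ := 153605 * 14 with hC1
  set C2 : ℝ := 153605 * (2 * (4 * b + 1)) with hC2
  have hC2pos : 0 < C2 := by rw [hC2]; positivity
  have h1 : ∀ᶠ x : ℝ in atTop, Real.log x ≤ (1 / (4 * C2)) * x := by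
    have h2 := Real.isLittleO_log_id_atTop.bound (show 0 < 1 / (4 * C2) by positivity)
    filter_upwards [h2, eventually_ge_atTop (1:ℝ)] with x hx hx1
    simp only [id_eq, Real.norm_eq_abs] at hx
    rw [abs_of_nonneg (Real.log_nonneg hx1), abs_of_nonneg (by linarith)] at hx
    exact hx
  have h2 : ∀ᶠ q : ℕ in atTop, Real.log (q:ℝ) ≤ (1 / (4 * C2)) * (q:ℝ) :=
    tendsto_natCast_atTop_atTop.eventually h1
  have h3 : ∀ᶠ q : ℕ in atTop, 2 * (C1 + C2) ≤ (q:ℝ) :=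
    tendsto_natCast_atTop_atTop.eventually (eventually_ge_atTop _)
  filter_upwards [h2, h3, eventually_ge_atTop 1] with q hq2 hq3 hq1
  have h4 : (C1 + C2 * Nat.size q : ℝ) ≤ q := by
    have h5 := size_le_log q hq1
    have h6 : C2 * (Nat.size q : ℝ) ≤ C2 * (2 * Real.log q + 1) :=
      mul_le_mul_of_nonneg_left h5 hC2pos.le
    have h7 : C2 * (2 * Real.log q) ≤ C2 * (2 * ((1 / (4 * C2)) * (q:ℝ))) :=
      mul_le_mul_of_nonneg_left (by linarith) hC2pos.le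
    have h8 : C2 * (2 * ((1 / (4 * C2)) * (q:ℝ))) = q / 2 := by field_simp; ring
    nlinarith
  have h5 : 153605 * (2 * (6 + (4 * b + 1) * Nat.size q) + 2) ≤ q := by
    have h6 : ((153605 * (2 * (6 + (4 * b + 1) * Nat.size q) + 2) : ℕ) : ℝ) ≤ (q:ℝ) := by
      push_cast
      calc (153605 * (2 * (6 + (4 * (b:ℝ) + 1) * Nat.size q) + 2))
          = C1 + C2 * Nat.size q := by rw [hC1, hC2]; ring
        _ ≤ q := h4
    exact_mod_cast h6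
  have h6 := size_bound b q hq1
  calc 153605 * (q * (q ^ b) ^ 5) * (2 * Nat.size (40 * (q * (q ^ b) ^ 4) + 1) + 2)
      = (q * (q ^ b) ^ 5) * (153605 * (2 * Nat.size (40 * (q * (q ^ b) ^ 4) + 1) + 2)) := by ring
    _ ≤ (q * (q ^ b) ^ 5) * (153605 * (2 * (6 + (4 * b + 1) * Nat.size q) + 2)) := by
        refine Nat.mul_le_mul_left _ (Nat.mul_le_mul_left _ ?_)
        omega
    _ ≤ (q * (q ^ b) ^ 5) * q := Nat.mul_le_mul_left _ h5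
    _ = q ^ (5 * b + 2) := by ring

theorem eventually_exp (m : ℕ) : ∀ᶠ q : ℕ in atTop,
    9 * (q:ℝ) ^ m < (2:ℝ) ^ ((q:ℝ) / 2) := by
  have h1 : (1:ℝ) < (2:ℝ) ^ ((1:ℝ) / 2) := Real.one_lt_rpow (by norm_num) (by norm_num)
  have h2 := (isLittleO_pow_const_const_pow_of_one_lt (R := ℝ) m h1).bound
    (show (0:ℝ) < 1 / 18 by norm_num)
  filter_upwards [h2, eventually_ge_atTop 1] with q hq hq1
  have hqR : (1:ℝ) ≤ q := by exact_mod_cast hq1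
  rw [Real.norm_eq_abs, Real.norm_eq_abs, abs_of_nonneg (by positivity),
    abs_of_nonneg (by positivity)] at hq
  have h3 : ((2:ℝ) ^ ((1:ℝ) / 2)) ^ q = (2:ℝ) ^ ((q:ℝ) / 2) := by
    rw [← Real.rpow_natCast, ← Real.rpow_mul (by norm_num)]
    congr 1; ring
  rw [h3] at hq
  have h4 : 0 < (q:ℝ) ^ m := by positivity
  linarith

theorem final (θ δ : ℝ) (hθ : 1 ≤ θ) (hδ : 0 < δ) (hsum : θ + δ < 6 / 5) :
    ∃ τ : ℕ → Fm ℕ,
      (∀ n x, (τ n).eval x = true) ∧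
      Tendsto (fun n => (τ n).enc.length) atTop atTop ∧
      ∀ Sch : Set (Fm ℕ), Sch.Finite → (∀ ψ ∈ Sch, ∀ x, ψ.eval x = true) →
        ∀ᶠ n in atTop, ∀ (L : ℕ) (pf : Fin L → Fm ℕ), IsProof Sch pf → (∃ i, pf i = τ n) →
          (∀ i, ((pf i).enc.length : ℝ) ≤ ((τ n).enc.length : ℝ) ^ θ) →
          (2 : ℝ) ^ (((τ n).enc.length : ℝ) ^ δ) ≤ L := by
  obtain ⟨σ, hσ⟩ : ∃ σ, σ = θ + δ := ⟨_, rfl⟩
  have hσ' : 0 < 6 - 5 * σ := by rw [hσ]; linarith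
  obtain ⟨b, hb⟩ : ∃ b : ℕ, b = ⌈(2 * σ + 2) / (6 - 5 * σ)⌉₊ + 3 := ⟨_, rfl⟩
  have hb3 : 3 ≤ b := by omega
  have hb3R : (3:ℝ) ≤ b := by exact_mod_cast hb3
  have hbσ : (5 * (b:ℝ) + 2) * σ + 2 ≤ 6 * b := by
    have h1 : (2 * σ + 2) / (6 - 5 * σ) ≤ b := by
      refine (Nat.le_ceil _).trans ?_
      rw [hb]; push_cast; linarith
    rw [div_le_iff₀ hσ'] at h1
    linarith
  obtain ⟨a, ha⟩ : ∃ a : ℕ, a = ⌊(5 * (b:ℝ) + 2) * δ⌋₊ + 1 := ⟨_, rfl⟩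
  have ha1 : (5 * (b:ℝ) + 2) * δ < a := by
    rw [ha]; push_cast; exact Nat.lt_floor_add_one _
  have ha2 : (a:ℝ) ≤ (5 * (b:ℝ) + 2) * δ + 1 := by
    rw [ha]; push_cast
    have := Nat.floor_le (show 0 ≤ (5 * (b:ℝ) + 2) * δ by positivity)
    linarith
  have ha0 : 1 ≤ a := by omega
  have ha2b : a ≤ 2 * b := by
    have : (a:ℝ) ≤ 2 * b := by nlinarith
    exact_mod_cast this
  have hθa : (5 * (b:ℝ) + 2) * θ ≤ ((6 * b - a : ℕ) : ℝ) := by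
    rw [Nat.cast_sub (by omega)]
    push_cast
    have : (5 * (b:ℝ) + 2) * σ = (5 * (b:ℝ) + 2) * θ + (5 * (b:ℝ) + 2) * δ := by
      rw [hσ]; ring
    linarith
  have hch : ∀ n : ℕ, ∃ τ : Fm ℕ, (∀ x, τ.eval x = true) ∧ (n + 1000) ≤ τ.enc.length ∧
      τ.enc.length ≤ 153605 * ((n + 1000) * ((n + 1000) ^ b) ^ 5) *
        (2 * Nat.size (40 * ((n + 1000) * ((n + 1000) ^ b) ^ 4) + 1) + 2) ∧
      ∀ ℓ : ℕ, thr kap ℓ ≤ n + 1000 → ∀ Sch : Set (Fm ℕ),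
        (∀ ψ ∈ Sch, ∀ x : ℕ → Bool, ψ.eval x = true) → (∀ ψ ∈ Sch, ψ.len ≤ ℓ) →
        ∀ t s : ℕ, t ≤ ((n + 1000) ^ b) ^ 2 → t * s ≤ ((n + 1000) ^ b) ^ 6 →
        ∀ (L : ℕ) (pf : Fin L → Fm ℕ), IsProof Sch pf → (∃ i, pf i = τ) →
        (∀ i, (pf i).len ≤ s) → 2 ^ t ≤ 9 * L * s ^ 2 :=
    fun n => fixed b (n + 1000) (by omega) (by omega)
  choose τ hτ1 hτ2 hτ3 hτ4 using hch
  refine ⟨τ, hτ1, ?_, ?_⟩
  · refine tendsto_atTop_mono hτ2 ?_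
    exact tendsto_add_atTop_nat 1000
  · intro Sch hfin htaut
    obtain ⟨ℓ, hℓ⟩ : ∃ ℓ : ℕ, ∀ ψ ∈ Sch, ψ.len ≤ ℓ := by
      obtain ⟨ℓ, hℓ⟩ := (hfin.image Fm.len).bddAbove
      exact ⟨ℓ, fun ψ hψ => hℓ (Set.mem_image_of_mem _ hψ)⟩
    have hshift : Tendsto (fun n : ℕ => n + 1000) atTop atTop := tendsto_add_atTop_nat 1000
    have hpow : ∀ᶠ q : ℕ in atTop, (q:ℝ) ^ ((5 * (b:ℝ) + 2) * δ) ≤ (q:ℝ) ^ a / 2 := by
      have h1 : Tendsto (fun q : ℕ => (q:ℝ) ^ ((a:ℝ) - (5 * (b:ℝ) + 2) * δ)) atTop atTop :=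
        (tendsto_rpow_atTop (by linarith)).comp tendsto_natCast_atTop_atTop
      filter_upwards [h1.eventually (eventually_ge_atTop 2), eventually_ge_atTop 1] with q hq hq1
      have hqR : (0:ℝ) < q := by exact_mod_cast hq1
      have h2 : (q:ℝ) ^ a = (q:ℝ) ^ ((5 * (b:ℝ) + 2) * δ) *
          (q:ℝ) ^ ((a:ℝ) - (5 * (b:ℝ) + 2) * δ) := by
        rw [← Real.rpow_add hqR, ← Real.rpow_natCast]
        congr 1; ring
      rw [h2, le_div_iff₀ (by norm_num)]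
      exact mul_le_mul_of_nonneg_left hq (by positivity)
    filter_upwards [hshift.eventually (eventually_size b), hshift.eventually hpow,
      hshift.eventually (eventually_exp (12 * b)),
      hshift.eventually (eventually_ge_atTop (thr kap ℓ))] with n h1 h2 h3 h4
    intro L pf hpf hex hlines
    obtain ⟨q, hq⟩ : ∃ q, q = n + 1000 := ⟨_, rfl⟩
    rw [← hq] at h1 h2 h3 h4
    have hq1 : 1 ≤ q := by omega
    have hqR : (1:ℝ) ≤ q := by exact_mod_cast hq1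
    have hq0 : (0:ℝ) < q := by linarith
    have hup : (τ n).enc.length ≤ q ^ (5 * b + 2) := by
      refine (hτ3 n).trans ?_
      rw [← hq]; exact h1
    have hupR : ((τ n).enc.length : ℝ) ≤ (q:ℝ) ^ (5 * b + 2) := by exact_mod_cast hup
    have hnn : (0:ℝ) ≤ ((τ n).enc.length : ℝ) := by positivity
    have hpw : ∀ e : ℝ, 0 ≤ e → ((τ n).enc.length : ℝ) ^ e ≤ (q:ℝ) ^ ((5 * (b:ℝ) + 2) * e) := by
      intro e he
      calc ((τ n).enc.length : ℝ) ^ e ≤ ((q:ℝ) ^ (5 * b + 2)) ^ e :=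
            Real.rpow_le_rpow hnn hupR he
        _ = (q:ℝ) ^ ((5 * (b:ℝ) + 2) * e) := by
            rw [← Real.rpow_natCast, ← Real.rpow_mul hq0.le]
            push_cast
            rfl
    by_contra hL
    push Not at hL
    have hLlt : (L:ℝ) < (2:ℝ) ^ ((q:ℝ) ^ a / 2) := by
      refine hL.trans_le (Real.rpow_le_rpow_of_exponent_le (by norm_num) ?_)
      exact (hpw δ hδ.le).trans h2
    have hlen : ∀ i, (pf i).len ≤ q ^ (6 * b - a) := by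
      intro i
      have e1 : ((pf i).len : ℝ) ≤ ((pf i).enc.length : ℝ) := by exact_mod_cast len_le_enc _
      have e2 : ((pf i).len : ℝ) ≤ (q:ℝ) ^ (6 * b - a) := by
        calc ((pf i).len : ℝ) ≤ ((pf i).enc.length : ℝ) := e1
          _ ≤ ((τ n).enc.length : ℝ) ^ θ := hlines i
          _ ≤ (q:ℝ) ^ ((5 * (b:ℝ) + 2) * θ) := hpw θ (by linarith)
          _ ≤ (q:ℝ) ^ ((6 * b - a : ℕ) : ℝ) :=
              Real.rpow_le_rpow_of_exponent_le hqR hθa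
          _ = (q:ℝ) ^ (6 * b - a) := Real.rpow_natCast _ _
      exact_mod_cast e2
    have ht1 : q ^ a ≤ (q ^ b) ^ 2 := by
      rw [← pow_mul]
      exact Nat.pow_le_pow_right hq1 (by omega)
    have ht2 : q ^ a * q ^ (6 * b - a) ≤ (q ^ b) ^ 6 := by
      rw [← pow_mul, ← pow_add]
      exact Nat.pow_le_pow_right hq1 (by omega)
    have hmain := hτ4 n ℓ (by rw [← hq]; exact h4) Sch htaut hℓ (q ^ a) (q ^ (6 * b - a))
      (by rw [← hq]; exact ht1) (by rw [← hq]; exact ht2) L pf hpf hex hlen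
    have hmainR : (2:ℝ) ^ (q ^ a) ≤ 9 * L * ((q:ℝ) ^ (6 * b - a)) ^ 2 := by exact_mod_cast hmain
    have hs2 : ((q:ℝ) ^ (6 * b - a)) ^ 2 ≤ (q:ℝ) ^ (12 * b) := by
      rw [← pow_mul]
      exact pow_le_pow_right₀ hqR (by omega)
    have hqa : (q:ℝ) ≤ (q:ℝ) ^ a := by
      calc (q:ℝ) = (q:ℝ) ^ 1 := (pow_one _).symm
        _ ≤ (q:ℝ) ^ a := pow_le_pow_right₀ hqR ha0
    have h5 : (2:ℝ) ^ ((q:ℝ) / 2) ≤ (2:ℝ) ^ ((q:ℝ) ^ a / 2) :=
      Real.rpow_le_rpow_of_exponent_le (by norm_num) (by linarith)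
    have hX : (0:ℝ) < (2:ℝ) ^ ((q:ℝ) ^ a / 2) := by positivity
    have h6 : (2:ℝ) ^ (q ^ a) = (2:ℝ) ^ ((q:ℝ) ^ a / 2) * (2:ℝ) ^ ((q:ℝ) ^ a / 2) := by
      rw [← Real.rpow_add (by norm_num), ← Real.rpow_natCast]
      congr 1
      push_cast
      ring
    have h7 : 9 * (L:ℝ) * ((q:ℝ) ^ (6 * b - a)) ^ 2
        ≤ (L:ℝ) * (9 * (q:ℝ) ^ (12 * b)) := by
      have : (0:ℝ) ≤ 9 * L := by positivity
      calc 9 * (L:ℝ) * ((q:ℝ) ^ (6 * b - a)) ^ 2 ≤ 9 * (L:ℝ) * (q:ℝ) ^ (12 * b) :=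
            mul_le_mul_of_nonneg_left hs2 this
        _ = _ := by ring
    have h8 : (L:ℝ) * (9 * (q:ℝ) ^ (12 * b))
        < (2:ℝ) ^ ((q:ℝ) ^ a / 2) * (2:ℝ) ^ ((q:ℝ) ^ a / 2) := by
      have h9 : 9 * (q:ℝ) ^ (12 * b) < (2:ℝ) ^ ((q:ℝ) ^ a / 2) := h3.trans_le h5
      have h10 : (0:ℝ) < 9 * (q:ℝ) ^ (12 * b) := by positivity
      calc (L:ℝ) * (9 * (q:ℝ) ^ (12 * b))
          ≤ (2:ℝ) ^ ((q:ℝ) ^ a / 2) * (9 * (q:ℝ) ^ (12 * b)) :=
            mul_le_mul_of_nonneg_right hLlt.le h10.le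
        _ < _ := mul_lt_mul_of_pos_left h9 hX
    linarith

end Pool.Agent.H3.Frg2
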